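import Pool.Agent.Helper453.SR.Defs

set_option autoImplicit false
open CategoryTheory MonoidalCategory

namespace Pool.Agent.Helper453.SR.NA1

open Pool.Agent.Helper453.SR 






/-- the map `f ↦ X f Y` -/
noncomputable def A1M {S A : Type} [AddCommGroup S] [Module ℂ S] [AddCommGroup A] [Module ℂ A]
    (X : A →ₗ[ℂ] A) (Y : S →ₗ[ℂ] S) : (S →ₗ[ℂ] A) →ₗ[ℂ] (S →ₗ[ℂ] A) where
  toFun f := X ∘ₗ f ∘ₗ Y
  map_add' f g := by rw [LinearMap.add_comp, LinearMap.comp_add]
  map_smul' c f := by rw [LinearMap.smul_comp, LinearMap.comp_smul]; rfl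

theorem A1M_apply {S A : Type} [AddCommGroup S] [Module ℂ S] [AddCommGroup A] [Module ℂ A]
    (X : A →ₗ[ℂ] A) (Y : S →ₗ[ℂ] S) (f : S →ₗ[ℂ] A) : A1M X Y f = X ∘ₗ f ∘ₗ Y := rfl

theorem A1M_trace {S A : Type} [AddCommGroup S] [Module ℂ S] [FiniteDimensional ℂ S]
    [AddCommGroup A] [Module ℂ A] [FiniteDimensional ℂ A] (X : A →ₗ[ℂ] A) (Y : S →ₗ[ℂ] S) :
    LinearMap.trace ℂ (S →ₗ[ℂ] A) (A1M X Y) =
      LinearMap.trace ℂ A X * LinearMap.trace ℂ S Y := by
  have h1 : A1M X Y = (dualTensorHomEquiv ℂ S A).conj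
      (TensorProduct.map (Module.Dual.transpose Y) X) := by
    have key : A1M X Y ∘ₗ (dualTensorHomEquiv ℂ S A).toLinearMap =
        (dualTensorHomEquiv ℂ S A).toLinearMap ∘ₗ
          TensorProduct.map (Module.Dual.transpose Y) X := by
      apply TensorProduct.ext'
      intro φ a
      ext s
      simp [A1M_apply, Module.Dual.transpose_apply]
    refine LinearMap.ext fun f => ?_
    have h2 := LinearMap.congr_fun key ((dualTensorHomEquiv ℂ S A).symm f)
    rw [LinearMap.comp_apply, LinearEquiv.coe_coe, LinearEquiv.apply_symm_apply] at h2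
    rw [h2]
    rfl
  rw [h1, LinearMap.trace_conj', LinearMap.trace_tensorProduct', LinearMap.trace_transpose',
    mul_comm]

theorem A1_finrank_one {V : Type} [AddCommGroup V] [Module ℂ V] (v : V) (hv : v ≠ 0)
    (h : ∀ w : V, ∃ c : ℂ, c • v = w) : Module.finrank ℂ V = 1 :=
  (finrank_eq_one_iff_of_nonzero' v hv).2 h

theorem A1_schur {G : Type} [Group G] {A : Type} [AddCommGroup A] [Module ℂ A]
    [FiniteDimensional ℂ A] (ρ : Representation ℂ G A) (S : Subrepresentation ρ)
    (hne : S.toSubmodule ≠ ⊥)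
    (hmin : ∀ T : Subrepresentation ρ, T.toSubmodule ≠ ⊥ → T.toSubmodule ≤ S.toSubmodule →
      T.toSubmodule = S.toSubmodule) (f : S.toSubmodule →ₗ[ℂ] S.toSubmodule)
    (hf : ∀ g v, f (S.toRepresentation g v) = S.toRepresentation g (f v)) :
    ∃ c : ℂ, ∀ v, f v = c • v := by
  haveI : Nontrivial S.toSubmodule := (Submodule.nontrivial_iff_ne_bot).2 hne
  obtain ⟨c, hc⟩ := Module.End.exists_eigenvalue f
  refine ⟨c, fun v => ?_⟩
  let T : Subrepresentation ρ :=
    { toSubmodule := (Module.End.eigenspace f c).map S.toSubmodule.subtype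
      apply_mem_toSubmodule := by
        rintro g _ ⟨w, hw, rfl⟩
        refine ⟨S.toRepresentation g w, ?_, rfl⟩
        have hw' := Module.End.mem_eigenspace_iff.1 hw
        refine Module.End.mem_eigenspace_iff.2 ?_
        rw [hf, hw', map_smul] }
  have hT : T.toSubmodule = S.toSubmodule := by
    apply hmin T
    · intro hbot
      apply hc
      rw [eq_bot_iff]
      intro w hw
      have : (w : A) ∈ T.toSubmodule := ⟨w, hw, rfl⟩
      rw [hbot, Submodule.mem_bot] at this
      exact (Submodule.mem_bot ℂ).2 (Subtype.ext this)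
    · rintro _ ⟨w, _, rfl⟩
      exact w.2
  have hv : (v : A) ∈ T.toSubmodule := by rw [hT]; exact v.2
  obtain ⟨w, hw, hwv⟩ := hv
  have : w = v := Subtype.ext hwv
  rw [← this]
  exact Module.End.mem_eigenspace_iff.1 hw

theorem A1_simple {G : Type} [Group G] [Fintype G] {A : Type} [AddCommGroup A] [Module ℂ A]
    [FiniteDimensional ℂ A] (ρ : Representation ℂ G A) (S : Subrepresentation ρ)
    (hne : S.toSubmodule ≠ ⊥)
    (hmin : ∀ T : Subrepresentation ρ, T.toSubmodule ≠ ⊥ → T.toSubmodule ≤ S.toSubmodule →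
      T.toSubmodule = S.toSubmodule) :
    CategoryTheory.Simple (FDRep.of S.toRepresentation) := by
  haveI : NeZero (Nat.card G : ℂ) := ⟨by exact_mod_cast Nat.card_pos.ne'⟩
  haveI : Nontrivial S.toSubmodule := (Submodule.nontrivial_iff_ne_bot).2 hne
  rw [FDRep.simple_iff_end_is_rank_one]
  rw [← LinearEquiv.finrank_eq (Representation.linHom.invariantsEquivFDRepHom
    (FDRep.of S.toRepresentation) (FDRep.of S.toRepresentation))]
  have hid : (LinearMap.id : S.toSubmodule →ₗ[ℂ] S.toSubmodule) ∈
      (Representation.linHom S.toRepresentation S.toRepresentation).invariants := by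
    rw [Representation.mem_invariants]
    intro g
    ext v
    simp
  have hidne : (⟨LinearMap.id, hid⟩ :
      (Representation.linHom S.toRepresentation S.toRepresentation).invariants) ≠ 0 := by
    intro h
    have h1 : (LinearMap.id : S.toSubmodule →ₗ[ℂ] S.toSubmodule) = 0 := congrArg Subtype.val h
    obtain ⟨v, hv⟩ := exists_ne (0 : S.toSubmodule)
    exact hv (by simpa using LinearMap.congr_fun h1 v)
  have key : Module.finrank ℂ
      (Representation.linHom S.toRepresentation S.toRepresentation).invariants = 1 := by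
    refine A1_finrank_one
      (V := (Representation.linHom S.toRepresentation S.toRepresentation).invariants)
      ⟨LinearMap.id, hid⟩ (fun h => hidne h) fun w => ?_
    obtain ⟨c, hc⟩ := A1_schur ρ S hne hmin w.1 (by
      intro g v
      have h1 := LinearMap.congr_fun (w.2 g) (S.toRepresentation g v)
      simp only [Representation.linHom_apply, LinearMap.comp_apply] at h1
      rw [← h1]
      simp)
    refine ⟨c, Subtype.ext (LinearMap.ext fun v => ?_)⟩
    exact (hc v).symm
  exact key

theorem A1 {G : Type} [Group G] [Fintype G] {A : Type} [AddCommGroup A] [Module ℂ A] [FiniteDimensional ℂ A]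
    (ρ : Representation ℂ G A)
    (hM : ∀ U : FDRep ℂ G, CategoryTheory.Simple U → Module.finrank ℂ (U ⟶ FDRep.of ρ) ≤ 1)
    (D : A →ₗ[ℂ] A) (hc : ∀ g, D ∘ₗ ρ g = ρ g ∘ₗ D)
    (hD : ∀ h : G, LinearMap.trace ℂ A (D ∘ₗ ρ h) = 0) : D = 0 := by
  classical
  haveI : NeZero (Nat.card G : ℂ) := ⟨by exact_mod_cast Nat.card_pos.ne'⟩
  haveI : Invertible (Fintype.card G : ℂ) :=
    invertibleOfNonzero (by exact_mod_cast Fintype.card_ne_zero)
  by_contra hne
  have hcv : ∀ g v, D (ρ g v) = ρ g (D v) := fun g v => LinearMap.congr_fun (hc g) v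
  let K : Subrepresentation ρ :=
    { toSubmodule := LinearMap.ker D
      apply_mem_toSubmodule := by
        intro g v hv
        rw [LinearMap.mem_ker] at hv ⊢
        rw [hcv, hv, map_zero] }
  obtain ⟨K', hK'⟩ := exists_isCompl K
  have hinf : LinearMap.ker D ⊓ K'.toSubmodule = ⊥ := by
    have h1 := hK'.inf_eq_bot
    exact congrArg Subrepresentation.toSubmodule h1
  have hsup : LinearMap.ker D ⊔ K'.toSubmodule = ⊤ := by
    have h1 := hK'.sup_eq_top
    exact congrArg Subrepresentation.toSubmodule h1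
  have hK'ne : K'.toSubmodule ≠ ⊥ := by
    intro h
    rw [h, sup_bot_eq, LinearMap.ker_eq_top] at hsup
    exact hne hsup
  -- a minimal subrepresentation
  obtain ⟨S, ⟨hSne, hSK⟩, hSmin⟩ := WellFounded.has_min
    (measure fun T : Subrepresentation ρ => Module.finrank ℂ T.toSubmodule).wf
    {T | T.toSubmodule ≠ ⊥ ∧ T.toSubmodule ≤ K'.toSubmodule} ⟨K', hK'ne, le_rfl⟩
  have hmin : ∀ T : Subrepresentation ρ, T.toSubmodule ≠ ⊥ → T.toSubmodule ≤ S.toSubmodule →
      T.toSubmodule = S.toSubmodule := by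
    intro T hT hTS
    have h1 : ¬ Module.finrank ℂ T.toSubmodule < Module.finrank ℂ S.toSubmodule :=
      hSmin T ⟨hT, hTS.trans hSK⟩
    exact Submodule.eq_of_le_of_finrank_le hTS (not_lt.1 h1)
  haveI hsimple := A1_simple ρ S hSne hmin
  haveI : Nontrivial S.toSubmodule := (Submodule.nontrivial_iff_ne_bot).2 hSne
  have hfr := hM (FDRep.of S.toRepresentation) hsimple
  rw [← LinearEquiv.finrank_eq (Representation.linHom.invariantsEquivFDRepHom
    (FDRep.of S.toRepresentation) (FDRep.of ρ))] at hfr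
  replace hfr : Module.finrank ℂ (Representation.linHom S.toRepresentation ρ).invariants ≤ 1 := hfr
  set L := Representation.linHom S.toRepresentation ρ with hL
  have hinc : S.toSubmodule.subtype ∈ L.invariants := by
    rw [Representation.mem_invariants]
    intro g
    ext v
    show ρ g (ρ g⁻¹ v) = v
    rw [← Module.End.mul_apply, ← map_mul]
    simp
  have hincne : (⟨S.toSubmodule.subtype, hinc⟩ : L.invariants) ≠ 0 := by
    intro h
    have h1 : S.toSubmodule.subtype = 0 := congrArg Subtype.val h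
    obtain ⟨v, hv⟩ := exists_ne (0 : S.toSubmodule)
    exact hv (Subtype.ext (by simpa using LinearMap.congr_fun h1 v))
  have hfr1 : Module.finrank ℂ L.invariants = 1 := by
    have h1 : 0 < Module.finrank ℂ L.invariants :=
      Module.finrank_pos_iff_exists_ne_zero.2 ⟨_, hincne⟩
    omega
  have hspan := (finrank_eq_one_iff_of_nonzero' _ hincne).1 hfr1
  have hDinc : D ∘ₗ S.toSubmodule.subtype ∈ L.invariants := by
    rw [Representation.mem_invariants]
    intro g
    ext v
    have h3 : ρ g (ρ g⁻¹ (v : A)) = v := by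
      rw [← Module.End.mul_apply, ← map_mul]
      simp
    show ρ g (D (ρ g⁻¹ v)) = D v
    rw [← hcv, h3]
  obtain ⟨c, hcc⟩ := hspan ⟨_, hDinc⟩
  have hcc' : ∀ v : S.toSubmodule, D v = c • (v : A) := fun v =>
    (LinearMap.congr_fun (congrArg Subtype.val hcc) v).symm
  -- the trace computation
  have hπ := L.isProj_averageMap
  have e1 : A1M (S := S.toSubmodule) D LinearMap.id ∘ₗ L.averageMap = c • L.averageMap := by
    ext f v
    obtain ⟨t, ht⟩ := hspan ⟨L.averageMap f, L.averageMap_invariant f⟩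
    have ht' : L.averageMap f = t • S.toSubmodule.subtype := (congrArg Subtype.val ht).symm
    show D ((L.averageMap f) v) = c • (L.averageMap f) v
    rw [ht']
    show D (t • (v : A)) = c • (t • (v : A))
    rw [map_smul, hcc', smul_comm]
  have e2 : A1M (S := S.toSubmodule) D LinearMap.id ∘ₗ L.averageMap =
      ⅟(Fintype.card G : ℂ) • ∑ g : G, A1M (D ∘ₗ ρ g) (S.toRepresentation g⁻¹) := by
    have e3 : L.averageMap = ⅟(Fintype.card G : ℂ) • ∑ g : G, L g := by
      rw [Representation.averageMap, GroupAlgebra.average, map_smul, map_sum]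
      simp only [Representation.asAlgebraHom_of]
    refine LinearMap.ext fun f => ?_
    rw [LinearMap.comp_apply, e3, LinearMap.smul_apply, LinearMap.sum_apply, map_smul, map_sum,
      LinearMap.smul_apply, LinearMap.sum_apply]
    rfl
  have e4 := congrArg (LinearMap.trace ℂ (S.toSubmodule →ₗ[ℂ] A)) (e1.symm.trans e2)
  rw [map_smul, map_smul, map_sum, hπ.trace, hfr1] at e4
  simp only [A1M_trace, hD, zero_mul, Finset.sum_const_zero, smul_zero, Nat.cast_one, smul_eq_mul,
    mul_one, mul_zero] at e4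
  -- contradiction
  obtain ⟨v, hv⟩ := exists_ne (0 : S.toSubmodule)
  have hDv : D v = 0 := by rw [hcc', e4, zero_smul]
  have hmem : (v : A) ∈ LinearMap.ker D ⊓ K'.toSubmodule := ⟨hDv, hSK v.2⟩
  rw [hinf, Submodule.mem_bot] at hmem
  exact hv (Subtype.ext hmem)

end Pool.Agent.Helper453.SR.NA1
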