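import Pool.Agent.Helper453.SR.Defs

set_option autoImplicit false
open CategoryTheory MonoidalCategory

namespace Pool.Agent.Helper453.SR.NA2

open Pool.Agent.Helper453.SR 






noncomputable def A2_iso {G : Type} [Group G]
    {A B : Type} [AddCommGroup A] [Module ℂ A] [FiniteDimensional ℂ A]
    [AddCommGroup B] [Module ℂ B] [FiniteDimensional ℂ B]
    (ρ : Representation ℂ G A) (τ : Representation ℂ G B) :
    FDRep.of ρ ⊗ FDRep.of τ ≅ FDRep.of (ρ.tprod τ) := by
  refine Action.mkIso (LinearEquiv.toFGModuleCatIso (LinearEquiv.refl ℂ (TensorProduct ℂ A B)))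
    (fun g => ?_)
  rfl

theorem A2 {G : Type} [Group G] [Fintype G]
    (hmf : ∀ U V W : FDRep ℂ G, CategoryTheory.Simple U → CategoryTheory.Simple V →
        CategoryTheory.Simple W → Module.finrank ℂ (U ⟶ V ⊗ W) ≤ 1)
    {A B : Type} [AddCommGroup A] [Module ℂ A] [FiniteDimensional ℂ A]
    [AddCommGroup B] [Module ℂ B] [FiniteDimensional ℂ B]
    (ρ : Representation ℂ G A) (τ : Representation ℂ G B)
    (hρ : CategoryTheory.Simple (FDRep.of ρ)) (hτ : CategoryTheory.Simple (FDRep.of τ)) :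
    ∀ U : FDRep ℂ G, CategoryTheory.Simple U → Module.finrank ℂ (U ⟶ FDRep.of (ρ.tprod τ)) ≤ 1 := by
  intro U hU
  have h1 := hmf U (FDRep.of ρ) (FDRep.of τ) hU hρ hτ
  rw [← (CategoryTheory.Linear.homCongr ℂ (Iso.refl U) (A2_iso ρ τ)).finrank_eq]
  exact h1

end Pool.Agent.Helper453.SR.NA2
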