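import Pool.Agent.Helper453.SR.Defs
import Pool.Agent.Helper453.SR.A1
import Pool.Agent.Helper453.SR.A2

set_option autoImplicit false
open CategoryTheory MonoidalCategory

namespace Pool.Agent.Helper453.SR.NA3

open Pool.Agent.Helper453.SR Pool.Agent.Helper453.SR.NA1 Pool.Agent.Helper453.SR.NA2













theorem A3_conj {G : Type} [Group G] {V : Type} [AddCommGroup V] [Module ℂ V]
    [FiniteDimensional ℂ V] (σ : Representation ℂ G V) (a c : G) :
    LinearMap.trace ℂ V (σ (c * a * c⁻¹)) = LinearMap.trace ℂ V (σ a) := by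
  rw [map_mul σ (c * a) c⁻¹, LinearMap.trace_mul_comm, ← map_mul]
  congr 2
  group

theorem A3_cyc {G : Type} [Group G] {V : Type} [AddCommGroup V] [Module ℂ V]
    [FiniteDimensional ℂ V] (σ : Representation ℂ G V) (a b : G) :
    LinearMap.trace ℂ V (σ (a * b)) = LinearMap.trace ℂ V (σ (b * a)) := by
  rw [map_mul σ, LinearMap.trace_mul_comm, ← map_mul]

theorem A3_inv {G : Type} [Group G] (hreal : ∀ g : G, IsConj g g⁻¹) {V : Type} [AddCommGroup V]
    [Module ℂ V] [FiniteDimensional ℂ V] (σ : Representation ℂ G V) (a : G) :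
    LinearMap.trace ℂ V (σ a⁻¹) = LinearMap.trace ℂ V (σ a) := by
  obtain ⟨c, hc⟩ := isConj_iff.1 (hreal a)
  rw [← hc, A3_conj]

theorem A3 {G : Type} [Group G] [Fintype G] (hreal : ∀ g : G, IsConj g g⁻¹)
    (hmf : ∀ U V W : FDRep ℂ G, CategoryTheory.Simple U → CategoryTheory.Simple V →
        CategoryTheory.Simple W → Module.finrank ℂ (U ⟶ V ⊗ W) ≤ 1)
    {A B : Type} [AddCommGroup A] [Module ℂ A] [FiniteDimensional ℂ A]
    [AddCommGroup B] [Module ℂ B] [FiniteDimensional ℂ B]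
    (ρ : Representation ℂ G A) (τ : Representation ℂ G B)
    (hρ : CategoryTheory.Simple (FDRep.of ρ)) (hτ : CategoryTheory.Simple (FDRep.of τ)) (x y : G) :
    ∑ g : G, TensorProduct.map (ρ (g * x * g⁻¹)) (τ (g * y * g⁻¹)) =
      ∑ g : G, TensorProduct.map (ρ (g * x⁻¹ * g⁻¹)) (τ (g * y⁻¹ * g⁻¹)) := by
  set T : G → G → (TensorProduct ℂ A B →ₗ[ℂ] TensorProduct ℂ A B) := fun x y =>
    ∑ g : G, TensorProduct.map (ρ (g * x * g⁻¹)) (τ (g * y * g⁻¹)) with hT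
  have hcomp : ∀ a b c d : G, TensorProduct.map (ρ a) (τ b) ∘ₗ TensorProduct.map (ρ c) (τ d)
      = TensorProduct.map (ρ (a * c)) (τ (b * d)) := by
    intro a b c d
    rw [← TensorProduct.map_comp, map_mul, map_mul]
    rfl
  have sc : ∀ (f : G → (TensorProduct ℂ A B →ₗ[ℂ] TensorProduct ℂ A B))
      (u : TensorProduct ℂ A B →ₗ[ℂ] TensorProduct ℂ A B),
      (∑ g, f g) ∘ₗ u = ∑ g, f g ∘ₗ u := by
    intro f u
    rw [← Module.End.mul_eq_comp, Finset.sum_mul]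
    rfl
  have cs : ∀ (f : G → (TensorProduct ℂ A B →ₗ[ℂ] TensorProduct ℂ A B))
      (u : TensorProduct ℂ A B →ₗ[ℂ] TensorProduct ℂ A B),
      u ∘ₗ (∑ g, f g) = ∑ g, u ∘ₗ f g := by
    intro f u
    rw [← Module.End.mul_eq_comp, Finset.mul_sum]
    rfl
  -- T commutes with the diagonal action
  have hcT : ∀ (x y h : G), T x y ∘ₗ (ρ.tprod τ) h = (ρ.tprod τ) h ∘ₗ T x y := by
    intro x y h
    simp only [hT, Representation.tprod_apply, sc, cs, hcomp]
    rw [← Equiv.sum_comp (Equiv.mulLeft h)]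
    refine Finset.sum_congr rfl fun g _ => ?_
    simp only [Equiv.coe_mulLeft]
    congr 2
    · group
    · group
  -- traces
  have htr : ∀ (x y h : G), LinearMap.trace ℂ (TensorProduct ℂ A B) (T x y ∘ₗ (ρ.tprod τ) h)
      = ∑ g : G, LinearMap.trace ℂ A (ρ (g * x * g⁻¹ * h)) * LinearMap.trace ℂ B (τ (g * y * g⁻¹ * h)) := by
    intro x y h
    simp only [hT, Representation.tprod_apply, sc, hcomp, map_sum,
      LinearMap.trace_tensorProduct']
  have hS1 : ∀ (x y h : G), LinearMap.trace ℂ (TensorProduct ℂ A B) (T x⁻¹ y⁻¹ ∘ₗ (ρ.tprod τ) h)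
      = LinearMap.trace ℂ (TensorProduct ℂ A B) (T x y ∘ₗ (ρ.tprod τ) h⁻¹) := by
    intro x y h
    rw [htr, htr]
    refine Finset.sum_congr rfl fun g _ => ?_
    have e : ∀ z : G, (g * z⁻¹ * g⁻¹ * h)⁻¹ = h⁻¹ * (g * z * g⁻¹) := by intro z; group
    rw [← A3_inv hreal ρ (g * x⁻¹ * g⁻¹ * h), ← A3_inv hreal τ (g * y⁻¹ * g⁻¹ * h), e, e,
      A3_cyc ρ, A3_cyc τ]
  have hS2 : ∀ (x y h c : G), LinearMap.trace ℂ (TensorProduct ℂ A B)
        (T x y ∘ₗ (ρ.tprod τ) (c * h * c⁻¹))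
      = LinearMap.trace ℂ (TensorProduct ℂ A B) (T x y ∘ₗ (ρ.tprod τ) h) := by
    intro x y h c
    rw [htr, htr]
    rw [← Equiv.sum_comp (Equiv.mulLeft c)]
    refine Finset.sum_congr rfl fun g _ => ?_
    simp only [Equiv.coe_mulLeft]
    have e : ∀ z : G, c * g * z * (c * g)⁻¹ * (c * h * c⁻¹) = c * (g * z * g⁻¹ * h) * c⁻¹ := by
      intro z; group
    rw [e, e, A3_conj, A3_conj]
  have hD : ∀ h : G, LinearMap.trace ℂ (TensorProduct ℂ A B)
      ((T x y - T x⁻¹ y⁻¹) ∘ₗ (ρ.tprod τ) h) = 0 := by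
    intro h
    rw [LinearMap.sub_comp, map_sub, hS1]
    obtain ⟨c, hc⟩ := isConj_iff.1 (hreal h)
    rw [← hc, hS2, sub_self]
  have hfin := A1 (ρ.tprod τ) (A2 hmf ρ τ hρ hτ) (T x y - T x⁻¹ y⁻¹)
    (fun g => by rw [LinearMap.sub_comp, LinearMap.comp_sub, hcT, hcT]) hD
  exact sub_eq_zero.1 hfin

end Pool.Agent.Helper453.SR.NA3
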