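import Pool.Agent.Helper453.SR.Defs

set_option autoImplicit false
open CategoryTheory MonoidalCategory

namespace Pool.Agent.Helper453.SR.NA4

open Pool.Agent.Helper453.SR 






theorem A4_irr {G : Type} [Group G] {A : Type} [AddCommGroup A] [Module ℂ A]
    (ρ : Representation ℂ G A) (σ : Subrepresentation ρ) (h : IsAtom σ) :
    Representation.IsIrreducible σ.toRepresentation := by
  have hlift : ∀ τ : Subrepresentation σ.toRepresentation, ∃ τ' : Subrepresentation ρ,
      τ'.toSubmodule = τ.toSubmodule.map σ.toSubmodule.subtype := by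
    intro τ
    refine ⟨⟨τ.toSubmodule.map σ.toSubmodule.subtype, ?_⟩, rfl⟩
    rintro g v ⟨w, hw, rfl⟩
    exact ⟨σ.toRepresentation g w, τ.apply_mem_toSubmodule g hw, rfl⟩
  refine { exists_pair_ne := ⟨⊥, ⊤, ?_⟩, eq_bot_or_eq_top := ?_ }
  · intro h0
    apply h.1
    apply Subrepresentation.toSubmodule_injective
    show σ.toSubmodule = (⊥ : Submodule ℂ A)
    rw [eq_bot_iff]
    intro v hv
    have h1 : (⟨v, hv⟩ : σ.toSubmodule) ∈
        (⊤ : Subrepresentation σ.toRepresentation).toSubmodule := Submodule.mem_top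
    rw [← h0] at h1
    have h2 : (⟨v, hv⟩ : σ.toSubmodule) = 0 := (Submodule.mem_bot ℂ).1 h1
    exact (Submodule.mem_bot ℂ).2 (congrArg Subtype.val h2)
  · intro τ
    obtain ⟨τ', hτ'⟩ := hlift τ
    have hle : τ' ≤ σ := by
      intro v hv
      have hv' : v ∈ τ'.toSubmodule := hv
      rw [hτ'] at hv'
      obtain ⟨w, _, rfl⟩ := hv'
      exact w.2
    rcases h.le_iff.1 hle with h1 | h1
    · left
      apply Subrepresentation.toSubmodule_injective
      show τ.toSubmodule = ⊥
      have h2 : τ.toSubmodule.map σ.toSubmodule.subtype = ⊥ := by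
        rw [← hτ', h1]; rfl
      rw [eq_bot_iff]
      intro w hw
      have h3 : σ.toSubmodule.subtype w ∈ τ.toSubmodule.map σ.toSubmodule.subtype := ⟨w, hw, rfl⟩
      rw [h2] at h3
      exact (Submodule.mem_bot ℂ).2 (Subtype.ext ((Submodule.mem_bot ℂ).1 h3))
    · right
      apply Subrepresentation.toSubmodule_injective
      show τ.toSubmodule = ⊤
      rw [eq_top_iff]
      rintro ⟨v, hv⟩ -
      have h2 : v ∈ τ.toSubmodule.map σ.toSubmodule.subtype := by
        rw [← hτ', h1]; exact hv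
      obtain ⟨w, hw, hwv⟩ := h2
      have : w = ⟨v, hv⟩ := Subtype.ext hwv
      rwa [← this]

theorem A4 {G : Type} [Group G] [Fintype G] {A : Type} [AddCommGroup A] [Module ℂ A] [FiniteDimensional ℂ A]
    (ρ : Representation ℂ G A) (a : A) :
    a ∈ Submodule.span ℂ {s : A | ∃ (S : Type) (_ : AddCommGroup S) (_ : Module ℂ S)
      (_ : FiniteDimensional ℂ S) (σ : Representation ℂ G S) (f : S →ₗ[ℂ] A),
      CategoryTheory.Simple (FDRep.of σ) ∧ (∀ g, f ∘ₗ σ g = ρ g ∘ₗ f) ∧ ∃ t, f t = s} := by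
  classical
  have hn : NeZero (Nat.card G : ℂ) := ⟨by exact_mod_cast Nat.card_pos.ne'⟩
  have hss : IsSemisimpleModule (MonoidAlgebra ℂ G) ρ.asModule := by
    rw [← Representation.isSemisimpleRepresentation_iff_isSemisimpleModule_asModule]
    infer_instance
  have htop := IsSemisimpleModule.sSup_simples_eq_top (MonoidAlgebra ℂ G) ρ.asModule
  have ha : (ρ.asModuleEquiv.symm a) ∈ sSup {m : Submodule (MonoidAlgebra ℂ G) ρ.asModule |
      IsSimpleModule (MonoidAlgebra ℂ G) m} := by
    rw [htop]; exact Submodule.mem_top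
  rw [sSup_eq_iSup'] at ha
  have key : ∀ x : ρ.asModule, x ∈ (⨆ m : {m : Submodule (MonoidAlgebra ℂ G) ρ.asModule |
      IsSimpleModule (MonoidAlgebra ℂ G) m}, (m : Submodule (MonoidAlgebra ℂ G) ρ.asModule)) →
      ρ.asModuleEquiv x ∈ Submodule.span ℂ {s : A | ∃ (S : Type) (_ : AddCommGroup S) (_ : Module ℂ S)
      (_ : FiniteDimensional ℂ S) (σ : Representation ℂ G S) (f : S →ₗ[ℂ] A),
      CategoryTheory.Simple (FDRep.of σ) ∧ (∀ g, f ∘ₗ σ g = ρ g ∘ₗ f) ∧ ∃ t, f t = s} := by
    intro x hx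
    refine Submodule.iSup_induction _ (motive := fun x => ρ.asModuleEquiv x ∈ Submodule.span ℂ {s : A | ∃ (S : Type) (_ : AddCommGroup S) (_ : Module ℂ S)
      (_ : FiniteDimensional ℂ S) (σ : Representation ℂ G S) (f : S →ₗ[ℂ] A),
      CategoryTheory.Simple (FDRep.of σ) ∧ (∀ g, f ∘ₗ σ g = ρ g ∘ₗ f) ∧ ∃ t, f t = s}) hx ?_ ?_ ?_
    · rintro ⟨m, hm⟩ y hy
      apply Submodule.subset_span
      have hm' : IsSimpleModule (MonoidAlgebra ℂ G) m := hm
      have hat : IsAtom m := isSimpleModule_iff_isAtom.1 hm'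
      let σ : Subrepresentation ρ := Subrepresentation.ofSubmodule' m
      have hσ : IsAtom σ := by
        have := (OrderIso.isAtom_iff
          (Subrepresentation.subrepresentationSubmoduleOrderIso (ρ := ρ)) σ)
        exact this.1 hat
      have hirr := A4_irr ρ σ hσ
      refine ⟨σ.toSubmodule, inferInstance, inferInstance, inferInstance, σ.toRepresentation,
        σ.toSubmodule.subtype, ?_, fun g => ?_, ⟨⟨ρ.asModuleEquiv y, hy⟩, rfl⟩⟩
      · rw [FDRep.simple_iff_char_is_norm_one]
        have : Invertible (Nat.card G : ℂ) := invertibleOfNonzero (NeZero.ne _)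
        have h1 := Representation.char_orthonormal σ.toRepresentation σ.toRepresentation
        rw [if_pos ⟨Representation.Equiv.refl _⟩] at h1
        have h2 : (Nat.card G : ℂ) ≠ 0 := NeZero.ne _
        rw [inv_mul_eq_one₀ h2] at h1
        exact h1.symm
      · ext v; rfl
    · simp
    · intro x y hx hy
      rw [map_add]
      exact Submodule.add_mem _ hx hy
  exact key _ ha

end Pool.Agent.Helper453.SR.NA4
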