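import Pool.Agent.Helper453.SR.Defs
import Pool.Agent.Helper453.SR.A3
import Pool.Agent.Helper453.SR.A4

set_option autoImplicit false
open CategoryTheory MonoidalCategory

namespace Pool.Agent.Helper453.SR.NA5

open Pool.Agent.Helper453.SR Pool.Agent.Helper453.SR.NA3 Pool.Agent.Helper453.SR.NA4













theorem A5 {G : Type} [Group G] [Fintype G] (hreal : ∀ g : G, IsConj g g⁻¹)
    (hmf : ∀ U V W : FDRep ℂ G, CategoryTheory.Simple U → CategoryTheory.Simple V →
        CategoryTheory.Simple W → Module.finrank ℂ (U ⟶ V ⊗ W) ≤ 1) : PairInv G := by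
  classical
  intro x y
  let R : Representation ℂ G (G →₀ ℂ) :=
    { toFun := fun g => Finsupp.lmapDomain ℂ ℂ (fun h => g * h)
      map_one' := by
        apply Finsupp.lhom_ext
        intro a b
        simp
      map_mul' := by
        intro g h
        apply Finsupp.lhom_ext
        intro a b
        simp [mul_assoc] }
  have key : ∀ s t : G →₀ ℂ,
      (∑ g : G, TensorProduct.map (R (g * x * g⁻¹)) (R (g * y * g⁻¹))) (s ⊗ₜ[ℂ] t) =
      (∑ g : G, TensorProduct.map (R (g * x⁻¹ * g⁻¹)) (R (g * y⁻¹ * g⁻¹))) (s ⊗ₜ[ℂ] t) := by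
    intro s
    induction A4 R s using Submodule.span_induction with
    | mem s hs =>
      obtain ⟨S, i1, i2, i3, σ, f, hσ, hf, s', rfl⟩ := hs
      intro t
      induction A4 R t using Submodule.span_induction with
      | mem t ht =>
        obtain ⟨S', j1, j2, j3, τ, f', hτ, hf', t', rfl⟩ := ht
        have h3 := congrArg (fun L => (TensorProduct.map f f') (L (s' ⊗ₜ[ℂ] t')))
          (A3 hreal hmf σ τ hσ hτ x y)
        have e1 : ∀ g, R g (f s') = f (σ g s') := fun g => by
          have := congrArg (fun L => L s') (hf g)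
          simpa using this.symm
        have e2 : ∀ g, R g (f' t') = f' (τ g t') := fun g => by
          have := congrArg (fun L => L t') (hf' g)
          simpa using this.symm
        simp only [LinearMap.sum_apply, map_sum, TensorProduct.map_tmul] at h3 ⊢
        simp only [e1, e2]
        exact h3
      | zero => simp
      | add a b _ _ ha hb =>
        rw [TensorProduct.tmul_add, map_add, map_add, ha, hb]
      | smul c a _ ha =>
        rw [TensorProduct.tmul_smul, map_smul, map_smul, ha]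
    | zero => intro t; simp
    | add a b _ _ ha hb =>
      intro t
      rw [TensorProduct.add_tmul, map_add, map_add, ha, hb]
    | smul c a _ ha =>
      intro t
      rw [← TensorProduct.smul_tmul', map_smul, map_smul, ha]
  have h1 := congrArg (fun z => (LinearMap.mul' ℂ ℂ)
    ((TensorProduct.map (Finsupp.lapply x⁻¹ : (G →₀ ℂ) →ₗ[ℂ] ℂ)
      (Finsupp.lapply y⁻¹ : (G →₀ ℂ) →ₗ[ℂ] ℂ)) z))
    (key (Finsupp.single 1 (1 : ℂ)) (Finsupp.single 1 (1 : ℂ)))
  have hR : ∀ h : G, R h (Finsupp.single 1 (1 : ℂ)) = Finsupp.single h (1 : ℂ) := by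
    intro h
    show (Finsupp.lmapDomain ℂ ℂ (fun k => h * k)) (Finsupp.single 1 (1 : ℂ)) = _
    simp
  simp only [LinearMap.sum_apply, map_sum, TensorProduct.map_tmul, hR, LinearMap.mul'_apply,
    Finsupp.lapply_apply, Finsupp.single_apply] at h1
  by_contra hcon
  push Not at hcon
  have hL : ∑ g : G, ((if g * x * g⁻¹ = x⁻¹ then (1 : ℂ) else 0) *
      (if g * y * g⁻¹ = y⁻¹ then (1 : ℂ) else 0)) = 0 := by
    apply Finset.sum_eq_zero
    intro g _
    by_cases hg : g * x * g⁻¹ = x⁻¹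
    · rw [if_neg (hcon g hg), mul_zero]
    · rw [if_neg hg, zero_mul]
  rw [hL] at h1
  have hRR : ∑ g : G, ((if g * x⁻¹ * g⁻¹ = x⁻¹ then (1 : ℂ) else 0) *
      (if g * y⁻¹ * g⁻¹ = y⁻¹ then (1 : ℂ) else 0)) =
      ((Finset.univ.filter (fun g : G => g * x⁻¹ * g⁻¹ = x⁻¹ ∧ g * y⁻¹ * g⁻¹ = y⁻¹)).card : ℂ) := by
    rw [← Finset.sum_boole]
    refine Finset.sum_congr rfl fun g _ => ?_
    by_cases ha : g * x⁻¹ * g⁻¹ = x⁻¹ <;> by_cases hb : g * y⁻¹ * g⁻¹ = y⁻¹ <;> simp [ha, hb]
  rw [hRR] at h1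
  have hpos : 0 < (Finset.univ.filter
      (fun g : G => g * x⁻¹ * g⁻¹ = x⁻¹ ∧ g * y⁻¹ * g⁻¹ = y⁻¹)).card := by
    apply Finset.card_pos.2
    exact ⟨1, by simp⟩
  have h2 : ((Finset.univ.filter
      (fun g : G => g * x⁻¹ * g⁻¹ = x⁻¹ ∧ g * y⁻¹ * g⁻¹ = y⁻¹)).card : ℂ) = 0 := h1.symm
  rw [Nat.cast_eq_zero] at h2
  omega

end Pool.Agent.Helper453.SR.NA5
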