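import Pool.Agent.Helper453.SR.Defs

set_option autoImplicit false
open CategoryTheory MonoidalCategory

namespace Pool.Agent.Helper453.SR.NB1

open Pool.Agent.Helper453.SR 






theorem B1 {p : ℕ} [Fact p.Prime] (hp2 : p ≠ 2) {K V : Type} [Group K] [AddCommGroup V] [Module (ZMod p) V]
    (ρ : Representation (ZMod p) K V) (hI : PairInvLin ρ) (t : K) (n : ℕ) (ht : t ^ (p ^ n) = 1) : ρ t = 1 := by
  classical
  by_contra hne
  haveI hV : Nontrivial V := by
    by_contra hV
    rw [not_nontrivial_iff_subsingleton] at hV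
    exact hne (LinearMap.ext fun v => Subsingleton.elim _ _)
  obtain ⟨T, hT⟩ : ∃ T, T = ρ t := ⟨_, rfl⟩
  obtain ⟨S, hS⟩ : ∃ S, S = ρ t⁻¹ := ⟨_, rfl⟩
  have hTS : T * S = 1 := by rw [hT, hS, ← map_mul, mul_inv_cancel, map_one]
  have hST : S * T = 1 := by rw [hT, hS, ← map_mul, inv_mul_cancel, map_one]
  obtain ⟨N, hN⟩ : ∃ N, N = T - 1 := ⟨_, rfl⟩
  have hcomm : Commute S N := by
    have h1 : Commute S T := by show S * T = T * S; rw [hST, hTS]
    rw [hN]
    exact h1.sub_right (Commute.one_right S)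
  have hSN : S * N = 1 - S := by rw [hN, mul_sub, hST, mul_one]
  -- no two torsion
  have h2 : (2 : ZMod p) ≠ 0 := by
    have h := (ZMod.natCast_eq_zero_iff 2 p).not
    push_cast at h
    apply h.2
    intro hd
    exact hp2 ((Nat.prime_dvd_prime_iff_eq (Fact.out : p.Prime) Nat.prime_two).1 hd)
  have hno2 : ∀ w : V, w = -w → w = 0 := by
    intro w hw
    have h3 : (2 : ZMod p) • w = 0 := by
      rw [two_smul]; nth_rewrite 2 [hw]; exact add_neg_cancel w
    exact (smul_eq_zero.1 h3).resolve_left h2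
  -- nilpotency
  have hnil : N ^ (p ^ n) = 0 := by
    have : CharP (Module.End (ZMod p) V) p :=
      charP_of_injective_algebraMap (algebraMap (ZMod p) (Module.End (ZMod p) V)).injective p
    rw [hN, sub_pow_char_pow_of_commute (R := Module.End (ZMod p) V) (p := p) n (Commute.one_right T), one_pow,
      hT, ← map_pow, ht, map_one, sub_self]
  have hex : ∃ m, N ^ m = 0 := ⟨_, hnil⟩
  obtain ⟨m, hm, hmin⟩ : ∃ m, N ^ m = 0 ∧ ∀ k < m, N ^ k ≠ 0 :=
    ⟨Nat.find hex, Nat.find_spec hex, fun k hk => Nat.find_min hex hk⟩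
  have hm0 : m ≠ 0 := by
    rintro rfl
    rw [pow_zero] at hm
    exact one_ne_zero hm
  have hm1 : m ≠ 1 := by
    rintro rfl
    rw [pow_one, hN, sub_eq_zero] at hm
    exact hne (hT ▸ hm)
  obtain ⟨j, rfl⟩ : ∃ j, m = j + 2 := ⟨m - 2, by omega⟩
  -- `N ^ (j + 1) ≠ 0`, `N ^ (j + 2) = 0`
  have hj := hmin (j + 1) (by omega)
  obtain ⟨v, hv⟩ : ∃ v, (N ^ (j + 1)) v ≠ 0 := by
    by_contra hcon
    push Not at hcon
    exact hj (LinearMap.ext fun v => by rw [hcon v]; rfl)
  have hSNj : S * N ^ (j + 1) = N ^ (j + 1) := by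
    have h1 : S = 1 - S * N := by rw [hSN]; abel
    calc S * N ^ (j + 1) = (1 - S * N) * N ^ (j + 1) := by rw [← h1]
      _ = N ^ (j + 1) - S * (N * N ^ (j + 1)) := by rw [sub_mul, one_mul, mul_assoc]
      _ = N ^ (j + 1) := by rw [← pow_succ', hm, mul_zero, sub_zero]
  have hSiNj : ∀ i, S ^ i * N ^ (j + 1) = N ^ (j + 1) := by
    intro i
    induction i with
    | zero => rw [pow_zero, one_mul]
    | succ i ih => rw [pow_succ, mul_assoc, hSNj, ih]
  -- the main use of the hypothesis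
  have key : ∀ w : V, ∃ (κ : Module.End (ZMod p) V) (z : V), κ w = -w ∧
      (∀ i, κ * N ^ i = (-1) ^ i * (S ^ i * N ^ i) * κ) ∧ κ v = -v + N z := by
    intro w
    obtain ⟨k, u, h1, -, h3, h4⟩ := hI t 1 v w
    rw [inv_one, map_one] at h4
    refine ⟨ρ k, S (v - u), ?_, ?_, ?_⟩
    · have h5 : u + ρ k w - u = -w := h4
      rw [add_sub_cancel_left] at h5
      exact h5
    · have hk : ρ k * T = S * ρ k := by
        rw [hT, hS, ← map_mul, ← map_mul]
        congr 1
        rw [← h1]; group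
      have hkN : SemiconjBy (ρ k) N (-(S * N)) := by
        show ρ k * N = -(S * N) * ρ k
        rw [hSN, hN, mul_sub, mul_one, hk, neg_sub, sub_mul, one_mul]
      intro i
      have h6 : ρ k * N ^ i = (-(S * N)) ^ i * ρ k := hkN.pow_right i
      rw [h6, neg_pow, hcomm.mul_pow]
    · rw [← hS] at h3
      have h7 : N (S (v - u)) = (v - u) - S (v - u) := by
        have h8 : (N * S) (v - u) = (1 - S) (v - u) := by rw [← hcomm.eq, hSN]
        exact h8
      have h9 : u + ρ k v - S u = -(S v) := by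
        rw [h3]
      rw [h7, map_sub]
      have h10 : ρ k v = -(S v) + S u - u := by
        rw [← h9]; abel
      rw [h10]; abel
  rcases Nat.even_or_odd (j + 1) with he | ho
  · -- even exponent
    obtain ⟨κ, z, hκ1, hκ2, hκ3⟩ := key ((N ^ j) v)
    have h1 := congrArg (fun f : Module.End (ZMod p) V => f v) (hκ2 j)
    have h2' : κ ((N ^ j) v) = (-1 : Module.End (ZMod p) V) ^ j • ((S ^ j) ((N ^ j) (κ v))) := h1
    have hjodd : Odd j := by
      rcases Nat.even_or_odd j with h | h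
      · exact absurd he (by rw [Nat.even_add_one]; exact not_not.2 h)
      · exact h
    rw [hjodd.neg_one_pow, hκ3, map_add, map_neg] at h2'
    have h3 : (N ^ j) (N z) = (N ^ (j + 1)) z := by rw [pow_succ]; rfl
    rw [h3] at h2'
    have h4 : κ ((N ^ j) v) = (S ^ j) ((N ^ j) v) - (S ^ j) ((N ^ (j + 1)) z) := by
      rw [h2', map_add, map_neg]
      show -(-(S ^ j) ((N ^ j) v) + (S ^ j) ((N ^ (j + 1)) z)) = _
      abel
    have h5 : (S ^ j) ((N ^ (j + 1)) z) = (N ^ (j + 1)) z := by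
      have := congrArg (fun f : Module.End (ZMod p) V => f z) (hSiNj j)
      exact this
    rw [hκ1, h5] at h4
    have h6 := congrArg N h4
    rw [map_neg, map_sub] at h6
    have h7 : N ((N ^ j) v) = (N ^ (j + 1)) v := by rw [pow_succ']; rfl
    have h8 : N ((N ^ (j + 1)) z) = 0 := by
      have : (N ^ (j + 2)) z = 0 := by rw [hm]; rfl
      rw [← this, pow_succ' N (j + 1)]; rfl
    have h9 : N ((S ^ j) ((N ^ j) v)) = (N ^ (j + 1)) v := by
      have h10 : N * (S ^ j * N ^ j) = N ^ (j + 1) := by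
        rw [← mul_assoc, ← (hcomm.pow_left j).eq, mul_assoc, ← pow_succ', hSiNj j]
      rw [← h10]; rfl
    rw [h7, h8, h9, sub_zero] at h6
    exact hv (hno2 _ h6.symm)
  · -- odd exponent
    obtain ⟨κ, z, hκ1, hκ2, hκ3⟩ := key ((N ^ (j + 1)) v)
    have h1 := congrArg (fun f : Module.End (ZMod p) V => f v) (hκ2 (j + 1))
    rw [hSiNj (j + 1), ho.neg_one_pow] at h1
    have h2' : κ ((N ^ (j + 1)) v) = -((N ^ (j + 1)) (κ v)) := by
      have h3 : (κ * N ^ (j + 1)) v = (-1 * N ^ (j + 1) * κ) v := h1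
      rw [neg_one_mul, neg_mul] at h3
      exact h3
    rw [hκ3, map_add, map_neg] at h2'
    have h3 : (N ^ (j + 1)) (N z) = 0 := by
      have : (N ^ (j + 2)) z = 0 := by rw [hm]; rfl
      rw [← this, pow_succ N (j + 1)]; rfl
    rw [h3, add_zero, neg_neg, hκ1] at h2'
    exact hv (hno2 _ h2'.symm)

end Pool.Agent.Helper453.SR.NB1
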