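import Pool.Agent.Helper453.SR.Defs

set_option autoImplicit false
open CategoryTheory MonoidalCategory

namespace Pool.Agent.Helper453.SR.ND1

open Pool.Agent.Helper453.SR 






theorem D1 {A : Type} [AddCommGroup A] [Finite A] {ι : Type} [Finite ι] (F : ι → AddSubgroup A)
    (hdis : ∀ i j, i ≠ j → F i ⊓ F j = ⊥) (hcov : ∀ a : A, a ≠ 0 → ∃ i, a ∈ F i)
    (q : ℕ) (hι : Nat.card ι + 1 ≤ q) (hA : q ^ 2 ≤ Nat.card A) (hnt : 1 < Nat.card A) :
    ∃ i, F i = ⊤ := by
  classical
  by_contra hcon
  push Not at hcon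
  haveI := Fintype.ofFinite A
  haveI := Fintype.ofFinite ι
  have hF : ∀ i, Nat.card (F i) ≤ Nat.card ι - 1 := by
    intro i
    obtain ⟨a, ha⟩ : ∃ a, a ∉ F i := by
      by_contra h
      push Not at h
      exact hcon i (eq_top_iff.2 fun x _ => h x)
    have h1 : ∀ f : F i, ∃ j, j ≠ i ∧ a + (f : A) ∈ F j := by
      intro f
      have hne : a + (f : A) ≠ 0 := by
        intro h0
        apply ha
        have h2 : a = -(f : A) := eq_neg_of_add_eq_zero_left h0
        rw [h2]
        exact (F i).neg_mem f.2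
      obtain ⟨j, hj⟩ := hcov _ hne
      refine ⟨j, ?_, hj⟩
      rintro rfl
      apply ha
      have h3 := (F j).sub_mem hj f.2
      rwa [add_sub_cancel_right] at h3
    choose φ hφ1 hφ2 using h1
    have hinj : Function.Injective (fun f : F i => (⟨φ f, hφ1 f⟩ : {j // j ≠ i})) := by
      intro f f' hff
      have h2 : φ f = φ f' := congrArg Subtype.val hff
      have h3 := hφ2 f
      have h4 := hφ2 f'
      rw [← h2] at h4
      have h5 : (f : A) - (f' : A) ∈ F (φ f) ⊓ F i := by
        refine ⟨?_, (F i).sub_mem f.2 f'.2⟩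
        have h6 := (F (φ f)).sub_mem h3 h4
        rwa [add_sub_add_left_eq_sub] at h6
      rw [hdis _ _ (hφ1 f)] at h5
      have h7 : (f : A) - (f' : A) = 0 := h5
      exact Subtype.ext (sub_eq_zero.1 h7)
    have h2 := Nat.card_le_card_of_injective _ hinj
    have h3 : Nat.card {j // j ≠ i} = Nat.card ι - 1 := by
      rw [Nat.card_eq_fintype_card, Nat.card_eq_fintype_card]
      simp [Fintype.card_subtype_compl]
    rwa [h3] at h2
  have hne : ∃ a : A, a ≠ 0 := by
    rw [Nat.card_eq_fintype_card] at hnt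
    exact @exists_ne A (Fintype.one_lt_card_iff_nontrivial.1 hnt) 0
  obtain ⟨a0, ha0⟩ := hne
  obtain ⟨i0, _⟩ := hcov a0 ha0
  have hn : 1 ≤ Nat.card ι := by
    haveI : Nonempty ι := ⟨i0⟩
    exact Nat.card_pos
  choose ψ hψ using hcov
  have hA2 : Nat.card A ≤ 1 + Nat.card ι * (Nat.card ι - 1) := by
    let g : A → Option (Σ i, F i) := fun a =>
      if h : a ≠ 0 then some ⟨ψ a h, ⟨a, hψ a h⟩⟩ else none
    have hg : Function.Injective g := by
      intro a b hab
      by_cases ha : a ≠ 0
      · by_cases hb : b ≠ 0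
        · simp only [g, dif_pos ha, dif_pos hb, Option.some.injEq] at hab
          have h1 := congrArg (fun z : Σ i, F i => (z.2 : A)) hab
          exact h1
        · simp only [g, dif_pos ha, dif_neg hb] at hab
          exact absurd hab (by simp)
      · by_cases hb : b ≠ 0
        · simp only [g, dif_neg ha, dif_pos hb] at hab
          exact absurd hab (by simp)
        · push Not at ha hb
          rw [ha, hb]
    have h1 := Nat.card_le_card_of_injective g hg
    have h2 : Nat.card (Option (Σ i, F i)) = Nat.card (Σ i, F i) + 1 := Finite.card_option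
    have h3 : Nat.card (Σ i, F i) = ∑ i, Nat.card (F i) := Nat.card_sigma
    have h4 : ∑ i, Nat.card (F i) ≤ ∑ _i : ι, (Nat.card ι - 1) := Finset.sum_le_sum (fun i _ => hF i)
    rw [Finset.sum_const, Finset.card_univ, smul_eq_mul, ← Nat.card_eq_fintype_card] at h4
    omega
  obtain ⟨n, hn'⟩ : ∃ n, Nat.card ι = n + 1 := ⟨Nat.card ι - 1, by omega⟩
  rw [hn'] at hA2 hι
  have h5 : (n + 1 + 1) ^ 2 ≤ q ^ 2 := Nat.pow_le_pow_left hι 2
  have h6 : (n + 1) * (n + 1 - 1) = (n + 1) * n := by simp
  rw [h6] at hA2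
  nlinarith

end Pool.Agent.Helper453.SR.ND1
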