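import Pool.Agent.Helper453.SR.Defs

set_option autoImplicit false
open CategoryTheory MonoidalCategory

namespace Pool.Agent.Helper453.SR.ND2

open Pool.Agent.Helper453.SR 






theorem D2_a {p : ℕ} [Fact p.Prime] {M : Type} [AddCommGroup M] [Module (ZMod p) M] [Finite M]
    (x y : Module.End (ZMod p) M)
    (hirr : ∀ W : Submodule (ZMod p) M, (∀ m ∈ W, x m ∈ W) → (∀ m ∈ W, y m ∈ W) → W = ⊥ ∨ W = ⊤)
    (c : Module.End (ZMod p) M) (h1 : c * x = x * c) (h2 : c * y = y * c) : c = 0 ∨ IsUnit c := by
  rcases hirr (LinearMap.ker c) (by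
    intro m hm
    rw [LinearMap.mem_ker] at hm ⊢
    have := LinearMap.congr_fun h1 m
    rw [Module.End.mul_apply, Module.End.mul_apply, hm, map_zero] at this
    exact this) (by
    intro m hm
    rw [LinearMap.mem_ker] at hm ⊢
    have := LinearMap.congr_fun h2 m
    rw [Module.End.mul_apply, Module.End.mul_apply, hm, map_zero] at this
    exact this) with h | h
  · right
    rw [Module.End.isUnit_iff]
    exact Finite.injective_iff_bijective.1 (LinearMap.ker_eq_bot.1 h)
  · left
    exact LinearMap.ker_eq_top.1 h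

theorem D2 {p : ℕ} [Fact p.Prime] {M : Type} [AddCommGroup M] [Module (ZMod p) M] [Finite M]
    (x y : Module.End (ZMod p) M)
    (hirr : ∀ W : Submodule (ZMod p) M, (∀ m ∈ W, x m ∈ W) → (∀ m ∈ W, y m ∈ W) → W = ⊥ ∨ W = ⊤)
    (hna : x * y ≠ y * x) :
    (∀ c : Module.End (ZMod p) M, c * x = x * c → c * y = y * c → c = 0 ∨ IsUnit c) ∧
    (Nat.card {c : Module.End (ZMod p) M // c * x = x * c ∧ c * y = y * c}) ^ 2 ≤ Nat.card M := by
  have hA := D2_a x y hirr
  refine ⟨hA, ?_⟩
  set E : Subring (Module.End (ZMod p) M) := Subring.centralizer {x, y} with hE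
  have hmem : ∀ c, c ∈ E ↔ c * x = x * c ∧ c * y = y * c := by
    intro c
    rw [hE, Subring.mem_centralizer_iff]
    constructor
    · intro h
      exact ⟨(h x (by simp)).symm, (h y (by simp)).symm⟩
    · rintro ⟨h1, h2⟩ g hg
      rcases hg with rfl | hg
      · exact h1.symm
      · rw [Set.mem_singleton_iff] at hg
        subst hg
        exact h2.symm
  have hcard : Nat.card {c : Module.End (ZMod p) M // c * x = x * c ∧ c * y = y * c} = Nat.card E :=
    Nat.card_congr (Equiv.subtypeEquivRight (fun c => (hmem c).symm))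
  rw [hcard]
  have hfinEnd : Finite (Module.End (ZMod p) M) :=
    Finite.of_injective (fun f : Module.End (ZMod p) M => (f : M → M)) DFunLike.coe_injective
  have hfinE : Finite E := inferInstance
  obtain ⟨m, hm⟩ : ∃ m : M, m ≠ 0 := by
    by_contra hcon
    push Not at hcon
    apply hna
    ext m
    rw [hcon m, map_zero, map_zero]
  have hunit : ∀ c : E, c ≠ 0 → IsUnit (c : Module.End (ZMod p) M) := by
    intro c hc
    rcases hA c ((hmem c).1 c.2).1 ((hmem c).1 c.2).2 with h | h
    · exact absurd (Subtype.ext h) hc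
    · exact h
  have hinj : ∀ c : E, ∀ m : M, (c : Module.End (ZMod p) M) m = 0 → m ≠ 0 → c = 0 := by
    intro c m hcm hm0
    by_contra hc
    have := (Module.End.isUnit_iff _).1 (hunit c hc)
    exact hm0 (this.1 (by rw [hcm, map_zero]))
  have hnt : Nontrivial E := by
    refine ⟨0, 1, ?_⟩
    intro h
    apply hm
    have h2 := congrArg (fun c : E => (c : Module.End (ZMod p) M) m) h
    exact h2.symm
  have hnzd : NoZeroDivisors E := by
    refine ⟨fun {a b} hab => ?_⟩
    by_contra hcon
    push Not at hcon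
    obtain ⟨ha, hb⟩ := hcon
    have hu := hunit a ha
    apply hb
    apply Subtype.ext
    have h2 : (a : Module.End (ZMod p) M) * b = 0 := congrArg Subtype.val hab
    exact (hu.mul_right_eq_zero).1 h2
  have hdom : IsDomain E := NoZeroDivisors.to_isDomain E
  have hfield : IsField E := Finite.isDomain_to_isField E
  have hcomm : ∀ a b : E, a * b = b * a := hfield.mul_comm
  have hcommx : ∀ (c : E) (v : M), (c : Module.End (ZMod p) M) (x v) = x ((c : Module.End (ZMod p) M) v) :=
    fun c v => LinearMap.congr_fun ((hmem c).1 c.2).1 v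
  have hcommy : ∀ (c : E) (v : M), (c : Module.End (ZMod p) M) (y v) = y ((c : Module.End (ZMod p) M) v) :=
    fun c v => LinearMap.congr_fun ((hmem c).1 c.2).2 v
  have hcE : ∀ (a b : E) (v : M), (a : Module.End (ZMod p) M) ((b : Module.End (ZMod p) M) v) =
      (b : Module.End (ZMod p) M) ((a : Module.End (ZMod p) M) v) := by
    intro a b v
    have h1 := congrArg (fun c : E => (c : Module.End (ZMod p) M) v) (hcomm a b)
    exact h1
  obtain ⟨m', hm'⟩ : ∃ m' : M, ∀ ℓ : E, (ℓ : Module.End (ZMod p) M) m ≠ m' := by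
    by_contra hcon
    push Not at hcon
    apply hna
    obtain ⟨lx, hlx⟩ := hcon (x m)
    obtain ⟨ly, hly⟩ := hcon (y m)
    ext v
    obtain ⟨l, rfl⟩ := hcon v
    rw [Module.End.mul_apply, Module.End.mul_apply]
    rw [← hcommy, ← hcommx, ← hly, ← hcommx, ← hcommx, ← hlx]
    rw [← hcommy, ← hcommy, ← hly]
    rw [hcE ly lx m]
  have hmap : Function.Injective (fun q : E × E =>
      (q.1 : Module.End (ZMod p) M) m + (q.2 : Module.End (ZMod p) M) m') := by
    rintro ⟨a, b⟩ ⟨a', b'⟩ h
    have h : (a : Module.End (ZMod p) M) m + (b : Module.End (ZMod p) M) m' =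
      (a' : Module.End (ZMod p) M) m + (b' : Module.End (ZMod p) M) m' := h
    have h1 : ((a - a' : E) : Module.End (ZMod p) M) m + ((b - b' : E) : Module.End (ZMod p) M) m' = 0 := by
      show ((a : Module.End (ZMod p) M) - a') m + ((b : Module.End (ZMod p) M) - b') m' = 0
      rw [LinearMap.sub_apply, LinearMap.sub_apply]
      rw [← sub_eq_zero] at h
      rw [← h]
      abel
    have hb : b - b' = 0 := by
      by_contra hb
      obtain ⟨t, ht⟩ := hfield.mul_inv_cancel hb
      apply hm' (-(t * (a - a')))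
      have h2 : ((b - b' : E) : Module.End (ZMod p) M) m' = -(((a - a' : E) : Module.End (ZMod p) M) m) :=
        eq_neg_of_add_eq_zero_right h1
      have h3 : ((t : E) : Module.End (ZMod p) M) (((b - b' : E) : Module.End (ZMod p) M) m') = m' := by
        have h4 := congrArg (fun c : E => (c : Module.End (ZMod p) M) m') ((hcomm t (b - b')).trans ht)
        exact h4
      show -((t : Module.End (ZMod p) M) (((a - a' : E) : Module.End (ZMod p) M) m)) = m'
      rw [← h3, h2, map_neg]
    rw [hb] at h1
    have ha : a - a' = 0 := by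
      apply hinj _ m _ hm
      rw [← h1]
      show _ = _ + (0 : Module.End (ZMod p) M) m'
      rw [LinearMap.zero_apply, add_zero]
    rw [Prod.mk.injEq]
    exact ⟨sub_eq_zero.1 ha, sub_eq_zero.1 hb⟩
  calc (Nat.card E) ^ 2 = Nat.card (E × E) := by rw [Nat.card_prod, sq]
    _ ≤ Nat.card M := Nat.card_le_card_of_injective _ hmap

end Pool.Agent.Helper453.SR.ND2
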