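import Pool.Agent.Helper453.SR.Defs
import Pool.Agent.Helper453.SR.D1
import Pool.Agent.Helper453.SR.D2

set_option autoImplicit false
open CategoryTheory MonoidalCategory

namespace Pool.Agent.Helper453.SR.ND3

open Pool.Agent.Helper453.SR Pool.Agent.Helper453.SR.ND1 Pool.Agent.Helper453.SR.ND2













theorem D3 {p : ℕ} [Fact p.Prime] {M : Type} [AddCommGroup M] [Module (ZMod p) M] [Finite M]
    (x y x' y' : Module.End (ZMod p) M) (hx : x * x' = 1) (hx' : x' * x = 1) (hy : y * y' = 1) (hy' : y' * y = 1)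
    (hirr : ∀ W : Submodule (ZMod p) M, (∀ m ∈ W, x m ∈ W) → (∀ m ∈ W, y m ∈ W) → W = ⊥ ∨ W = ⊤)
    (hna : x * y ≠ y * x)
    (H : ∀ v w z : M, x v = v → y w = w → (v ≠ 0 ∨ w ≠ 0 ∨ z ∉ fix x ⊔ fix y) →
      ∃ g : Module.End (ZMod p) M, IsUnit g ∧ g * x = x' * g ∧ g * y = y' * g ∧ g v = -v ∧ g w = -w ∧
        g z - z ∈ fix x ⊔ fix y) :
    ∃ g : Module.End (ZMod p) M, IsUnit g ∧ g * x = x' * g ∧ g * y = y' * g ∧
      (∀ u ∈ fix x ⊔ fix y, g u = -u) ∧ (∀ z : M, g z - z ∈ fix x ⊔ fix y) := by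
  classical
  haveI hfinE : Finite (Module.End (ZMod p) M) :=
    Finite.of_injective (fun f => (f : M → M)) DFunLike.coe_injective
  obtain ⟨hD2a, hD2b⟩ := D2 x y hirr hna
  haveI hnt : Nontrivial M := by
    by_contra hn
    rw [not_nontrivial_iff_subsingleton] at hn
    exact hna (Subsingleton.elim _ _)
  have app : ∀ (f g : Module.End (ZMod p) M) (m : M), (f * g) m = f (g m) := fun _ _ _ => rfl
  -- intertwiners preserve the fixed spaces
  have hfix : ∀ (s s' g : Module.End (ZMod p) M), s * s' = 1 → g * s = s' * g →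
      ∀ v ∈ fix s, g v ∈ fix s := by
    intro s s' g hs hg v hv
    rw [mem_fix] at hv ⊢
    have h1 : g (s v) = s' (g v) := by rw [← app, hg, app]
    rw [hv] at h1
    have h2 : s (s' (g v)) = g v := by rw [← app, hs]; rfl
    rw [← h1] at h2
    exact h2
  have hfixc : ∀ (s c : Module.End (ZMod p) M), c * s = s * c → ∀ v ∈ fix s, c v ∈ fix s := by
    intro s c hc v hv
    rw [mem_fix] at hv ⊢
    rw [← app, ← hc, app, hv]
  have pres : ∀ g : Module.End (ZMod p) M, (∀ v ∈ fix x, g v ∈ fix x) → (∀ v ∈ fix y, g v ∈ fix y) →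
      ∀ u ∈ fix x ⊔ fix y, g u ∈ fix x ⊔ fix y := by
    intro g h1 h2 u hu
    obtain ⟨v, hv, w, hw, rfl⟩ := Submodule.mem_sup.1 hu
    rw [map_add]
    exact Submodule.add_mem_sup (h1 v hv) (h2 w hw)
  let ι : Type := {g : Module.End (ZMod p) M // IsUnit g ∧ g * x = x' * g ∧ g * y = y' * g}
  let A : Type := (fix x) × (fix y) × (M ⧸ (fix x ⊔ fix y))
  have hpg : ∀ g : ι, ∀ u ∈ fix x ⊔ fix y, g.1 u ∈ fix x ⊔ fix y := fun g =>
    pres g.1 (hfix x x' g.1 hx g.2.2.1) (hfix y y' g.1 hy g.2.2.2)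
  let F : ι → AddSubgroup A := fun g =>
    { carrier := {a | g.1 (a.1 : M) = -(a.1 : M) ∧ g.1 (a.2.1 : M) = -(a.2.1 : M) ∧
        ∃ z : M, Submodule.Quotient.mk z = a.2.2 ∧ g.1 z - z ∈ fix x ⊔ fix y}
      add_mem' := by
        rintro a b ⟨ha1, ha2, z1, hz1, hz1'⟩ ⟨hb1, hb2, z2, hz2, hz2'⟩
        refine ⟨?_, ?_, z1 + z2, ?_, ?_⟩
        · show g.1 ((a.1 : M) + (b.1 : M)) = -((a.1 : M) + (b.1 : M))
          rw [map_add, ha1, hb1]; abel
        · show g.1 ((a.2.1 : M) + (b.2.1 : M)) = -((a.2.1 : M) + (b.2.1 : M))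
          rw [map_add, ha2, hb2]; abel
        · rw [Submodule.Quotient.mk_add, hz1, hz2]; rfl
        · have := Submodule.add_mem _ hz1' hz2'
          rw [map_add]
          convert this using 1
          abel
      zero_mem' := by
        refine ⟨?_, ?_, 0, ?_, ?_⟩
        · show g.1 (0 : M) = -(0 : M)
          rw [map_zero, neg_zero]
        · show g.1 (0 : M) = -(0 : M)
          rw [map_zero, neg_zero]
        · rfl
        · rw [map_zero, sub_zero]; exact Submodule.zero_mem _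
      neg_mem' := by
        rintro a ⟨ha1, ha2, z1, hz1, hz1'⟩
        refine ⟨?_, ?_, -z1, ?_, ?_⟩
        · show g.1 (-(a.1 : M)) = -(-(a.1 : M))
          rw [map_neg, ha1]
        · show g.1 (-(a.2.1 : M)) = -(-(a.2.1 : M))
          rw [map_neg, ha2]
        · rw [Submodule.Quotient.mk_neg, hz1]; rfl
        · have := Submodule.neg_mem _ hz1'
          rw [map_neg]
          convert this using 1
          abel }
  have hFmem : ∀ (g : ι) (a : A), a ∈ F g ↔ g.1 (a.1 : M) = -(a.1 : M) ∧ g.1 (a.2.1 : M) = -(a.2.1 : M) ∧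
        ∃ z : M, Submodule.Quotient.mk z = a.2.2 ∧ g.1 z - z ∈ fix x ⊔ fix y := fun g a => Iff.rfl
  haveI : Finite (M ⧸ (fix x ⊔ fix y)) := Finite.of_surjective _ (Submodule.mkQ_surjective _)
  haveI : Finite A := inferInstanceAs (Finite ((fix x) × (fix y) × (M ⧸ (fix x ⊔ fix y))))
  haveI : Finite ι := inferInstanceAs
    (Finite {g : Module.End (ZMod p) M // IsUnit g ∧ g * x = x' * g ∧ g * y = y' * g})
  -- differences
  have hcomm : ∀ (s s' : Module.End (ZMod p) M), s * s' = 1 → s' * s = 1 →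
      ∀ (u : (Module.End (ZMod p) M)ˣ) (g' : Module.End (ZMod p) M),
      (u : Module.End (ZMod p) M) * s = s' * u → g' * s = s' * g' →
      (g' * ↑u⁻¹) * s = s * (g' * ↑u⁻¹) := by
    intro s s' hs hs' u g' hu hg'
    -- c s' = s' c
    have h1 : s * (↑u⁻¹ : Module.End (ZMod p) M) = ↑u⁻¹ * s' := by
      have : (↑u⁻¹ : Module.End (ZMod p) M) * (↑u * s) * ↑u⁻¹ = ↑u⁻¹ * (s' * ↑u) * ↑u⁻¹ := by rw [hu]
      rw [← mul_assoc, Units.inv_mul, one_mul] at this
      rw [this, mul_assoc, mul_assoc, Units.mul_inv, mul_one]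
    have h2 : (g' * ↑u⁻¹) * s' = s' * (g' * ↑u⁻¹) := by
      rw [mul_assoc, ← h1, ← mul_assoc, hg', mul_assoc]
    calc (g' * ↑u⁻¹) * s = (s * s') * ((g' * ↑u⁻¹) * s) := by rw [hs, one_mul]
      _ = s * (s' * (g' * ↑u⁻¹)) * s := by simp only [mul_assoc]
      _ = s * ((g' * ↑u⁻¹) * s') * s := by rw [h2]
      _ = s * (g' * ↑u⁻¹) * (s' * s) := by simp only [mul_assoc]
      _ = s * (g' * ↑u⁻¹) := by rw [hs', mul_one]
  have hdis : ∀ i j, i ≠ j → F i ⊓ F j = ⊥ := by
    intro g g' hne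
    obtain ⟨u, hu⟩ := g.2.1
    let c : Module.End (ZMod p) M := g'.1 * (↑u⁻¹ : Module.End (ZMod p) M)
    have hcdef : c = g'.1 * (↑u⁻¹ : Module.End (ZMod p) M) := rfl
    have hcg : c * g.1 = g'.1 := by
      rw [hcdef, ← hu, mul_assoc, Units.inv_mul, mul_one]
    have hcx : c * x = x * c := hcomm x x' hx hx' u g'.1 (by rw [hu]; exact g.2.2.1) g'.2.2.1
    have hcy : c * y = y * c := hcomm y y' hy hy' u g'.1 (by rw [hu]; exact g.2.2.2) g'.2.2.2
    have hcne : c - 1 ≠ 0 := by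
      intro h0
      rw [sub_eq_zero] at h0
      rw [h0, one_mul] at hcg
      exact hne (Subtype.ext hcg)
    have hcu : IsUnit (c - 1) := by
      rcases hD2a (c - 1) (by rw [sub_mul, mul_sub, hcx, one_mul, mul_one])
        (by rw [sub_mul, mul_sub, hcy, one_mul, mul_one]) with h | h
      · exact absurd h hcne
      · exact h
    have hinj : Function.Injective (c - 1 : Module.End (ZMod p) M) :=
      ((Module.End.isUnit_iff _).1 hcu).1
    have hcU : ∀ u ∈ fix x ⊔ fix y, c u ∈ fix x ⊔ fix y := pres c (hfixc x c hcx) (hfixc y c hcy)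
    have hv0 : ∀ v : M, g.1 v = -v → g'.1 v = -v → v = 0 := by
      intro v h1 h2
      apply hinj
      rw [map_zero]
      show c v - v = 0
      rw [← hcg, app, h1, map_neg, neg_inj] at h2
      rw [h2, sub_self]
    have hz0 : ∀ z : M, g.1 z - z ∈ fix x ⊔ fix y → g'.1 z - z ∈ fix x ⊔ fix y →
        z ∈ fix x ⊔ fix y := by
      intro z h1 h2
      have h3 := hcU _ h1
      rw [map_sub, ← app, hcg] at h3
      have h4 : (c - 1 : Module.End (ZMod p) M) z ∈ fix x ⊔ fix y := by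
        have h5 := Submodule.sub_mem _ h2 h3
        have h6 : g'.1 z - z - (g'.1 z - c z) = c z - z := by abel
        rw [h6] at h5
        exact h5
      have hmap : ∀ u ∈ fix x ⊔ fix y, (c - 1 : Module.End (ZMod p) M) u ∈ fix x ⊔ fix y := by
        intro u hu
        exact Submodule.sub_mem _ (hcU u hu) hu
      let r : (fix x ⊔ fix y : Submodule (ZMod p) M) → (fix x ⊔ fix y : Submodule (ZMod p) M) :=
        fun u => ⟨(c - 1 : Module.End (ZMod p) M) u.1, hmap u.1 u.2⟩
      have hr : Function.Injective r := by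
        intro a b hab
        exact Subtype.ext (hinj (congrArg Subtype.val hab))
      obtain ⟨u, hu⟩ := Finite.surjective_of_injective hr ⟨_, h4⟩
      have h7 : (u : M) = z := hinj (congrArg Subtype.val hu)
      rw [← h7]
      exact u.2
    rw [eq_bot_iff]
    intro a ha
    rw [AddSubgroup.mem_inf, hFmem, hFmem] at ha
    obtain ⟨⟨h1, h2, z1, hz1, hz1'⟩, h1', h2', z2, hz2, hz2'⟩ := ha
    rw [AddSubgroup.mem_bot]
    have e1 : (a.1 : M) = 0 := hv0 _ h1 h1'
    have e2 : (a.2.1 : M) = 0 := hv0 _ h2 h2'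
    have e3 : a.2.2 = 0 := by
      rw [← hz1]
      rw [Submodule.Quotient.mk_eq_zero]
      apply hz0 z1 hz1'
      have h3 : z1 - z2 ∈ fix x ⊔ fix y := by
        rw [← Submodule.Quotient.eq, hz1, hz2]
      have h4 := hpg g' _ h3
      have h5 := Submodule.add_mem _ hz2' (Submodule.sub_mem _ h4 h3)
      have h6 : g'.1 z2 - z2 + (g'.1 (z1 - z2) - (z1 - z2)) = g'.1 z1 - z1 := by
        rw [map_sub]; abel
      rw [h6] at h5
      exact h5
    exact Prod.ext (Subtype.ext e1) (Prod.ext (Subtype.ext e2) e3)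
  have hcov : ∀ a : A, a ≠ 0 → ∃ i, a ∈ F i := by
    intro a ha
    obtain ⟨z, hz⟩ := Submodule.Quotient.mk_surjective _ a.2.2
    have h1 : (a.1 : M) ≠ 0 ∨ (a.2.1 : M) ≠ 0 ∨ z ∉ fix x ⊔ fix y := by
      by_contra hcon
      push Not at hcon
      obtain ⟨e1, e2, e3⟩ := hcon
      apply ha
      have e4 : a.2.2 = 0 := by rw [← hz, Submodule.Quotient.mk_eq_zero]; exact e3
      exact Prod.ext (Subtype.ext e1) (Prod.ext (Subtype.ext e2) e4)
    obtain ⟨g, hg1, hg2, hg3, hg4, hg5, hg6⟩ := H a.1 a.2.1 z ((mem_fix _ _).1 a.1.2)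
      ((mem_fix _ _).1 a.2.1.2) h1
    exact ⟨⟨g, hg1, hg2, hg3⟩, hg4, hg5, z, hz, hg6⟩
  have hι : Nat.card ι + 1 ≤ Nat.card {c : Module.End (ZMod p) M // c * x = x * c ∧ c * y = y * c} := by
    let E : Type := {c : Module.End (ZMod p) M // c * x = x * c ∧ c * y = y * c}
    haveI : Finite E := inferInstanceAs
      (Finite {c : Module.End (ZMod p) M // c * x = x * c ∧ c * y = y * c})
    have hopt : Nat.card ι + 1 = Nat.card (Option ι) := (Finite.card_option).symm
    show Nat.card ι + 1 ≤ Nat.card E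
    by_cases hne : Nonempty ι
    · obtain ⟨g0⟩ := hne
      obtain ⟨u, hu⟩ := g0.2.1
      rw [hopt]
      let φ : Option ι → E := fun o => match o with
        | none => ⟨0, by simp, by simp⟩
        | some g => ⟨g.1 * (↑u⁻¹ : Module.End (ZMod p) M),
            hcomm x x' hx hx' u g.1 (by rw [hu]; exact g0.2.2.1) g.2.2.1,
            hcomm y y' hy hy' u g.1 (by rw [hu]; exact g0.2.2.2) g.2.2.2⟩
      apply Nat.card_le_card_of_injective φ
      have hnz : ∀ g : ι, g.1 * (↑u⁻¹ : Module.End (ZMod p) M) ≠ 0 := by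
        intro g h0
        have h1 : IsUnit (g.1 * (↑u⁻¹ : Module.End (ZMod p) M)) := g.2.1.mul (u⁻¹).isUnit
        rw [h0] at h1
        exact not_isUnit_zero h1
      intro a b hab
      match a, b with
      | none, none => rfl
      | none, some g =>
        exact absurd (congrArg Subtype.val hab).symm (hnz g)
      | some g, none =>
        exact absurd (congrArg Subtype.val hab) (hnz g)
      | some g, some g' =>
        have h1 : g.1 * (↑u⁻¹ : Module.End (ZMod p) M) = g'.1 * ↑u⁻¹ := congrArg Subtype.val hab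
        have h2 : g.1 = g'.1 := (Units.mul_left_inj u⁻¹).1 h1
        rw [Subtype.ext h2]
    · have h0 : Nat.card ι = 0 := by
        rw [not_nonempty_iff] at hne
        exact Nat.card_of_isEmpty
      rw [h0, zero_add]
      haveI : Nonempty E := ⟨⟨0, by simp, by simp⟩⟩
      exact Nat.card_pos
  have hcardA : Nat.card M ≤ Nat.card A := by
    have h1 : Nat.card M = Nat.card (fix x ⊔ fix y : Submodule (ZMod p) M) *
        Nat.card (M ⧸ (fix x ⊔ fix y)) := Submodule.card_eq_card_quotient_mul_card _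
    have h2 : Nat.card (fix x ⊔ fix y : Submodule (ZMod p) M) ≤ Nat.card (fix x) * Nat.card (fix y) := by
      rw [← Nat.card_prod]
      let φ : (fix x) × (fix y) → (fix x ⊔ fix y : Submodule (ZMod p) M) :=
        fun a => ⟨(a.1 : M) + (a.2 : M), Submodule.add_mem_sup a.1.2 a.2.2⟩
      apply Nat.card_le_card_of_surjective φ
      rintro ⟨u, hu⟩
      obtain ⟨v, hv, w, hw, rfl⟩ := Submodule.mem_sup.1 hu
      exact ⟨(⟨v, hv⟩, ⟨w, hw⟩), rfl⟩
    have h3 : Nat.card A = Nat.card (fix x) * (Nat.card (fix y) * Nat.card (M ⧸ (fix x ⊔ fix y))) := by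
      show Nat.card ((fix x) × (fix y) × (M ⧸ (fix x ⊔ fix y))) = _
      rw [Nat.card_prod, Nat.card_prod]
    rw [h1, h3, ← mul_assoc]
    exact Nat.mul_le_mul_right _ h2
  have hM1 : 1 < Nat.card M := Finite.one_lt_card
  obtain ⟨g, hg⟩ := D1 F hdis hcov _ hι (hD2b.trans hcardA) (hM1.trans_le hcardA)
  have hall : ∀ a : A, a ∈ F g := fun a => by rw [hg]; exact AddSubgroup.mem_top a
  refine ⟨g.1, g.2.1, g.2.2.1, g.2.2.2, ?_, ?_⟩
  · intro u hu
    obtain ⟨v, hv, w, hw, rfl⟩ := Submodule.mem_sup.1 hu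
    have h1 := (hFmem g (⟨v, hv⟩, ⟨w, hw⟩, 0)).1 (hall _)
    rw [map_add, h1.1, h1.2.1]
    show -v + -w = -(v + w)
    abel
  · intro z
    obtain ⟨-, -, z', hz', hz''⟩ := (hFmem g (0, 0, Submodule.Quotient.mk z)).1 (hall _)
    have h3 : z - z' ∈ fix x ⊔ fix y := by
      rw [← Submodule.Quotient.eq]
      exact hz'.symm
    have h4 := hpg g _ h3
    have h5 := Submodule.add_mem _ hz'' (Submodule.sub_mem _ h4 h3)
    have h6 : g.1 z' - z' + (g.1 (z - z') - (z - z')) = g.1 z - z := by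
      rw [map_sub]; abel
    rw [h6] at h5
    exact h5

end Pool.Agent.Helper453.SR.ND3
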