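import Pool.Agent.Helper453.SR.Defs

set_option autoImplicit false
open CategoryTheory MonoidalCategory

namespace Pool.Agent.Helper453.SR.ND4

open Pool.Agent.Helper453.SR 






theorem D4 {p : ℕ} [Fact p.Prime] (hp2 : p ≠ 2) {M : Type} [AddCommGroup M] [Module (ZMod p) M] [Finite M]
    (x y x' g : Module.End (ZMod p) M) (hx : x * x' = 1) (hx' : x' * x = 1)
    (a : ℕ) (ha : Odd a) (hxa : x ^ a = 1) (hap : a.Coprime p)
    (hgx : g * x = x' * g) (hdis : fix x ⊓ fix y = ⊥)
    (hU : ∀ u ∈ fix x ⊔ fix y, g u = -u) (hq : ∀ z : M, g z - z ∈ fix x ⊔ fix y) :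
    Module.finrank (ZMod p) M = Module.finrank (ZMod p) (fix x) + 2 * Module.finrank (ZMod p) (fix y) := by
  have hfin : Module.Finite (ZMod p) M := Module.Finite.of_finite
  set U := fix x ⊔ fix y with hUdef
  have hp : p.Prime := Fact.out
  have h2 : (2 : ZMod p) ≠ 0 := by
    intro h
    have h3 : ((2 : ℕ) : ZMod p) = 0 := by exact_mod_cast h
    rw [ZMod.natCast_eq_zero_iff] at h3
    have := (Nat.prime_dvd_prime_iff_eq hp Nat.prime_two).1 h3
    exact hp2 this
  have ha0 : (a : ZMod p) ≠ 0 := by
    intro h
    rw [ZMod.natCast_eq_zero_iff] at h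
    have h3 : p ∣ Nat.gcd a p := Nat.dvd_gcd h dvd_rfl
    rw [hap] at h3
    exact hp.one_lt.ne' (Nat.dvd_one.1 h3)
  have half : ∀ (W : Submodule (ZMod p) M) (m : M), (2 : ZMod p) • m ∈ W → m ∈ W := by
    intro W m hm
    have h3 := W.smul_mem (2 : ZMod p)⁻¹ hm
    rwa [smul_smul, inv_mul_cancel₀ h2, one_smul] at h3
  have hxx' : ∀ m, x (x' m) = m := fun m => by
    rw [← Module.End.mul_apply, hx]; rfl
  have hx'x : ∀ m, x' (x m) = m := fun m => by
    rw [← Module.End.mul_apply, hx']; rfl
  have hgx1 : ∀ m, g (x m) = x' (g m) := fun m => by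
    rw [← Module.End.mul_apply, hgx]; rfl
  have hgx2 : ∀ m, g (x' m) = x (g m) := fun m => by
    have h3 := hgx1 (x' m)
    rw [hxx'] at h3
    rw [h3, hxx']
  have hgg : ∀ z, g (g z) = z := by
    intro z
    have h3 := hU _ (hq z)
    rw [map_sub] at h3
    have h4 : g (g z) - g z = z - g z := by rw [h3]; abel
    exact sub_left_injective h4
  -- the two eigenspaces
  set Km : Submodule (ZMod p) M := LinearMap.ker (g + 1) with hKm
  set Kp : Submodule (ZMod p) M := LinearMap.ker (g - 1) with hKp
  have memKm : ∀ m, m ∈ Km ↔ g m = -m := by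
    intro m
    rw [hKm, LinearMap.mem_ker, LinearMap.add_apply, Module.End.one_apply, add_eq_zero_iff_eq_neg]
  have memKp : ∀ m, m ∈ Kp ↔ g m = m := by
    intro m
    rw [hKp, LinearMap.mem_ker, LinearMap.sub_apply, Module.End.one_apply, sub_eq_zero]
  have hKU : Km = U := by
    apply le_antisymm
    · intro m hm
      rw [memKm] at hm
      apply half
      have h3 := hq m
      rw [hm] at h3
      have h4 := U.neg_mem h3
      have h5 : -(-m - m) = (2 : ZMod p) • m := by rw [two_smul]; abel
      rwa [h5] at h4
    · intro m hm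
      rw [memKm]
      exact hU m hm
  have hcompl : IsCompl Kp Km := by
    constructor
    · rw [disjoint_iff]
      rw [eq_bot_iff]
      rintro m ⟨h3, h4⟩
      have h3' := (memKp m).1 h3
      have h4' := (memKm m).1 h4
      rw [h3'] at h4'
      have h5 : (2 : ZMod p) • m = 0 := by
        rw [two_smul]
        nth_rewrite 1 [h4']
        exact neg_add_cancel m
      exact (smul_eq_zero.1 h5).resolve_left h2
    · rw [codisjoint_iff, eq_top_iff]
      intro m _
      apply half
      have h3 : (2 : ZMod p) • m = (m + g m) + (m - g m) := by rw [two_smul]; abel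
      rw [h3]
      apply Submodule.add_mem_sup
      · rw [memKp, map_add, hgg, add_comm]
      · rw [memKm, map_sub, hgg]; abel
  have hdim := Submodule.finrank_add_eq_of_isCompl hcompl
  have hdimU : Module.finrank (ZMod p) U =
      Module.finrank (ZMod p) (fix x) + Module.finrank (ZMod p) (fix y) := by
    have h3 := Submodule.finrank_sup_add_finrank_inf_eq (fix x) (fix y)
    rw [hdis, finrank_bot, add_zero] at h3
    exact h3
  -- the operator T
  set T : Module.End (ZMod p) M := x - x' with hT
  have hTa : ∀ m, T m = x m - x' m := fun m => rfl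
  have hkerT : LinearMap.ker T = fix x := by
    ext m
    rw [LinearMap.mem_ker, mem_fix, hTa, sub_eq_zero]
    constructor
    · intro h
      have h3 : x (x m) = m := by rw [h, hxx']
      obtain ⟨j, hj⟩ := ha
      have h4 : ∀ i : ℕ, (x ^ (2 * i)) m = m := by
        intro i
        induction i with
        | zero => simp
        | succ i ih =>
          rw [show 2 * (i + 1) = 2 * i + 1 + 1 by ring, pow_succ, pow_succ,
            Module.End.mul_apply, Module.End.mul_apply, h3, ih]
      have h5 : (x ^ a) m = m := by rw [hxa]; rfl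
      rw [hj, pow_succ', Module.End.mul_apply, h4] at h5
      exact h5
    · intro h
      have h3 := hx'x m
      rw [h] at h3
      rw [h, h3]
  have hinter : ∀ b, x (T b) = T b → T b = 0 := by
    intro b hb
    set c := T b with hc
    have h3 : x (x b) = b + c := by
      have h4 : x c = x (x b) - b := by
        rw [hc, hTa, map_sub, hxx']
      rw [hb] at h4
      rw [h4]; abel
    have h4 : ∀ i : ℕ, ((x * x) ^ i) b = b + (i : ZMod p) • c := by
      intro i
      induction i with
      | zero => simp
      | succ i ih =>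
        rw [pow_succ', Module.End.mul_apply, ih, Module.End.mul_apply, map_add, map_add, h3,
          map_smul, hb, map_smul, hb]
        push_cast
        rw [add_smul, one_smul]
        abel
    have h5 : (x * x) ^ a = 1 := by
      rw [← pow_two, ← pow_mul, mul_comm 2 a, pow_mul, hxa, one_pow]
    have h6 := h4 a
    rw [h5, Module.End.one_apply] at h6
    have h7 : (a : ZMod p) • c = 0 := by
      have h8 : b + 0 = b + (a : ZMod p) • c := by rw [add_zero]; exact h6
      exact (add_left_cancel h8).symm
    exact (smul_eq_zero.1 h7).resolve_left ha0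
  have hgT : ∀ m, g (T m) = -T (g m) := by
    intro m
    rw [hTa, hTa, map_sub, hgx1, hgx2]; abel
  -- first bound
  have hb1 : Module.finrank (ZMod p) (fix y) ≤ Module.finrank (ZMod p) Kp := by
    have h3 := LinearMap.finrank_range_add_finrank_ker (T.domRestrict U)
    have h4 : Module.finrank (ZMod p) (LinearMap.ker (T.domRestrict U)) =
        Module.finrank (ZMod p) (fix x) := by
      have h5 : LinearMap.ker (T.domRestrict U) = (fix x).comap U.subtype := by
        rw [← hkerT]
        rfl
      rw [h5]
      exact (Submodule.comapSubtypeEquivOfLe le_sup_left).finrank_eq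
    have h5 : LinearMap.range (T.domRestrict U) ≤ Kp := by
      rintro _ ⟨u, rfl⟩
      rw [memKp]
      show g (T u.1) = T u.1
      rw [hgT, hU u.1 u.2, map_neg, neg_neg]
    have h6 := Submodule.finrank_mono h5
    omega
  -- second bound
  have hb2 : Module.finrank (ZMod p) Kp ≤ Module.finrank (ZMod p) (fix y) := by
    have hinj : Function.Injective (T.domRestrict Kp) := by
      rw [← LinearMap.ker_eq_bot, eq_bot_iff]
      intro m hm
      have h3 : T m.1 = 0 := hm
      have h4 : m.1 ∈ fix x := by rw [← hkerT]; exact h3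
      have h5 : m.1 ∈ Km := by rw [hKU]; exact Submodule.mem_sup_left h4
      have h6 : m.1 ∈ Kp ⊓ Km := ⟨m.2, h5⟩
      rw [hcompl.inf_eq_bot] at h6
      exact Subtype.ext h6
    have h3 := LinearMap.finrank_range_of_inj hinj
    have h4 : LinearMap.range (T.domRestrict Kp) ≤ U := by
      rw [← hKU]
      rintro _ ⟨u, rfl⟩
      rw [memKm]
      show g (T u.1) = -T u.1
      rw [hgT, (memKp _).1 u.2]
    have h5 : LinearMap.range (T.domRestrict Kp) ⊓ fix x = ⊥ := by
      rw [eq_bot_iff]
      rintro m ⟨⟨u, rfl⟩, h6⟩
      have h7 : x (T u.1) = T u.1 := (mem_fix x _).1 h6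
      exact hinter u.1 h7
    have h6 := Submodule.finrank_sup_add_finrank_inf_eq (LinearMap.range (T.domRestrict Kp)) (fix x)
    rw [h5, finrank_bot, add_zero, h3] at h6
    have h7 : LinearMap.range (T.domRestrict Kp) ⊔ fix x ≤ U := sup_le h4 le_sup_left
    have h8 := Submodule.finrank_mono h7
    omega
  rw [hKU] at hdim
  omega

end Pool.Agent.Helper453.SR.ND4
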