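import Pool.Agent.Helper453.SR.Defs

set_option autoImplicit false
open CategoryTheory MonoidalCategory

namespace Pool.Agent.Helper453.SR.ND5a

open Pool.Agent.Helper453.SR 






theorem D5a {p : ℕ} [Fact p.Prime] {K V : Type} [Group K] [Finite K] [AddCommGroup V] [Module (ZMod p) V]
    (ρ : Representation (ZMod p) K V) (hcop : (Nat.card K).Coprime p) (D : Subgroup K)
    (M N : Submodule (ZMod p) V) (hM : ∀ d ∈ D, ∀ m ∈ M, ρ d m ∈ M) (hN : ∀ d ∈ D, ∀ m ∈ N, ρ d m ∈ N)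
    (hMN : M ⊓ N = ⊥) :
    ∃ P : V →ₗ[ZMod p] V, (∀ v, P v ∈ M) ∧ (∀ m ∈ M, P m = m) ∧ (∀ n ∈ N, P n = 0) ∧
      ∀ d ∈ D, ∀ v, P (ρ d v) = ρ d (P v) := by
  classical
  haveI : Fintype D := Fintype.ofFinite D
  obtain ⟨N', hNN', hc⟩ := (disjoint_iff.2 (by rw [inf_comm]; exact hMN) : Disjoint N M).exists_isCompl
  have hc' : IsCompl M N' := hc.symm
  let P₀ : V →ₗ[ZMod p] V := M.subtype ∘ₗ Submodule.projectionOnto M N' hc'
  have h1 : ∀ v, P₀ v ∈ M := fun v => (Submodule.projectionOnto M N' hc' v).2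
  have h2 : ∀ m ∈ M, P₀ m = m := by
    intro m hm
    have := Submodule.projectionOnto_apply_left hc' ⟨m, hm⟩
    simp only [P₀, LinearMap.comp_apply, Submodule.subtype_apply]
    exact congrArg Subtype.val this
  have h3 : ∀ n ∈ N, P₀ n = 0 := by
    intro n hn
    have := Submodule.projectionOnto_apply_right hc' ⟨n, hNN' hn⟩
    simp only [P₀, LinearMap.comp_apply, Submodule.subtype_apply]
    rw [this]; rfl
  have hcard : ((Nat.card D : ℕ) : ZMod p) ≠ 0 := by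
    intro h
    rw [ZMod.natCast_eq_zero_iff] at h
    have h4 : p ∣ Nat.card K := h.trans (Subgroup.card_subgroup_dvd_card D)
    have h5 := Nat.Coprime.eq_one_of_dvd hcop.symm h4
    exact (Fact.out : p.Prime).one_lt.ne' h5
  have hcf : (Nat.card D : ℕ) = Fintype.card D := Nat.card_eq_fintype_card
  let P : V →ₗ[ZMod p] V := ((Nat.card D : ℕ) : ZMod p)⁻¹ • ∑ d : D, (ρ d) ∘ₗ P₀ ∘ₗ (ρ (d⁻¹ : D))
  have hP : ∀ v, P v = ((Nat.card D : ℕ) : ZMod p)⁻¹ • ∑ d : D, ρ d (P₀ (ρ (d⁻¹ : D) v)) := by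
    intro v
    simp [P, LinearMap.sum_apply]
  refine ⟨P, ?_, ?_, ?_, ?_⟩
  · intro v
    rw [hP]
    apply M.smul_mem
    apply M.sum_mem
    intro d _
    exact hM d d.2 _ (h1 _)
  · intro m hm
    rw [hP]
    have : ∀ d : D, ρ d (P₀ (ρ (d⁻¹ : D) m)) = m := by
      intro d
      rw [h2 _ (hM _ (d⁻¹ : D).2 m hm), ← Module.End.mul_apply, ← map_mul]
      simp
    rw [Finset.sum_congr rfl (fun d _ => this d), Finset.sum_const, Finset.card_univ, ← hcf,
      ← Nat.cast_smul_eq_nsmul (ZMod p), smul_smul, inv_mul_cancel₀ hcard, one_smul]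
  · intro n hn
    rw [hP]
    have : ∀ d : D, ρ d (P₀ (ρ (d⁻¹ : D) n)) = 0 := by
      intro d
      rw [h3 _ (hN _ (d⁻¹ : D).2 n hn), map_zero]
    rw [Finset.sum_congr rfl (fun d _ => this d), Finset.sum_const_zero, smul_zero]
  · intro d₀ hd₀ v
    rw [hP, hP, map_smul, map_sum]
    congr 1
    rw [← Equiv.sum_comp (Equiv.mulLeft (⟨d₀, hd₀⟩ : D))]
    apply Finset.sum_congr rfl
    intro e _
    simp only [Equiv.coe_mulLeft]
    have e1 : ρ (((⟨d₀, hd₀⟩ : D) * e)⁻¹ : D) (ρ d₀ v) = ρ (e⁻¹ : D) v := by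
      rw [← Module.End.mul_apply, ← map_mul]
      congr 2
      simp [mul_assoc]
    rw [e1]
    rw [← Module.End.mul_apply (ρ d₀), ← map_mul]
    simp

end Pool.Agent.Helper453.SR.ND5a
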