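import Pool.Agent.Helper453.SR.Defs
import Pool.Agent.Helper453.SR.D5a

set_option autoImplicit false
open CategoryTheory MonoidalCategory

namespace Pool.Agent.Helper453.SR.ND5

open Pool.Agent.Helper453.SR Pool.Agent.Helper453.SR.ND5a











theorem D5_inv {p : ℕ} {K V : Type} [Group K] [Finite K] [AddCommGroup V] [Module (ZMod p) V]
    (ρ : Representation (ZMod p) K V) (M : Submodule (ZMod p) V) (g : K)
    (h : ∀ m ∈ M, ρ g m ∈ M) : ∀ m ∈ M, ρ g⁻¹ m ∈ M := by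
  have hpow : ∀ n : ℕ, ∀ m ∈ M, ρ (g ^ n) m ∈ M := by
    intro n
    induction n with
    | zero =>
      intro m hm
      rw [pow_zero, map_one]
      exact hm
    | succ n ih =>
      intro m hm
      rw [pow_succ, map_mul]
      exact ih _ (h m hm)
  have hg : g⁻¹ = g ^ (orderOf g - 1) := by
    apply inv_eq_of_mul_eq_one_right
    rw [← pow_succ', Nat.sub_add_cancel (orderOf_pos g), pow_orderOf_eq_one]
  rw [hg]
  exact hpow _

theorem D5_clo {p : ℕ} {K V : Type} [Group K] [Finite K] [AddCommGroup V] [Module (ZMod p) V]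
    (ρ : Representation (ZMod p) K V) (M : Submodule (ZMod p) V) (x y : K)
    (hx : ∀ m ∈ M, ρ x m ∈ M) (hy : ∀ m ∈ M, ρ y m ∈ M) :
    ∀ d ∈ Subgroup.closure {x, y}, ∀ m ∈ M, ρ d m ∈ M := by
  intro d hd
  induction hd using Subgroup.closure_induction with
  | mem g hg =>
    rcases hg with rfl | hg
    · exact hx
    · rw [Set.mem_singleton_iff.1 hg]
      exact hy
  | one =>
    intro m hm
    rw [map_one]
    exact hm
  | mul a b _ _ iha ihb =>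
    intro m hm
    rw [map_mul]
    exact iha _ (ihb m hm)
  | inv a _ iha => exact D5_inv ρ M a iha

theorem D5_conj {K : Type} [Group K] {k x : K} (h : k * x * k⁻¹ = x⁻¹) : x * k = k * x⁻¹ := by
  have h1 : (k * x * k⁻¹)⁻¹ = x := by rw [h, inv_inv]
  have h2 : (k * x * k⁻¹)⁻¹ = k * x⁻¹ * k⁻¹ := by group
  rw [h2] at h1
  calc x * k = (k * x⁻¹ * k⁻¹) * k := by rw [h1]
    _ = k * x⁻¹ := by group

theorem D5_mapinv {p : ℕ} {K V : Type} [Group K] [Finite K] [AddCommGroup V]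
    [Module (ZMod p) V] (ρ : Representation (ZMod p) K V) (M : Submodule (ZMod p) V) {k x : K}
    (hk : k * x * k⁻¹ = x⁻¹) (hx : ∀ m ∈ M, ρ x m ∈ M) :
    ∀ m ∈ M.map (ρ k), ρ x m ∈ M.map (ρ k) := by
  rintro _ ⟨m, hm, rfl⟩
  refine ⟨ρ x⁻¹ m, D5_inv ρ M x hx m hm, ?_⟩
  have h1 : ρ k * ρ x⁻¹ = ρ x * ρ k := by
    rw [← map_mul, ← map_mul, D5_conj hk]
  exact LinearMap.congr_fun h1 m

theorem D5 {p : ℕ} [Fact p.Prime] {K V : Type} [Group K] [Finite K] [AddCommGroup V] [Module (ZMod p) V]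
    (ρ : Representation (ZMod p) K V) (hcop : (Nat.card K).Coprime p) (hJ : JProp ρ) (x y : K)
    (M : Submodule (ZMod p) V) (hMx : ∀ m ∈ M, ρ x m ∈ M) (hMy : ∀ m ∈ M, ρ y m ∈ M)
    (hirr : ∀ W : Submodule (ZMod p) V, W ≤ M → (∀ m ∈ W, ρ x m ∈ W) → (∀ m ∈ W, ρ y m ∈ W) → W = ⊥ ∨ W = M)
    (v w z : V) (hv : v ∈ M) (hw : w ∈ M) (hz : z ∈ M) (hxv : ρ x v = v) (hyw : ρ y w = w)
    (hne : v ≠ 0 ∨ w ≠ 0 ∨ ¬ ∃ a ∈ M, ∃ b ∈ M, ρ x a = a ∧ ρ y b = b ∧ z = a + b) :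
    ∃ k : K, k * x * k⁻¹ = x⁻¹ ∧ k * y * k⁻¹ = y⁻¹ ∧ (∀ m ∈ M, ρ k m ∈ M) ∧ ρ k v = -v ∧ ρ k w = -w ∧
      ∃ a ∈ M, ∃ b ∈ M, ρ x a = a ∧ ρ y b = b ∧ ρ k z - z = a + b := by
  obtain ⟨k, hkx, hky, hkv, hkw, a, b, hxa, hyb, hab⟩ := hJ x y v w z hxv hyw
  have hxD : x ∈ Subgroup.closure {x, y} := Subgroup.subset_closure (Or.inl rfl)
  have hyD : y ∈ Subgroup.closure {x, y} := Subgroup.subset_closure (Or.inr rfl)
  have hMD := D5_clo ρ M x y hMx hMy
  have hNx := D5_mapinv ρ M hkx hMx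
  have hNy := D5_mapinv ρ M hky hMy
  have hND := D5_clo ρ (M.map (ρ k)) x y hNx hNy
  have hkM : ∀ m ∈ M, ρ k m ∈ M := by
    rcases hirr (M.map (ρ k) ⊓ M) inf_le_right
      (fun m hm => ⟨hNx m hm.1, hMx m hm.2⟩) (fun m hm => ⟨hNy m hm.1, hMy m hm.2⟩) with hbot | htop
    · exfalso
      have key : ∀ u ∈ M, ρ k u = -u → u = 0 := by
        intro u hu hku
        have h1 : ρ k u ∈ M.map (ρ k) ⊓ M := ⟨⟨u, hu, rfl⟩, by rw [hku]; exact M.neg_mem hu⟩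
        rw [hbot, Submodule.mem_bot, hku, neg_eq_zero] at h1
        exact h1
      rcases hne with h | h | h
      · exact h (key v hv hkv)
      · exact h (key w hw hkw)
      · obtain ⟨P, hP1, hP2, hP3, hP4⟩ := D5a ρ hcop (Subgroup.closure {x, y}) M (M.map (ρ k))
          hMD hND (by rw [inf_comm]; exact hbot)
        apply h
        have h1 : P (ρ k z - z) = P a + P b := by rw [hab, map_add]
        rw [map_sub, hP3 _ ⟨z, hz, rfl⟩, hP2 z hz, zero_sub] at h1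
        refine ⟨-P a, M.neg_mem (hP1 a), -P b, M.neg_mem (hP1 b), ?_, ?_, ?_⟩
        · rw [map_neg, ← hP4 x hxD, hxa]
        · rw [map_neg, ← hP4 y hyD, hyb]
        · rw [← neg_add, ← h1, neg_neg]
    · have h2 : ∀ m ∈ M, ρ k⁻¹ m ∈ M := by
        intro m hm
        have h3 : m ∈ M.map (ρ k) ⊓ M := by rw [htop]; exact hm
        obtain ⟨m', hm', rfl⟩ := h3.1
        have h4 : ρ k⁻¹ (ρ k m') = m' := by
          have h5 : ρ k⁻¹ * ρ k = 1 := by rw [← map_mul, inv_mul_cancel, map_one]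
          exact LinearMap.congr_fun h5 m'
        rw [h4]
        exact hm'
      have h6 := D5_inv ρ M k⁻¹ h2
      rwa [inv_inv] at h6
  obtain ⟨P, hP1, hP2, hP3, hP4⟩ := D5a ρ hcop (Subgroup.closure {x, y}) M ⊥
    hMD (fun d _ m hm => by
      rw [Submodule.mem_bot] at hm ⊢
      rw [hm, map_zero]) (inf_bot_eq M)
  refine ⟨k, hkx, hky, hkM, hkv, hkw, P a, hP1 a, P b, hP1 b, ?_, ?_, ?_⟩
  · rw [← hP4 x hxD, hxa]
  · rw [← hP4 y hyD, hyb]
  · have h1 : P (ρ k z - z) = P a + P b := by rw [hab, map_add]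
    rw [hP2 _ (M.sub_mem (hkM z hz) hz)] at h1
    exact h1

end Pool.Agent.Helper453.SR.ND5
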