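import Pool.Agent.Helper453.SR.Defs
import Pool.Agent.Helper453.SR.D3
import Pool.Agent.Helper453.SR.D4
import Pool.Agent.Helper453.SR.D5

set_option autoImplicit false
open CategoryTheory MonoidalCategory

namespace Pool.Agent.Helper453.SR.ND6

open Pool.Agent.Helper453.SR Pool.Agent.Helper453.SR.ND3 Pool.Agent.Helper453.SR.ND4 Pool.Agent.Helper453.SR.ND5















theorem D6aux_inv_apply {p : ℕ} {K V : Type} [Group K] [AddCommGroup V] [Module (ZMod p) V]
    (ρ : Representation (ZMod p) K V) (k : K) (v : V) : ρ k (ρ k⁻¹ v) = v := by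
  rw [← Module.End.mul_apply, ← map_mul, mul_inv_cancel, map_one, Module.End.one_apply]

theorem D6aux_inv_apply' {p : ℕ} {K V : Type} [Group K] [AddCommGroup V] [Module (ZMod p) V]
    (ρ : Representation (ZMod p) K V) (k : K) (v : V) : ρ k⁻¹ (ρ k v) = v := by
  rw [← Module.End.mul_apply, ← map_mul, inv_mul_cancel, map_one, Module.End.one_apply]

theorem D6aux_inv_mem {p : ℕ} {K V : Type} [Group K] [AddCommGroup V] [Module (ZMod p) V] [Finite V]
    (ρ : Representation (ZMod p) K V) (M : Submodule (ZMod p) V) (k : K)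
    (hk : ∀ m ∈ M, ρ k m ∈ M) : ∀ m ∈ M, ρ k⁻¹ m ∈ M := by
  have hinj : Function.Injective ((ρ k).restrict hk) := by
    intro a b hab
    have h1 : ρ k (a : V) = ρ k (b : V) := congrArg Subtype.val hab
    have h2 := congrArg (ρ k⁻¹) h1
    rw [D6aux_inv_apply', D6aux_inv_apply'] at h2
    exact Subtype.ext h2
  have hsurj : Function.Surjective ((ρ k).restrict hk) := Finite.injective_iff_surjective.mp hinj
  intro m hm
  obtain ⟨a, ha⟩ := hsurj ⟨m, hm⟩
  have h1 : ρ k (a : V) = m := congrArg Subtype.val ha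
  rw [← h1, D6aux_inv_apply']
  exact a.2

theorem D6aux_fix {p : ℕ} {V : Type} [AddCommGroup V] [Module (ZMod p) V]
    (f : Module.End (ZMod p) V) (M : Submodule (ZMod p) V) (hM : ∀ m ∈ M, f m ∈ M) :
    Module.finrank (ZMod p) ↥(M ⊓ fix f) =
      Module.finrank (ZMod p) (fix (f.restrict hM : Module.End (ZMod p) M)) := by
  have h1 : (fix (f.restrict hM : Module.End (ZMod p) M)).map M.subtype = M ⊓ fix f := by
    ext v
    rw [Submodule.mem_map, Submodule.mem_inf, mem_fix]
    constructor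
    · rintro ⟨m, hm, rfl⟩
      rw [mem_fix] at hm
      exact ⟨m.2, congrArg Subtype.val hm⟩
    · rintro ⟨hv, hfv⟩
      refine ⟨⟨v, hv⟩, ?_, rfl⟩
      rw [mem_fix]
      exact Subtype.ext hfv
  rw [← h1]
  exact (LinearEquiv.finrank_eq (Submodule.equivMapOfInjective M.subtype M.injective_subtype
    (fix (f.restrict hM : Module.End (ZMod p) M)))).symm

theorem D6aux_pow {p : ℕ} {K V : Type} [Group K] [AddCommGroup V] [Module (ZMod p) V]
    (ρ : Representation (ZMod p) K V) (M : Submodule (ZMod p) V) (k : K)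
    (hk : ∀ m ∈ M, ρ k m ∈ M) (n : ℕ) (m : M) :
    ((((ρ k).restrict hk : Module.End (ZMod p) M) ^ n) m : V) = ρ (k ^ n) m := by
  induction n generalizing m with
  | zero => rw [pow_zero, pow_zero, map_one]; rfl
  | succ n ih =>
    rw [pow_succ, Module.End.mul_apply, ih, pow_succ, map_mul, Module.End.mul_apply]
    rfl

theorem D6 {p : ℕ} [Fact p.Prime] (hp2 : p ≠ 2) {K V : Type} [Group K] [Finite K] [AddCommGroup V]
    [Module (ZMod p) V] [Finite V]
    (ρ : Representation (ZMod p) K V) (hcop : (Nat.card K).Coprime p) (hJ : JProp ρ) (x y : K)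
    (hxo : Odd (orderOf x)) (hyo : Odd (orderOf y))
    (M : Submodule (ZMod p) V) (hMx : ∀ m ∈ M, ρ x m ∈ M) (hMy : ∀ m ∈ M, ρ y m ∈ M)
    (hirr : ∀ W : Submodule (ZMod p) V, W ≤ M → (∀ m ∈ W, ρ x m ∈ W) → (∀ m ∈ W, ρ y m ∈ W) → W = ⊥ ∨ W = M)
    (hna : ∃ m ∈ M, ρ x (ρ y m) ≠ ρ y (ρ x m)) :
    3 * Module.finrank (ZMod p) ↥(M ⊓ fix (ρ x)) = Module.finrank (ZMod p) M ∧
    3 * Module.finrank (ZMod p) ↥(M ⊓ fix (ρ y)) = Module.finrank (ZMod p) M := by
  have hMx' := D6aux_inv_mem ρ M x hMx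
  have hMy' := D6aux_inv_mem ρ M y hMy
  set X : Module.End (ZMod p) M := (ρ x).restrict hMx with hX
  set Y : Module.End (ZMod p) M := (ρ y).restrict hMy with hY
  set X' : Module.End (ZMod p) M := (ρ x⁻¹).restrict hMx' with hX'
  set Y' : Module.End (ZMod p) M := (ρ y⁻¹).restrict hMy' with hY'
  have hXa : ∀ m : M, ((X m : M) : V) = ρ x m := fun _ => rfl
  have hYa : ∀ m : M, ((Y m : M) : V) = ρ y m := fun _ => rfl
  have hXa' : ∀ m : M, ((X' m : M) : V) = ρ x⁻¹ m := fun _ => rfl
  have hYa' : ∀ m : M, ((Y' m : M) : V) = ρ y⁻¹ m := fun _ => rfl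
  have hxx : X * X' = 1 := by
    ext m
    rw [Module.End.mul_apply, hXa, hXa', D6aux_inv_apply]
    rfl
  have hxx' : X' * X = 1 := by
    ext m
    rw [Module.End.mul_apply, hXa', hXa, D6aux_inv_apply']
    rfl
  have hyy : Y * Y' = 1 := by
    ext m
    rw [Module.End.mul_apply, hYa, hYa', D6aux_inv_apply]
    rfl
  have hyy' : Y' * Y = 1 := by
    ext m
    rw [Module.End.mul_apply, hYa', hYa, D6aux_inv_apply']
    rfl
  have hirr' : ∀ W : Submodule (ZMod p) M, (∀ m ∈ W, X m ∈ W) → (∀ m ∈ W, Y m ∈ W) →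
      W = ⊥ ∨ W = ⊤ := by
    intro W hWx hWy
    rcases hirr (W.map M.subtype) (by
      rintro _ ⟨m, _, rfl⟩
      exact m.2) (by
      rintro _ ⟨m, hm, rfl⟩
      exact ⟨X m, hWx m hm, rfl⟩) (by
      rintro _ ⟨m, hm, rfl⟩
      exact ⟨Y m, hWy m hm, rfl⟩) with h | h
    · left
      rw [eq_bot_iff]
      intro m hm
      have h1 : (m : V) ∈ W.map M.subtype := ⟨m, hm, rfl⟩
      rw [h, Submodule.mem_bot] at h1
      rw [Submodule.mem_bot]
      exact Subtype.ext h1
    · right
      rw [eq_top_iff]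
      intro m _
      have h1 : (m : V) ∈ W.map M.subtype := by
        rw [h]
        exact m.2
      obtain ⟨m', hm', hmm⟩ := h1
      have : m' = m := Subtype.ext hmm
      rw [← this]
      exact hm'
  have hna' : X * Y ≠ Y * X := by
    intro h
    obtain ⟨m, hm, hne⟩ := hna
    apply hne
    have h1 := congrArg (fun f : Module.End (ZMod p) M => ((f ⟨m, hm⟩ : M) : V)) h
    exact h1
  have hH : ∀ v w z : M, X v = v → Y w = w → (v ≠ 0 ∨ w ≠ 0 ∨ z ∉ fix X ⊔ fix Y) →
      ∃ g : Module.End (ZMod p) M, IsUnit g ∧ g * X = X' * g ∧ g * Y = Y' * g ∧ g v = -v ∧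
        g w = -w ∧ g z - z ∈ fix X ⊔ fix Y := by
    intro v w z hv hw hne
    obtain ⟨k, hkx, hky, hkM, hkv, hkw, a, ha, b, hb, hxa, hyb, hab⟩ :=
      D5 ρ hcop hJ x y M hMx hMy hirr v w z v.2 w.2 z.2
        (congrArg Subtype.val hv) (congrArg Subtype.val hw) (by
        rcases hne with h | h | h
        · left
          intro h0
          exact h (Subtype.ext h0)
        · right
          left
          intro h0
          exact h (Subtype.ext h0)
        · right
          right
          rintro ⟨a, ha, b, hb, hxa, hyb, hab⟩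
          apply h
          rw [Submodule.mem_sup]
          refine ⟨⟨a, ha⟩, ?_, ⟨b, hb⟩, ?_, ?_⟩
          · rw [mem_fix]
            exact Subtype.ext hxa
          · rw [mem_fix]
            exact Subtype.ext hyb
          · exact Subtype.ext hab.symm)
    have hkM' := D6aux_inv_mem ρ M k hkM
    have hkx2 : k * x = x⁻¹ * k := by rw [← hkx]; group
    have hky2 : k * y = y⁻¹ * k := by rw [← hky]; group
    refine ⟨(ρ k).restrict hkM, ?_, ?_, ?_, ?_, ?_, ?_⟩
    · refine ⟨⟨(ρ k).restrict hkM, (ρ k⁻¹).restrict hkM', ?_, ?_⟩, rfl⟩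
      · ext m
        exact D6aux_inv_apply ρ k m
      · ext m
        exact D6aux_inv_apply' ρ k m
    · ext m
      show ρ k (ρ x m) = ρ x⁻¹ (ρ k m)
      rw [← Module.End.mul_apply, ← map_mul, hkx2, map_mul, Module.End.mul_apply]
    · ext m
      show ρ k (ρ y m) = ρ y⁻¹ (ρ k m)
      rw [← Module.End.mul_apply, ← map_mul, hky2, map_mul, Module.End.mul_apply]
    · exact Subtype.ext hkv
    · exact Subtype.ext hkw
    · rw [Submodule.mem_sup]
      refine ⟨⟨a, ha⟩, ?_, ⟨b, hb⟩, ?_, ?_⟩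
      · rw [mem_fix]
        exact Subtype.ext hxa
      · rw [mem_fix]
        exact Subtype.ext hyb
      · exact Subtype.ext hab.symm
  obtain ⟨g, hg, hgx, hgy, hgU, hgq⟩ := D3 X Y X' Y' hxx hxx' hyy hyy' hirr' hna' hH
  have hdis : fix X ⊓ fix Y = ⊥ := by
    rcases hirr' (fix X ⊓ fix Y) (by
      intro m hm
      have h1 := (Submodule.mem_inf.mp hm).1
      rw [mem_fix] at h1
      rw [h1]
      exact hm) (by
      intro m hm
      have h1 := (Submodule.mem_inf.mp hm).2
      rw [mem_fix] at h1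
      rw [h1]
      exact hm) with h | h
    · exact h
    · exfalso
      apply hna'
      ext m
      have h1 : ∀ m : M, X m = m ∧ Y m = m := by
        intro m
        have h2 : m ∈ fix X ⊓ fix Y := by
          rw [h]
          exact Submodule.mem_top
        rw [Submodule.mem_inf, mem_fix, mem_fix] at h2
        exact h2
      rw [Module.End.mul_apply, Module.End.mul_apply, (h1 m).2, (h1 m).1, (h1 m).2]
  have hXp : X ^ orderOf x = 1 := by
    ext m
    rw [hX, D6aux_pow, pow_orderOf_eq_one, map_one]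
    rfl
  have hYp : Y ^ orderOf y = 1 := by
    ext m
    rw [hY, D6aux_pow, pow_orderOf_eq_one, map_one]
    rfl
  have hcx : (orderOf x).Coprime p := Nat.Coprime.coprime_dvd_left (orderOf_dvd_natCard x) hcop
  have hcy : (orderOf y).Coprime p := Nat.Coprime.coprime_dvd_left (orderOf_dvd_natCard y) hcop
  have h1 := D4 hp2 X Y X' g hxx hxx' (orderOf x) hxo hXp hcx hgx hdis hgU hgq
  have h2 := D4 hp2 Y X Y' g hyy hyy' (orderOf y) hyo hYp hcy hgy (by rw [inf_comm]; exact hdis)
    (by rw [sup_comm]; exact hgU) (by rw [sup_comm]; exact hgq)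
  rw [D6aux_fix (ρ x) M hMx, D6aux_fix (ρ y) M hMy, ← hX, ← hY]
  omega

end Pool.Agent.Helper453.SR.ND6
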