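import Mathlib

set_option autoImplicit false
open CategoryTheory MonoidalCategory

namespace Pool.Agent.Helper453.SR

/-- (I): any two elements of `G` are simultaneously inverted by one conjugation. -/
def PairInv (G : Type) [Group G] : Prop :=
  ∀ x y : G, ∃ g : G, g * x * g⁻¹ = x⁻¹ ∧ g * y * g⁻¹ = y⁻¹

/-- nilpotent length at most `n` -/
def NilLen : ℕ → (G : Type) → [Group G] → Prop
  | 0, G, _ => Subsingleton G
  | n + 1, G, _ => ∃ (N : Subgroup G) (_ : N.Normal), Group.IsNilpotent N ∧ NilLen n (G ⧸ N)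

/-- coprime centralizing property -/
def CEN (K : Type) [Group K] : Prop :=
  ∀ (r s : ℕ), r.Prime → s.Prime → r ≠ 2 → s ≠ 2 → r ≠ s →
    ∀ (S : Subgroup K), IsPGroup r S → ∀ y : K, (∃ n, y ^ (s ^ n) = 1) →
      (∀ a ∈ S, y * a * y⁻¹ ∈ S) → ∀ a ∈ S, y * a = a * y

/-- `P = V ⋊ L` with `V` a self-centralizing elementary abelian `s`-group -/
def PrimData (s : ℕ) (P : Type) [Group P] : Prop :=
  ∃ V L : Subgroup P, V.Normal ∧ (∀ a ∈ V, ∀ b ∈ V, a * b = b * a) ∧ (∀ a ∈ V, a ^ s = 1) ∧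
    V.IsComplement' L ∧ (∀ g : P, (∀ a ∈ V, g * a = a * g) → g ∈ V)

section lin
variable {p : ℕ} {K V : Type} [Group K] [AddCommGroup V] [Module (ZMod p) V]

/-- linear form of (I) for `V ⋊ K` -/
def PairInvLin (ρ : Representation (ZMod p) K V) : Prop :=
  ∀ (x y : K) (v w : V), ∃ (k : K) (u : V), k * x * k⁻¹ = x⁻¹ ∧ k * y * k⁻¹ = y⁻¹ ∧
    u + ρ k v - ρ x⁻¹ u = - ρ x⁻¹ v ∧ u + ρ k w - ρ y⁻¹ u = - ρ y⁻¹ w

/-- the property (J) -/
def JProp (ρ : Representation (ZMod p) K V) : Prop :=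
  ∀ (x y : K) (v w z : V), ρ x v = v → ρ y w = w → ∃ k : K, k * x * k⁻¹ = x⁻¹ ∧ k * y * k⁻¹ = y⁻¹ ∧
    ρ k v = -v ∧ ρ k w = -w ∧ ∃ a b : V, ρ x a = a ∧ ρ y b = b ∧ ρ k z - z = a + b

/-- fixed points of an operator -/
def fix (f : Module.End (ZMod p) V) : Submodule (ZMod p) V := LinearMap.ker (f - 1)

theorem mem_fix (f : Module.End (ZMod p) V) (v : V) : v ∈ fix f ↔ f v = v := by
  simp [fix, LinearMap.mem_ker, sub_eq_zero]

end lin

end Pool.Agent.Helper453.SR
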