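import Pool.Agent.Helper453.SR.Defs

set_option autoImplicit false
open CategoryTheory MonoidalCategory

namespace Pool.Agent.Helper453.SR.NE1

open Pool.Agent.Helper453.SR 





open scoped commutatorElement in
theorem comm_mem_aux {Q : Type} [Group Q] (a b : Q) : a * b * a⁻¹ * b⁻¹ ∈ commutator Q := by
  have := Subgroup.commutator_mem_commutator (Subgroup.mem_top a) (Subgroup.mem_top b)
  exact this



theorem E1 {K : Type} [Group K] [Finite K] (r s : ℕ) (hr : r.Prime) (hs : s.Prime) (hrs : r ≠ s)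
    (S : Subgroup K) (hS : IsPGroup r S) (y : K) (hy : ∃ n, y ^ (s ^ n) = 1)
    (hn : ∀ a ∈ S, y * a * y⁻¹ ∈ S) (hnc : ∃ a ∈ S, y * a ≠ a * y) :
    ∃ R C : Subgroup K, R ≤ S ∧ C ≤ R ∧ (∀ a ∈ R, y * a * y⁻¹ ∈ R) ∧ (∀ a ∈ R, a ∈ C ↔ y * a = a * y) ∧
      C ≠ R ∧ (∀ c ∈ C, ∀ a ∈ R, c * a = a * c) ∧ (∀ a ∈ R, ∀ b ∈ R, a * b * a⁻¹ * b⁻¹ ∈ C) ∧
      (∀ a ∈ R, a ^ r ∈ C) ∧ (∀ n ∈ R, n ∉ C → R ≤ Subgroup.closure {n, y}) ∧
      (∀ T : Subgroup K, (∀ a ∈ R, y * a * y⁻¹ * a⁻¹ ∈ T) → R ≤ T) := by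
  classical
  -- minimal R
  have hfinS : ({R : Subgroup K | R ≤ S ∧ (∀ a ∈ R, y * a * y⁻¹ ∈ R) ∧ ∃ a ∈ R, y * a ≠ a * y}).Finite :=
    Set.toFinite _
  obtain ⟨R, hRmin⟩ := hfinS.exists_minimal ⟨S, le_rfl, hn, hnc⟩
  obtain ⟨hRS, hRy, hRnc⟩ := hRmin.1
  have star : ∀ T : Subgroup K, T ≤ R → (∀ a ∈ T, y * a * y⁻¹ ∈ T) → T ≠ R → ∀ a ∈ T, y * a = a * y := by
    intro T hTR hTy hne a ha
    by_contra hcon
    exact hne (le_antisymm hTR (hRmin.2 ⟨hTR.trans hRS, hTy, a, ha, hcon⟩ hTR))
  let C : Subgroup K :=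
    { carrier := {a | a ∈ R ∧ y * a = a * y}
      mul_mem' := by
        rintro a b ⟨ha, ha'⟩ ⟨hb, hb'⟩
        refine ⟨R.mul_mem ha hb, ?_⟩
        rw [← mul_assoc, ha', mul_assoc, hb', mul_assoc]
      one_mem' := ⟨R.one_mem, by simp⟩
      inv_mem' := by
        rintro a ⟨ha, ha'⟩
        refine ⟨R.inv_mem ha, ?_⟩
        have : Commute y a := ha'
        exact this.inv_right }
  have hC : ∀ a, a ∈ C ↔ a ∈ R ∧ y * a = a * y := fun a => Iff.rfl
  have hCR : C ≤ R := fun a ha => ha.1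
  have hCne : C ≠ R := by
    intro h
    obtain ⟨a, ha, ha'⟩ := hRnc
    rw [← h] at ha
    exact ha' ha.2
  have starC : ∀ T : Subgroup K, T ≤ R → (∀ a ∈ T, y * a * y⁻¹ ∈ T) → T ≠ R → T ≤ C :=
    fun T h1 h2 h3 a ha => ⟨h1 ha, star T h1 h2 h3 a ha⟩
  have hCy : ∀ c ∈ C, y * c * y⁻¹ = c := by
    intro c hc
    rw [hc.2]; group
  -- R is an r-group
  have hRp : IsPGroup r R := hS.to_le hRS
  have : Fact r.Prime := ⟨hr⟩
  have hRnil : Group.IsNilpotent R := hRp.isNilpotent
  -- (a)
  have hnorm : ∀ n ∈ R, ∀ c, c ∈ C → n * c * n⁻¹ ∈ C := by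
    let N : Subgroup K := R ⊓ Subgroup.normalizer (C : Set K)
    have hNR : N ≤ R := inf_le_left
    have hNy : ∀ a ∈ N, y * a * y⁻¹ ∈ N := by
      rintro a ⟨ha, ha'⟩
      refine ⟨hRy a ha, ?_⟩
      change y * a * y⁻¹ ∈ Subgroup.normalizer (C : Set K)
      change a ∈ Subgroup.normalizer (C : Set K) at ha'
      rw [Subgroup.mem_normalizer_iff] at ha' ⊢
      have hyC : ∀ h, h ∈ C ↔ y * h * y⁻¹ ∈ C := by
        intro h
        constructor
        · intro hh; rw [hCy h hh]; exact hh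
        · intro hh
          have := hCy _ hh
          have h2 : y * h * y⁻¹ = h := by
            have h3 : y * (y * h * y⁻¹) * y⁻¹ = y * h * y⁻¹ := this
            have h4 := mul_right_cancel h3
            exact mul_left_cancel h4
          rwa [h2] at hh
      intro h
      have e1 : h ∈ C ↔ y⁻¹ * h * y ∈ C := by
        rw [hyC (y⁻¹ * h * y)]
        have : y * (y⁻¹ * h * y) * y⁻¹ = h := by group
        rw [this]
      have e2 : y * a * y⁻¹ * h * (y * a * y⁻¹)⁻¹ = y * (a * (y⁻¹ * h * y) * a⁻¹) * y⁻¹ := by group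
      rw [e2, ← hyC, e1]
      exact ha' _
    have hNeq : N = R := by
      by_contra hne
      have hNC := starC N hNR hNy hne
      have hlt : C.subgroupOf R < ⊤ := by
        rw [lt_top_iff_ne_top]
        intro h
        exact hCne (le_antisymm hCR (Subgroup.subgroupOf_eq_top.mp h))
      have h1 := Group.normalizerCondition_of_isNilpotent (G := R) (C.subgroupOf R) hlt
      obtain ⟨x, hx1, hx2⟩ := SetLike.exists_of_lt h1
      apply hx2
      rw [Subgroup.mem_subgroupOf]
      apply hNC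
      refine ⟨x.2, ?_⟩
      change (x : K) ∈ Subgroup.normalizer (C : Set K)
      rw [Subgroup.mem_normalizer_iff] at hx1
      rw [Subgroup.mem_normalizer_iff]
      intro h
      constructor
      · intro hh
        have := (hx1 ⟨h, hCR hh⟩).mp (by rw [Subgroup.mem_subgroupOf]; exact hh)
        rw [Subgroup.mem_subgroupOf] at this
        exact this
      · intro hh
        have hR : h ∈ R := by
          have h1 : (x : K)⁻¹ * (x * h * (x : K)⁻¹) * x ∈ R :=
            R.mul_mem (R.mul_mem (R.inv_mem x.2) (hCR hh)) x.2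
          have h2 : (x : K)⁻¹ * (x * h * (x : K)⁻¹) * x = h := by group
          rwa [h2] at h1
        have := (hx1 ⟨h, hR⟩).mpr (by rw [Subgroup.mem_subgroupOf]; exact hh)
        rw [Subgroup.mem_subgroupOf] at this
        exact this
    intro n hnR c hc
    rw [← hNeq] at hnR
    have : n ∈ Subgroup.normalizer (C : Set K) := hnR.2
    rw [Subgroup.mem_normalizer_iff] at this
    exact (this c).mp hc
  -- (b)
  have hb : ¬ ∀ a ∈ R, y * a * y⁻¹ * a⁻¹ ∈ C := by
    intro hall
    obtain ⟨a, ha, hane⟩ := hRnc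
    apply hane
    set c := y * a * y⁻¹ * a⁻¹ with hcdef
    have hcC : c ∈ C := hall a ha
    have h1 : ∀ i : ℕ, y ^ i * a * (y ^ i)⁻¹ = c ^ i * a := by
      intro i
      induction i with
      | zero => simp
      | succ i ih =>
        have hcom : Commute y (c ^ i) := (show Commute y c from hcC.2).pow_right i
        have e1 : y ^ (i + 1) * a * (y ^ (i + 1))⁻¹ = y * (y ^ i * a * (y ^ i)⁻¹) * y⁻¹ := by
          rw [pow_succ']; group
        rw [e1, ih]
        have e2 : y * (c ^ i * a) * y⁻¹ = c ^ i * (y * a * y⁻¹) := by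
          rw [← mul_assoc, hcom.eq]; group
        rw [e2]
        have e3 : y * a * y⁻¹ = c * a := by rw [hcdef]; group
        rw [e3, pow_succ]; group
    obtain ⟨n, hn1⟩ := hy
    have h2 := h1 (s ^ n)
    rw [hn1] at h2
    have h3 : c ^ (s ^ n) = 1 := by
      have : c ^ (s ^ n) * a = 1 * a := by rw [← h2]; simp
      exact mul_right_cancel this
    obtain ⟨m, hm⟩ := hS ⟨c, hRS (hCR hcC)⟩
    have hm' : c ^ (r ^ m) = 1 := by
      have := congrArg Subtype.val hm
      simpa using this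
    have hcop : Nat.Coprime (s ^ n) (r ^ m) :=
      Nat.Coprime.pow _ _ ((Nat.coprime_primes hs hr).mpr (Ne.symm hrs))
    have h4 : orderOf c ∣ 1 := by
      rw [← hcop.gcd_eq_one]
      exact Nat.dvd_gcd (orderOf_dvd_of_pow_eq_one h3) (orderOf_dvd_of_pow_eq_one hm')
    have h5 : c = 1 := by
      rw [← orderOf_eq_one_iff]
      exact Nat.dvd_one.mp h4
    have h6 : y * a * y⁻¹ = a := by
      have : y * a * y⁻¹ = c * a := by rw [hcdef]; group
      rw [this, h5, one_mul]
    calc y * a = (y * a * y⁻¹) * y := by group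
      _ = a * y := by rw [h6]
  -- (c)
  have hc : ∀ T : Subgroup K, (∀ a ∈ R, y * a * y⁻¹ * a⁻¹ ∈ T) → R ≤ T := by
    intro T hT
    let T₀ : Subgroup K := Subgroup.closure {x | ∃ a ∈ R, x = y * a * y⁻¹ * a⁻¹}
    have h1 : T₀ ≤ R := by
      rw [Subgroup.closure_le]
      rintro x ⟨a, ha, rfl⟩
      exact R.mul_mem (hRy a ha) (R.inv_mem ha)
    have h2 : ∀ a ∈ T₀, y * a * y⁻¹ ∈ T₀ := by
      have : T₀ ≤ T₀.comap (MulAut.conj y).toMonoidHom := by
        rw [Subgroup.closure_le]
        rintro x ⟨a, ha, rfl⟩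
        rw [SetLike.mem_coe, Subgroup.mem_comap]
        apply Subgroup.subset_closure
        refine ⟨y * a * y⁻¹, hRy a ha, ?_⟩
        simp only [MulEquiv.toMonoidHom_eq_coe, MonoidHom.coe_coe, MulAut.conj_apply]
        group
      intro a ha
      have := this ha
      rw [Subgroup.mem_comap] at this
      simpa using this
    have h3 : T₀ = R := by
      by_contra hne
      have h4 := starC T₀ h1 h2 hne
      exact hb fun a ha => h4 (Subgroup.subset_closure ⟨a, ha, rfl⟩)
    rw [← h3, Subgroup.closure_le]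
    rintro x ⟨a, ha, rfl⟩
    exact hT a ha
  -- (d)
  have hd : ∀ c ∈ C, ∀ a ∈ R, c * a = a * c := by
    intro c hcC
    have h1 : R ≤ Subgroup.centralizer {c} := by
      apply hc
      intro n hnR
      rw [Subgroup.mem_centralizer_singleton_iff]
      have hd1 : n⁻¹ * c * n ∈ C := by
        have := hnorm n⁻¹ (R.inv_mem hnR) c hcC
        rwa [inv_inv] at this
      have hd2 : y * (n⁻¹ * c * n) * y⁻¹ = n⁻¹ * c * n := hCy _ hd1
      have hd3 : y⁻¹ * (n⁻¹ * c * n) * y = n⁻¹ * c * n := by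
        have : y⁻¹ * (n⁻¹ * c * n) * y = y⁻¹ * (y * (n⁻¹ * c * n) * y⁻¹) * y := by rw [hd2]
        rw [this]; group
      have hd4 : (y * n * y⁻¹ * n⁻¹) * c * (y * n * y⁻¹ * n⁻¹)⁻¹ = c := by
        have : (y * n * y⁻¹ * n⁻¹) * c * (y * n * y⁻¹ * n⁻¹)⁻¹
            = y * n * (y⁻¹ * (n⁻¹ * c * n) * y) * n⁻¹ * y⁻¹ := by group
        rw [this, hd3]
        have : y * n * (n⁻¹ * c * n) * n⁻¹ * y⁻¹ = y * c * y⁻¹ := by group
        rw [this, hCy c hcC]
      have hd5 := mul_inv_eq_iff_eq_mul.mp hd4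
      first
        | exact hd5
        | exact hd5.symm
    intro a ha
    have := h1 ha
    rw [Subgroup.mem_centralizer_singleton_iff] at this
    first
      | exact this
      | exact this.symm
  -- quotient
  have hCn : (C.subgroupOf R).Normal := by
    refine ⟨?_⟩
    rintro ⟨x, hx⟩ hxC ⟨g, hg⟩
    rw [Subgroup.mem_subgroupOf] at hxC ⊢
    exact hnorm g hg x hxC
  have hQp : IsPGroup r (R ⧸ C.subgroupOf R) := hRp.to_quotient _
  have hQnil : Group.IsNilpotent (R ⧸ C.subgroupOf R) := hQp.isNilpotent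
  have hQnt : Nontrivial (R ⧸ C.subgroupOf R) := by
    rw [QuotientGroup.nontrivial_iff]
    intro h
    exact hCne (le_antisymm hCR (Subgroup.subgroupOf_eq_top.mp h))
  have hmk : ∀ x : R, (QuotientGroup.mk x : R ⧸ C.subgroupOf R) = 1 ↔ (x : K) ∈ C := by
    intro x
    rw [QuotientGroup.eq_one_iff, Subgroup.mem_subgroupOf]
  -- (e)
  have he : ∀ a ∈ R, ∀ b ∈ R, a * b * a⁻¹ * b⁻¹ ∈ C := by
    let T : Subgroup K := Subgroup.closure ((C : Set K) ∪ {x | ∃ a ∈ R, ∃ b ∈ R, x = a * b * a⁻¹ * b⁻¹})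
    have h1 : T ≤ R := by
      rw [Subgroup.closure_le]
      rintro x (hx | ⟨a, ha, b, hb', rfl⟩)
      · exact hCR hx
      · exact R.mul_mem (R.mul_mem (R.mul_mem ha hb') (R.inv_mem ha)) (R.inv_mem hb')
    have h2 : ∀ a ∈ T, y * a * y⁻¹ ∈ T := by
      have : T ≤ T.comap (MulAut.conj y).toMonoidHom := by
        rw [Subgroup.closure_le]
        rintro x (hx | ⟨a, ha, b, hb', rfl⟩)
        · rw [SetLike.mem_coe, Subgroup.mem_comap]
          apply Subgroup.subset_closure
          left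
          simp only [MulEquiv.toMonoidHom_eq_coe, MonoidHom.coe_coe, MulAut.conj_apply]
          rw [hCy x hx]
          exact hx
        · rw [SetLike.mem_coe, Subgroup.mem_comap]
          apply Subgroup.subset_closure
          right
          refine ⟨y * a * y⁻¹, hRy a ha, y * b * y⁻¹, hRy b hb', ?_⟩
          simp only [MulEquiv.toMonoidHom_eq_coe, MonoidHom.coe_coe, MulAut.conj_apply]
          group
      intro a ha
      have := this ha
      rw [Subgroup.mem_comap] at this
      simpa using this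
    have h3 : T ≠ R := by
      intro hTR
      have h4 : commutator (R ⧸ C.subgroupOf R) < ⊤ := by
        exact Group.IsSolvable.commutator_lt_top_of_nontrivial _
      apply h4.ne
      rw [eq_top_iff]
      rintro q -
      obtain ⟨x, rfl⟩ := QuotientGroup.mk_surjective q
      have h5 : T ≤ ((commutator (R ⧸ C.subgroupOf R)).comap (QuotientGroup.mk' (C.subgroupOf R))).map R.subtype := by
        rw [Subgroup.closure_le]
        rintro z (hz | ⟨a, ha, b, hb', rfl⟩)
        · refine ⟨⟨z, hCR hz⟩, ?_, rfl⟩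
          rw [SetLike.mem_coe, Subgroup.mem_comap]
          have : QuotientGroup.mk' (C.subgroupOf R) ⟨z, hCR hz⟩ = 1 := (hmk ⟨z, hCR hz⟩).mpr hz
          rw [this]
          exact Subgroup.one_mem _
        · refine ⟨⟨a, ha⟩ * ⟨b, hb'⟩ * (⟨a, ha⟩ : R)⁻¹ * (⟨b, hb'⟩ : R)⁻¹, ?_, rfl⟩
          rw [SetLike.mem_coe, Subgroup.mem_comap]
          rw [map_mul, map_mul, map_mul, map_inv, map_inv]
          exact comm_mem_aux _ _
      have h6 : (x : K) ∈ T := by rw [hTR]; exact x.2
      obtain ⟨w, hw, hwx⟩ := h5 h6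
      have h7 : w = x := Subtype.ext hwx
      rw [← h7]
      exact hw
    have h6 := starC T h1 h2 h3
    intro a ha b hb'
    exact h6 (Subgroup.subset_closure (Or.inr ⟨a, ha, b, hb', rfl⟩))
  have hQcomm : ∀ u v : R ⧸ C.subgroupOf R, u * v = v * u := by
    intro u v
    obtain ⟨a, rfl⟩ := QuotientGroup.mk_surjective u
    obtain ⟨b, rfl⟩ := QuotientGroup.mk_surjective v
    have h1 := (hmk (a * b * a⁻¹ * b⁻¹)).mpr (he a a.2 b b.2)
    have h2 : (QuotientGroup.mk a : R ⧸ C.subgroupOf R) * QuotientGroup.mk b * (QuotientGroup.mk a)⁻¹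
        * (QuotientGroup.mk b)⁻¹ = 1 := h1
    have h3 := mul_inv_eq_one.mp h2
    exact mul_inv_eq_iff_eq_mul.mp h3
  -- (f)
  have hf : ∀ a ∈ R, a ^ r ∈ C := by
    let T : Subgroup K := Subgroup.closure ((C : Set K) ∪ {x | ∃ a ∈ R, x = a ^ r})
    have h1 : T ≤ R := by
      rw [Subgroup.closure_le]
      rintro x (hx | ⟨a, ha, rfl⟩)
      · exact hCR hx
      · exact R.pow_mem ha r
    have h2 : ∀ a ∈ T, y * a * y⁻¹ ∈ T := by
      have : T ≤ T.comap (MulAut.conj y).toMonoidHom := by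
        rw [Subgroup.closure_le]
        rintro x (hx | ⟨a, ha, rfl⟩)
        · rw [SetLike.mem_coe, Subgroup.mem_comap]
          apply Subgroup.subset_closure
          left
          simp only [MulEquiv.toMonoidHom_eq_coe, MonoidHom.coe_coe, MulAut.conj_apply]
          rw [hCy x hx]
          exact hx
        · rw [SetLike.mem_coe, Subgroup.mem_comap]
          apply Subgroup.subset_closure
          right
          refine ⟨y * a * y⁻¹, hRy a ha, ?_⟩
          simp only [MulEquiv.toMonoidHom_eq_coe, MonoidHom.coe_coe, MulAut.conj_apply]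
          rw [conj_pow]
      intro a ha
      have := this ha
      rw [Subgroup.mem_comap] at this
      simpa using this
    have h3 : T ≠ R := by
      intro hTR
      let P : Subgroup (R ⧸ C.subgroupOf R) :=
        { carrier := {q | ∃ b : R ⧸ C.subgroupOf R, b ^ r = q}
          mul_mem' := by
            rintro u v ⟨b, rfl⟩ ⟨d, rfl⟩
            exact ⟨b * d, (show Commute b d from hQcomm b d).mul_pow r⟩
          one_mem' := ⟨1, one_pow r⟩
          inv_mem' := by
            rintro u ⟨b, rfl⟩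
            exact ⟨b⁻¹, inv_pow b r⟩ }
      have h5 : T ≤ (P.comap (QuotientGroup.mk' (C.subgroupOf R))).map R.subtype := by
        rw [Subgroup.closure_le]
        rintro z (hz | ⟨a, ha, rfl⟩)
        · refine ⟨⟨z, hCR hz⟩, ?_, rfl⟩
          rw [SetLike.mem_coe, Subgroup.mem_comap]
          have : QuotientGroup.mk' (C.subgroupOf R) ⟨z, hCR hz⟩ = 1 := (hmk ⟨z, hCR hz⟩).mpr hz
          rw [this]
          exact Subgroup.one_mem _
        · refine ⟨⟨a, ha⟩ ^ r, ?_, rfl⟩
          rw [SetLike.mem_coe, Subgroup.mem_comap]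
          rw [map_pow]
          exact ⟨_, rfl⟩
      have hsurj : Function.Surjective (fun b : R ⧸ C.subgroupOf R => b ^ r) := by
        intro q
        obtain ⟨x, rfl⟩ := QuotientGroup.mk_surjective q
        have h6 : (x : K) ∈ T := by rw [hTR]; exact x.2
        obtain ⟨w, hw, hwx⟩ := h5 h6
        have h7 : w = x := Subtype.ext hwx
        rw [← h7]
        exact hw
      have hinj := Finite.injective_iff_surjective.mpr hsurj
      obtain ⟨q, hq⟩ := exists_ne (1 : R ⧸ C.subgroupOf R)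
      obtain ⟨k, hk⟩ := hQp q
      have : ∀ k : ℕ, q ^ (r ^ k) = 1 → q = 1 := by
        intro k
        induction k with
        | zero => intro h; simpa using h
        | succ k ih =>
          intro h
          apply ih
          apply hinj
          simp only
          rw [← pow_mul, ← pow_succ, h, one_pow]
      exact hq (this k hk)
    have h6 := starC T h1 h2 h3
    intro a ha
    exact h6 (Subgroup.subset_closure (Or.inr ⟨a, ha, rfl⟩))
  refine ⟨R, C, hRS, hCR, hRy, ?_, hCne, hd, he, hf, ?_, hc⟩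
  · intro a ha
    rw [hC]
    exact ⟨fun h => h.2, fun h => ⟨ha, h⟩⟩
  · intro n hnR hnC
    let T : Subgroup K := Subgroup.closure {n, y} ⊓ R
    have h1 : T ≤ R := inf_le_right
    have h2 : ∀ a ∈ T, y * a * y⁻¹ ∈ T := by
      rintro a ⟨ha, ha'⟩
      have hy' : y ∈ Subgroup.closure {n, y} := Subgroup.subset_closure (by simp)
      exact ⟨Subgroup.mul_mem _ (Subgroup.mul_mem _ hy' ha) (Subgroup.inv_mem _ hy'), hRy a ha'⟩
    have h3 : T = R := by
      by_contra hne
      have h4 := starC T h1 h2 hne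
      exact hnC (h4 ⟨Subgroup.subset_closure (by simp), hnR⟩)
    rw [← h3]
    exact inf_le_left

end Pool.Agent.Helper453.SR.NE1
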