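import Pool.Agent.Helper453.SR.Defs
import Pool.Agent.Helper453.SR.D5a

set_option autoImplicit false
open CategoryTheory MonoidalCategory

namespace Pool.Agent.Helper453.SR.NE2

open Pool.Agent.Helper453.SR Pool.Agent.Helper453.SR.ND5a











theorem E2 {p : ℕ} [Fact p.Prime] {K V : Type} [Group K] [Finite K] [AddCommGroup V] [Module (ZMod p) V] [Finite V]
    (ρ : Representation (ZMod p) K V) (hcop : (Nat.card K).Coprime p) (hinj : Function.Injective ρ)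
    (D R : Subgroup K) (hRD : R ≤ D) (hR : R ≠ ⊥) :
    ∃ M : Submodule (ZMod p) V, (∀ d ∈ D, ∀ m ∈ M, ρ d m ∈ M) ∧
      (∀ W : Submodule (ZMod p) V, W ≤ M → (∀ d ∈ D, ∀ m ∈ W, ρ d m ∈ W) → W = ⊥ ∨ W = M) ∧
      ∃ a ∈ R, ∃ m ∈ M, ρ a m ≠ m := by
  classical
  let S : Set (Submodule (ZMod p) V) := {M | (∀ d ∈ D, ∀ m ∈ M, ρ d m ∈ M) ∧
    ∃ a ∈ R, ∃ m ∈ M, ρ a m ≠ m}
  have htop : (⊤ : Submodule (ZMod p) V) ∈ S := by
    refine ⟨fun _ _ _ _ => Submodule.mem_top, ?_⟩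
    obtain ⟨⟨a, haR⟩, ha⟩ := Subgroup.ne_bot_iff_exists_ne_one.1 hR
    have ha1 : a ≠ 1 := fun h => ha (Subtype.ext h)
    refine ⟨a, haR, ?_⟩
    by_contra hcon
    push Not at hcon
    apply ha1
    apply hinj
    rw [map_one]
    exact LinearMap.ext fun v => hcon v Submodule.mem_top
  obtain ⟨M, hMS, hmin⟩ := (wellFounded_lt (α := Submodule (ZMod p) V)).has_min S ⟨⊤, htop⟩
  refine ⟨M, hMS.1, ?_, hMS.2⟩
  intro W hWM hWD
  by_contra hcon
  push Not at hcon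
  obtain ⟨hW0, hWne⟩ := hcon
  obtain ⟨P, hP1, hP2, -, hP4⟩ := D5a ρ hcop D W ⊥ hWD (by
    intro d _ m hm
    rw [Submodule.mem_bot] at hm ⊢
    rw [hm, map_zero]) (inf_bot_eq _)
  have hWS : W ∉ S := fun h => hmin W h (lt_of_le_of_ne hWM hWne)
  have hW'S : M ⊓ LinearMap.ker P ∉ S := by
    intro h
    refine hmin _ h (lt_of_le_of_ne inf_le_left ?_)
    intro heq
    obtain ⟨w, hw, hw0⟩ := Submodule.exists_mem_ne_zero_of_ne_bot hW0
    have h1 : w ∈ M ⊓ LinearMap.ker P := by rw [heq]; exact hWM hw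
    have h2 : P w = 0 := h1.2
    rw [hP2 w hw] at h2
    exact hw0 h2
  have hWtriv : ∀ a ∈ R, ∀ m ∈ W, ρ a m = m := by
    by_contra h
    push Not at h
    exact hWS ⟨hWD, h⟩
  have hW'triv : ∀ a ∈ R, ∀ m ∈ M ⊓ LinearMap.ker P, ρ a m = m := by
    by_contra h
    push Not at h
    refine hW'S ⟨?_, h⟩
    intro d hd m hm
    refine ⟨hMS.1 d hd m hm.1, ?_⟩
    show P (ρ d m) = 0
    have h3 : P m = 0 := hm.2
    rw [hP4 d hd, h3, map_zero]
  obtain ⟨a, ha, m, hm, hne⟩ := hMS.2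
  apply hne
  have h1 : m - P m ∈ M ⊓ LinearMap.ker P := by
    refine ⟨M.sub_mem hm (hWM (hP1 m)), ?_⟩
    show P (m - P m) = 0
    rw [map_sub, hP2 (P m) (hP1 m), sub_self]
  have h2 := hW'triv a ha _ h1
  have h3 := hWtriv a ha _ (hP1 m)
  have h4 : m = P m + (m - P m) := by abel
  calc ρ a m = ρ a (P m + (m - P m)) := by rw [← h4]
    _ = P m + (m - P m) := by rw [map_add, h3, h2]
    _ = m := h4.symm

end Pool.Agent.Helper453.SR.NE2
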