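import Pool.Agent.Helper453.SR.Defs
import Pool.Agent.Helper453.SR.D5a

set_option autoImplicit false
open CategoryTheory MonoidalCategory

namespace Pool.Agent.Helper453.SR.NE3

open Pool.Agent.Helper453.SR Pool.Agent.Helper453.SR.ND5a









theorem E3_count {p r : ℕ} [Fact p.Prime] (hr : r.Prime) {A : Type} [Group A] [Fintype A] {M : Type}
    [AddCommGroup M] [Module (ZMod p) M] [Finite M] (ρ : Representation (ZMod p) A M)
    (hcomm : ∀ a b : A, ρ (a * b) = ρ (b * a)) (hpow : ∀ a : A, ρ a ^ r = 1)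
    (W : Submodule (ZMod p) M) (hW : ∀ a : A, ∀ w ∈ W, ρ a w ∈ W)
    (hmin : ∀ U : Submodule (ZMod p) M, U ≤ W → (∀ a : A, ∀ w ∈ U, ρ a w ∈ U) → U = ⊥ ∨ U = W)
    (hnt : ∃ a : A, ∃ w ∈ W, ρ a w ≠ w) :
    r * Nat.card {a : A // ∀ w ∈ W, ρ a w = w} = Nat.card A := by
  classical
  have hbot : W ≠ ⊥ := by
    rintro rfl
    obtain ⟨a, w, hw, hne⟩ := hnt
    rw [Submodule.mem_bot] at hw
    subst hw
    simp at hne
  let θ : A →* Module.End (ZMod p) W :=
    { toFun := fun a => (ρ a).restrict (hW a)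
      map_one' := by
        ext w
        simp [LinearMap.restrict_apply]
      map_mul' := by
        intro a b
        ext w
        simp [LinearMap.restrict_apply] }
  have hθ : ∀ a (w : W), ((θ a w : W) : M) = ρ a w := fun a w => rfl
  have hθc : ∀ a b, θ a * θ b = θ b * θ a := by
    intro a b
    ext w
    show ρ a (ρ b w) = ρ b (ρ a w)
    have h1 := hcomm a b
    rw [map_mul, map_mul] at h1
    exact LinearMap.congr_fun h1 (w : M)
  let S : Set (Module.End (ZMod p) W) := Set.range θ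
  have hS : ∀ x ∈ S, ∀ y ∈ S, x * y = y * x := by
    rintro x ⟨a, rfl⟩ y ⟨b, rfl⟩
    exact hθc a b
  letI : CommRing (Algebra.adjoin (ZMod p) S) := Algebra.adjoinCommRingOfComm (ZMod p) hS
  have hmemS : ∀ a, θ a ∈ Algebra.adjoin (ZMod p) S := fun a => Algebra.subset_adjoin ⟨a, rfl⟩
  have hcen : ∀ z : Algebra.adjoin (ZMod p) S, ∀ a, ∀ w : W,
      (z : Module.End (ZMod p) W) (θ a w) = θ a ((z : Module.End (ZMod p) W) w) := by
    intro z a w
    have h1 : z * ⟨θ a, hmemS a⟩ = ⟨θ a, hmemS a⟩ * z := mul_comm _ _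
    have h2 : (z : Module.End (ZMod p) W) * θ a = θ a * (z : Module.End (ZMod p) W) :=
      congrArg Subtype.val h1
    exact LinearMap.congr_fun h2 w
  have hker : ∀ z : Algebra.adjoin (ZMod p) S, z ≠ 0 → ∀ w : W,
      (z : Module.End (ZMod p) W) w = 0 → w = 0 := by
    intro z hz w hw
    have h1 := hmin ((LinearMap.ker (z : Module.End (ZMod p) W)).map W.subtype)
      (Submodule.map_subtype_le _ _) (by
        rintro a _ ⟨v, hv, rfl⟩
        refine ⟨θ a v, ?_, rfl⟩
        have hv' : (z : Module.End (ZMod p) W) v = 0 := hv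
        show (z : Module.End (ZMod p) W) (θ a v) = 0
        rw [hcen, hv', map_zero])
    rcases h1 with h1 | h1
    · have h2 : (w : M) ∈ (LinearMap.ker (z : Module.End (ZMod p) W)).map W.subtype :=
        ⟨w, hw, rfl⟩
      rw [h1, Submodule.mem_bot] at h2
      exact Subtype.ext h2
    · exfalso
      apply hz
      apply Subtype.ext
      ext v
      have h2 : (v : M) ∈ (LinearMap.ker (z : Module.End (ZMod p) W)).map W.subtype := by
        rw [h1]; exact v.2
      obtain ⟨v', hv', hvv⟩ := h2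
      have : v' = v := Subtype.ext hvv
      subst this
      have hv'' : (z : Module.End (ZMod p) W) v' = 0 := hv'
      rw [hv'']
      rfl
  obtain ⟨w₀, hw₀W, hw₀⟩ := (Submodule.ne_bot_iff _).1 hbot
  have hnz : (⟨w₀, hw₀W⟩ : W) ≠ 0 := fun h => hw₀ (congrArg Subtype.val h)
  haveI : Nontrivial (Algebra.adjoin (ZMod p) S) := by
    refine ⟨⟨1, 0, fun h => hnz ?_⟩⟩
    have h1 := congrArg Subtype.val h
    have h2 := LinearMap.congr_fun h1 (⟨w₀, hw₀W⟩ : W)
    exact h2
  haveI : NoZeroDivisors (Algebra.adjoin (ZMod p) S) := by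
    refine ⟨fun {x y} hxy => ?_⟩
    by_contra hcon
    push Not at hcon
    obtain ⟨hx, hy⟩ := hcon
    have h1 : (x : Module.End (ZMod p) W) * (y : Module.End (ZMod p) W) = 0 :=
      congrArg Subtype.val hxy
    have h2 := LinearMap.congr_fun h1 (⟨w₀, hw₀W⟩ : W)
    exact hnz (hker y hy _ (hker x hx _ h2))
  haveI : IsDomain (Algebra.adjoin (ZMod p) S) := NoZeroDivisors.to_isDomain _
  let f : A →* (Module.End (ZMod p) W)ˣ := θ.toHomUnits
  have hf : ∀ a, ((f a : (Module.End (ZMod p) W)ˣ) : Module.End (ZMod p) W) = θ a := fun a => rfl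
  haveI : Finite f.range := inferInstance
  have hθpow : ∀ a, θ a ^ r = 1 := by
    intro a
    have h1 : ∀ n : ℕ, ∀ w : W, (((θ a ^ n) w : W) : M) = (ρ a ^ n) w := by
      intro n
      induction n with
      | zero => intro w; rfl
      | succ n ih =>
        intro w
        rw [pow_succ, pow_succ]
        show (((θ a ^ n) (θ a w) : W) : M) = (ρ a ^ n) (ρ a w)
        rw [ih]; rfl
    ext w
    rw [h1, hpow]
    rfl
  have hcard_le : Nat.card f.range ≤ r := by
    let g : f.range → {z // z ∈ Polynomial.nthRootsFinset r (1 : Algebra.adjoin (ZMod p) S)} :=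
      fun u => ⟨⟨((u : (Module.End (ZMod p) W)ˣ) : Module.End (ZMod p) W), by
        obtain ⟨a, ha⟩ := u.2
        rw [← ha]
        exact hmemS a⟩, by
        rw [Polynomial.mem_nthRootsFinset hr.pos]
        apply Subtype.ext
        obtain ⟨a, ha⟩ := u.2
        show ((u : (Module.End (ZMod p) W)ˣ) : Module.End (ZMod p) W) ^ r = 1
        rw [← ha]
        exact hθpow a⟩
    have hg : Function.Injective g := by
      intro u v huv
      apply Subtype.ext
      apply Units.ext
      exact congrArg (fun z => ((z.1 : Algebra.adjoin (ZMod p) S) : Module.End (ZMod p) W)) huv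
    refine (Nat.card_le_card_of_injective g hg).trans ?_
    rw [Nat.card_eq_fintype_card, Fintype.card_coe, Polynomial.nthRootsFinset_def]
    exact (Multiset.toFinset_card_le _).trans (Polynomial.card_nthRoots _ _)
  have hdvd : r ∣ Nat.card f.range := by
    obtain ⟨a, w, hw, hne⟩ := hnt
    have h1 : (⟨f a, ⟨a, rfl⟩⟩ : f.range) ≠ 1 := by
      intro h
      have h2 : f a = 1 := congrArg Subtype.val h
      have h3 : θ a = 1 := congrArg Units.val h2
      have h4 := LinearMap.congr_fun h3 (⟨w, hw⟩ : W)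
      exact hne (congrArg Subtype.val h4)
    have h2 : (⟨f a, ⟨a, rfl⟩⟩ : f.range) ^ r = 1 := by
      apply Subtype.ext
      apply Units.ext
      exact hθpow a
    haveI : Fact r.Prime := ⟨hr⟩
    have h3 := orderOf_eq_prime h2 h1
    rw [← h3]
    exact orderOf_dvd_natCard _
  have hcard : Nat.card f.range = r :=
    le_antisymm hcard_le (Nat.le_of_dvd Nat.card_pos hdvd)
  have hker2 : Nat.card {a : A // ∀ w ∈ W, ρ a w = w} = Nat.card f.ker := by
    apply Nat.card_congr
    refine Equiv.subtypeEquivRight (fun a => ?_)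
    rw [MonoidHom.mem_ker]
    constructor
    · intro h
      apply Units.ext
      show θ a = 1
      ext w
      exact h w w.2
    · intro h w hw
      have h3 : θ a = 1 := congrArg Units.val h
      have h4 := LinearMap.congr_fun h3 (⟨w, hw⟩ : W)
      exact congrArg Subtype.val h4
  rw [hker2, ← hcard, ← Subgroup.index_ker]
  exact Subgroup.index_mul_card _

theorem E3_main {p r : ℕ} [Fact p.Prime] (hr : r.Prime) {A : Type} [Group A] [Fintype A] {M : Type}
    [AddCommGroup M] [Module (ZMod p) M] [Finite M] (ρ : Representation (ZMod p) A M)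
    (hcop : (Nat.card A).Coprime p) (hcomm : ∀ a b : A, ρ (a * b) = ρ (b * a)) (hpow : ∀ a : A, ρ a ^ r = 1)
    (hfix : ∀ m : M, (∀ a : A, ρ a m = m) → m = 0) :
    ∀ (n : ℕ) (W : Submodule (ZMod p) M), (∀ a : A, ∀ w ∈ W, ρ a w ∈ W) →
      Module.finrank (ZMod p) W = n →
      r * ∑ a : A, Module.finrank (ZMod p) (fix (ρ a) ⊓ W : Submodule (ZMod p) M) =
        Fintype.card A * Module.finrank (ZMod p) W := by
  classical
  intro n
  induction n using Nat.strong_induction_on with
  | _ n ih =>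
  intro W hW hn
  have hFD : FiniteDimensional (ZMod p) M := Module.Finite.of_finite
  by_cases hbot : W = ⊥
  · subst hbot
    simp
  -- minimal invariant submodule
  obtain ⟨W₁, ⟨hW₁b, hW₁W, hW₁i⟩, hW₁min⟩ :=
    (wellFounded_lt (α := Submodule (ZMod p) M)).has_min
      {U : Submodule (ZMod p) M | U ≠ ⊥ ∧ U ≤ W ∧ ∀ a : A, ∀ w ∈ U, ρ a w ∈ U}
      ⟨W, hbot, le_rfl, hW⟩
  have hmin : ∀ U : Submodule (ZMod p) M, U ≤ W₁ → (∀ a : A, ∀ w ∈ U, ρ a w ∈ U) →
      U = ⊥ ∨ U = W₁ := by
    intro U hU hUi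
    by_cases hUb : U = ⊥
    · exact Or.inl hUb
    · right
      by_contra hne
      exact hW₁min U ⟨hUb, hU.trans hW₁W, hUi⟩ (lt_of_le_of_ne hU hne)
  have hnt : ∃ a : A, ∃ w ∈ W₁, ρ a w ≠ w := by
    by_contra hcon
    push Not at hcon
    apply hW₁b
    rw [Submodule.eq_bot_iff]
    intro w hw
    exact hfix w (fun a => hcon a w hw)
  have hcount := E3_count hr ρ hcomm hpow W₁ hW₁i hmin hnt
  obtain ⟨P, hP1, hP2, -, hP4⟩ := D5a ρ hcop (⊤ : Subgroup A) W₁ ⊥ (fun d _ m hm => hW₁i d m hm)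
    (fun d _ m hm => by
      rw [Submodule.mem_bot] at hm
      rw [hm, map_zero]
      exact Submodule.zero_mem _) (inf_bot_eq _)
  have hPc : ∀ a v, P (ρ a v) = ρ a (P v) := fun a v => hP4 a (Subgroup.mem_top a) v
  let W₂ : Submodule (ZMod p) M := W ⊓ LinearMap.ker P
  have hW₂i : ∀ a : A, ∀ w ∈ W₂, ρ a w ∈ W₂ := by
    rintro a w ⟨hw1, hw2⟩
    refine ⟨hW a w hw1, ?_⟩
    have hw2' : P w = 0 := hw2
    show P (ρ a w) = 0
    rw [hPc, hw2', map_zero]
  have hdisj : W₁ ⊓ W₂ = ⊥ := by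
    rw [Submodule.eq_bot_iff]
    rintro w ⟨hw1, -, hw2⟩
    have hw2' : P w = 0 := hw2
    rw [← hP2 w hw1, hw2']
  have hsum : ∀ X : Submodule (ZMod p) M, (∀ x ∈ X, P x ∈ X) →
      Module.finrank (ZMod p) (X ⊓ W : Submodule (ZMod p) M) =
        Module.finrank (ZMod p) (X ⊓ W₁ : Submodule (ZMod p) M) +
        Module.finrank (ZMod p) (X ⊓ W₂ : Submodule (ZMod p) M) := by
    intro X hX
    have h1 : X ⊓ W = (X ⊓ W₁) ⊔ (X ⊓ W₂) := by
      apply le_antisymm
      · rintro x ⟨hx1, hx2⟩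
        have h2 : x = P x + (x - P x) := by abel
        rw [h2]
        refine Submodule.add_mem_sup ⟨hX x hx1, hP1 x⟩ ⟨Submodule.sub_mem _ hx1 (hX x hx1), ?_, ?_⟩
        · exact Submodule.sub_mem _ hx2 (hW₁W (hP1 x))
        · show P (x - P x) = 0
          rw [map_sub, hP2 _ (hP1 x), sub_self]
      · refine sup_le (inf_le_inf_left _ hW₁W) (inf_le_inf_left _ inf_le_left)
    have h2 : (X ⊓ W₁) ⊓ (X ⊓ W₂) = ⊥ := by
      rw [eq_bot_iff, ← hdisj]
      exact inf_le_inf inf_le_right inf_le_right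
    have h3 := Submodule.finrank_sup_add_finrank_inf_eq (X ⊓ W₁) (X ⊓ W₂)
    rw [h2, finrank_bot, add_zero] at h3
    rw [h1, h3]
  have htop := hsum ⊤ (fun x _ => Submodule.mem_top)
  rw [top_inf_eq, top_inf_eq, top_inf_eq] at htop
  have hpos : 0 < Module.finrank (ZMod p) W₁ := by
    rw [Nat.pos_iff_ne_zero]
    intro h0
    exact hW₁b (Submodule.finrank_eq_zero.1 h0)
  have hIH := ih (Module.finrank (ZMod p) W₂) (by omega) W₂ hW₂i rfl
  have hW₁sum : r * ∑ a : A, Module.finrank (ZMod p) (fix (ρ a) ⊓ W₁ : Submodule (ZMod p) M) =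
        Fintype.card A * Module.finrank (ZMod p) W₁ := by
    have h1 : ∀ a : A, Module.finrank (ZMod p) (fix (ρ a) ⊓ W₁ : Submodule (ZMod p) M) =
        if (∀ w ∈ W₁, ρ a w = w) then Module.finrank (ZMod p) W₁ else 0 := by
      intro a
      split_ifs with h
      · have : fix (ρ a) ⊓ W₁ = W₁ := by
          apply inf_eq_right.2
          intro w hw
          rw [mem_fix]
          exact h w hw
        rw [this]
      · have h2 := hmin (fix (ρ a) ⊓ W₁) inf_le_right (by
          rintro b w ⟨hw1, hw2⟩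
          refine ⟨?_, hW₁i b w hw2⟩
          have hw1' : ρ a w = w := (mem_fix _ _).1 hw1
          show ρ b w ∈ fix (ρ a)
          rw [mem_fix]
          have h3 := hcomm a b
          rw [map_mul, map_mul] at h3
          have h4 := LinearMap.congr_fun h3 w
          have h5 : ρ a (ρ b w) = ρ b (ρ a w) := h4
          rw [h5, hw1'])
        rcases h2 with h2 | h2
        · rw [h2, finrank_bot]
        · exfalso
          apply h
          intro w hw
          rw [← h2] at hw
          exact (mem_fix _ _).1 hw.1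
    rw [Finset.sum_congr rfl (fun a _ => h1 a), Finset.sum_ite, Finset.sum_const_zero, add_zero,
      Finset.sum_const, smul_eq_mul, ← mul_assoc]
    congr 1
    rw [Nat.card_eq_fintype_card, Nat.card_eq_fintype_card, Fintype.card_subtype] at hcount
    exact hcount
  have h5 : ∑ a : A, Module.finrank (ZMod p) (fix (ρ a) ⊓ W : Submodule (ZMod p) M) =
      ∑ a : A, Module.finrank (ZMod p) (fix (ρ a) ⊓ W₁ : Submodule (ZMod p) M) +
      ∑ a : A, Module.finrank (ZMod p) (fix (ρ a) ⊓ W₂ : Submodule (ZMod p) M) := by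
    rw [← Finset.sum_add_distrib]
    refine Finset.sum_congr rfl (fun a _ => hsum (fix (ρ a)) (fun x hx => ?_))
    rw [mem_fix] at hx ⊢
    rw [← hPc, hx]
  rw [h5, htop, mul_add, mul_add, hW₁sum, hIH]



theorem E3 {p r : ℕ} [Fact p.Prime] (hr : r.Prime) {A : Type} [Group A] [Fintype A] {M : Type}
    [AddCommGroup M] [Module (ZMod p) M] [Finite M] (ρ : Representation (ZMod p) A M)
    (hcop : (Nat.card A).Coprime p) (hcomm : ∀ a b : A, ρ (a * b) = ρ (b * a)) (hpow : ∀ a : A, ρ a ^ r = 1)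
    (hfix : ∀ m : M, (∀ a : A, ρ a m = m) → m = 0) :
    r * ∑ a : A, Module.finrank (ZMod p) (fix (ρ a)) = Fintype.card A * Module.finrank (ZMod p) M := by
  have h := E3_main hr ρ hcop hcomm hpow hfix _ ⊤ (fun _ _ _ => Submodule.mem_top) rfl
  rw [finrank_top] at h
  rw [← h]
  congr 1
  refine Finset.sum_congr rfl (fun a _ => ?_)
  rw [inf_top_eq]

end Pool.Agent.Helper453.SR.NE3
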