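import Pool.Agent.Helper453.SR.Defs
import Pool.Agent.Helper453.SR.D6
import Pool.Agent.Helper453.SR.E1
import Pool.Agent.Helper453.SR.E2
import Pool.Agent.Helper453.SR.E3

set_option autoImplicit false
open CategoryTheory MonoidalCategory

namespace Pool.Agent.Helper453.SR.NE4

open Pool.Agent.Helper453.SR Pool.Agent.Helper453.SR.ND6 Pool.Agent.Helper453.SR.NE1 Pool.Agent.Helper453.SR.NE2 Pool.Agent.Helper453.SR.NE3

















section aux
variable {p : ℕ} {K V : Type} [Group K] [Finite K] [AddCommGroup V] [Module (ZMod p) V]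
  (ρ : Representation (ZMod p) K V)

theorem E4_inv_pow (k : K) : k⁻¹ = k ^ (orderOf k - 1) := by
  have h : 0 < orderOf k := orderOf_pos k
  symm
  apply eq_inv_of_mul_eq_one_left
  rw [← pow_succ, Nat.sub_add_cancel h, pow_orderOf_eq_one]

/-- the stabilizer of a submodule -/
def E4_stab (W : Submodule (ZMod p) V) : Subgroup K where
  carrier := {k | ∀ m ∈ W, ρ k m ∈ W}
  mul_mem' := by
    intro a b ha hb m hm
    rw [map_mul]
    exact ha _ (hb m hm)
  one_mem' := by
    intro m hm
    rw [map_one]; exact hm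
  inv_mem' := by
    intro k hk m hm
    rw [E4_inv_pow k]
    have : ∀ j : ℕ, ∀ m ∈ W, ρ (k ^ j) m ∈ W := by
      intro j
      induction j with
      | zero => intro m hm; rw [pow_zero, map_one]; exact hm
      | succ j ih => intro m hm; rw [pow_succ, map_mul]; exact ih _ (hk m hm)
    exact this _ m hm

theorem E4_mem_stab (W : Submodule (ZMod p) V) (k : K) :
    k ∈ E4_stab ρ W ↔ ∀ m ∈ W, ρ k m ∈ W := Iff.rfl

/-- the pointwise stabilizer of a submodule -/
def E4_triv (M : Submodule (ZMod p) V) : Subgroup K where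
  carrier := {k | ∀ m ∈ M, ρ k m = m}
  mul_mem' := by
    intro a b ha hb m hm
    rw [map_mul]
    show ρ a (ρ b m) = m
    rw [hb m hm, ha m hm]
  one_mem' := by
    intro m hm
    rw [map_one]; rfl
  inv_mem' := by
    intro k hk m hm
    have h : ρ k m = m := hk m hm
    calc ρ k⁻¹ m = ρ k⁻¹ (ρ k m) := by rw [h]
      _ = m := by simp

theorem E4_mem_triv (M : Submodule (ZMod p) V) (k : K) :
    k ∈ E4_triv ρ M ↔ ∀ m ∈ M, ρ k m = m := Iff.rfl

/-- the elements of the stabilizer commuting with `g` on `M` -/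
def E4_com (M : Submodule (ZMod p) V) (g : K) (hg : g ∈ E4_stab ρ M) : Subgroup K where
  carrier := {k | k ∈ E4_stab ρ M ∧ ∀ m ∈ M, ρ g (ρ k m) = ρ k (ρ g m)}
  mul_mem' := by
    rintro a b ⟨ha1, ha2⟩ ⟨hb1, hb2⟩
    refine ⟨Subgroup.mul_mem _ ha1 hb1, fun m hm => ?_⟩
    rw [map_mul]
    show ρ g (ρ a (ρ b m)) = ρ a (ρ b (ρ g m))
    rw [ha2 _ (hb1 m hm), hb2 m hm]
  one_mem' := by
    refine ⟨Subgroup.one_mem _, fun m hm => ?_⟩
    rw [map_one]; rfl
  inv_mem' := by
    rintro k ⟨hk1, hk2⟩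
    have hk1' : k⁻¹ ∈ E4_stab ρ M := Subgroup.inv_mem _ hk1
    refine ⟨hk1', fun m hm => ?_⟩
    have h := hk2 _ (hk1' m hm)
    have e : ρ k (ρ k⁻¹ m) = m := by simp
    rw [e] at h
    rw [h]
    simp

theorem E4_mem_com (M : Submodule (ZMod p) V) (g : K) (hg : g ∈ E4_stab ρ M) (k : K) :
    k ∈ E4_com ρ M g hg ↔ k ∈ E4_stab ρ M ∧ ∀ m ∈ M, ρ g (ρ k m) = ρ k (ρ g m) := Iff.rfl

/-- commuting generators on `M` commute everywhere on `M` -/
theorem E4_comm_closure (M : Submodule (ZMod p) V) (x y : K) (hx : x ∈ E4_stab ρ M)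
    (hy : y ∈ E4_stab ρ M) (h : ∀ m ∈ M, ρ x (ρ y m) = ρ y (ρ x m)) :
    ∀ a ∈ Subgroup.closure {x, y}, ∀ b ∈ Subgroup.closure {x, y}, ∀ m ∈ M,
      ρ a (ρ b m) = ρ b (ρ a m) := by
  have hcl : Subgroup.closure {x, y} ≤ E4_stab ρ M := by
    rw [Subgroup.closure_le]
    rintro z (rfl | rfl)
    · exact hx
    · exact hy
  have h1 : Subgroup.closure {x, y} ≤ E4_com ρ M x hx := by
    rw [Subgroup.closure_le]
    rintro z (rfl | rfl)
    · exact ⟨hx, fun m _ => rfl⟩
    · exact ⟨hy, h⟩
  have h2 : Subgroup.closure {x, y} ≤ E4_com ρ M y hy := by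
    rw [Subgroup.closure_le]
    rintro z (rfl | rfl)
    · exact ⟨hx, fun m hm => (h m hm).symm⟩
    · exact ⟨hy, fun m _ => rfl⟩
  intro a ha b hb
  have h3 : Subgroup.closure {x, y} ≤ E4_com ρ M a (hcl ha) := by
    rw [Subgroup.closure_le]
    rintro z (rfl | rfl)
    · exact ⟨hx, fun m hm => ((h1 ha).2 m hm).symm⟩
    · exact ⟨hy, fun m hm => ((h2 ha).2 m hm).symm⟩
  exact (h3 hb).2

end aux

theorem E4_odd_order {K : Type} [Group K] (q n : ℕ) (hq : q.Prime) (hq2 : q ≠ 2) (g : K)
    (h : g ^ (q ^ n) = 1) : Odd (orderOf g) := by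
  have h1 : orderOf g ∣ q ^ n := orderOf_dvd_of_pow_eq_one h
  have h2 : Odd (q ^ n) := (hq.odd_of_ne_two hq2).pow
  exact h2.of_dvd_nat h1

theorem E4 {p : ℕ} [Fact p.Prime] (hp2 : p ≠ 2) {K V : Type} [Group K] [Finite K] [AddCommGroup V]
    [Module (ZMod p) V] [Finite V]
    (ρ : Representation (ZMod p) K V) (hinj : Function.Injective ρ) (hcop : (Nat.card K).Coprime p)
    (hJ : JProp ρ) : CEN K := by
  classical
  intro r s hr hs hr2 hs2 hrs S hS y hy hn
  by_contra hcon
  have hnc : ∃ a ∈ S, y * a ≠ a * y := by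
    by_contra h
    apply hcon
    intro a ha
    by_contra h'
    exact h ⟨a, ha, h'⟩
  obtain ⟨R, C, hRS, hCR, hyR, hCmem, hCneR, hCcen, hcomC, hpowC, hgen, hT⟩ :=
    E1 r s hr hs hrs S hS y hy hn hnc
  obtain ⟨k1, hk1⟩ := hy
  have hn0 : ∃ n, n ∈ R ∧ n ∉ C := by
    by_contra h
    apply hCneR
    apply le_antisymm hCR
    intro a ha
    by_contra h'
    exact h ⟨a, ha, h'⟩
  obtain ⟨n0, hn0R, hn0C⟩ := hn0
  have hRne : R ≠ ⊥ := by
    intro h
    rw [h, Subgroup.mem_bot] at hn0R
    rw [hn0R] at hn0C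
    exact hn0C C.one_mem
  have hRD : R ≤ R ⊔ Subgroup.zpowers y := le_sup_left
  have hyD : y ∈ R ⊔ Subgroup.zpowers y :=
    (le_sup_right : Subgroup.zpowers y ≤ R ⊔ Subgroup.zpowers y) (Subgroup.mem_zpowers y)
  obtain ⟨M, hMD, hMirr, a0, ha0R, m0, hm0M, ha0m0⟩ := E2 ρ hcop hinj _ R hRD hRne
  have hpow : ∀ a ∈ R, ∃ k, a ^ (r ^ k) = 1 := by
    intro a ha
    obtain ⟨k, hk⟩ := hS ⟨a, hRS ha⟩
    refine ⟨k, ?_⟩
    have := congrArg Subtype.val hk
    simpa using this
  have hM0 : 0 < Module.finrank (ZMod p) M := by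
    haveI : Nontrivial M := by
      refine ⟨⟨⟨m0, hm0M⟩, 0, ?_⟩⟩
      intro h
      have h' : m0 = 0 := congrArg Subtype.val h
      apply ha0m0
      rw [h', map_zero]
    exact Module.finrank_pos
  -- general facts for a generating pair
  have pair : ∀ x y' : K, x ∈ R ⊔ Subgroup.zpowers y → y' ∈ R ⊔ Subgroup.zpowers y →
      R ≤ Subgroup.closure {x, y'} → y ∈ Subgroup.closure {x, y'} → Odd (orderOf x) →
      Odd (orderOf y') →
      3 * Module.finrank (ZMod p) ↥(M ⊓ fix (ρ x)) = Module.finrank (ZMod p) M ∧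
      3 * Module.finrank (ZMod p) ↥(M ⊓ fix (ρ y')) = Module.finrank (ZMod p) M := by
    intro x y' hx hy' hR hyc hxo hyo
    have hDcl : R ⊔ Subgroup.zpowers y ≤ Subgroup.closure {x, y'} := by
      refine sup_le hR ?_
      rw [Subgroup.zpowers_le]
      exact hyc
    refine D6 hp2 ρ hcop hJ x y' hxo hyo M (hMD x hx) (hMD y' hy') ?_ ?_
    · intro W hWM hWx hWy
      refine hMirr W hWM ?_
      have : Subgroup.closure {x, y'} ≤ E4_stab ρ W := by
        rw [Subgroup.closure_le]
        rintro z (rfl | rfl)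
        · exact hWx
        · exact hWy
      intro d hd
      exact this (hDcl hd)
    · by_contra hcomm
      have hc : ∀ m ∈ M, ρ x (ρ y' m) = ρ y' (ρ x m) := by
        intro m hm
        by_contra h'
        exact hcomm ⟨m, hm, h'⟩
      have hc2 := E4_comm_closure ρ M x y' (hMD x hx) (hMD y' hy') hc
      have hRT : R ≤ E4_triv ρ M := by
        apply hT
        intro a ha m hm
        have haM : ∀ m ∈ M, ρ a⁻¹ m ∈ M := hMD _ (hRD (R.inv_mem ha))
        have hyM : ∀ m ∈ M, ρ y⁻¹ m ∈ M := hMD _ (Subgroup.inv_mem _ hyD)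
        have h1 := hc2 y hyc a (hR ha) (ρ y⁻¹ (ρ a⁻¹ m)) (hyM _ (haM m hm))
        have e : ρ (y * a * y⁻¹ * a⁻¹) m = ρ y (ρ a (ρ y⁻¹ (ρ a⁻¹ m))) := by
          simp only [map_mul]; rfl
        rw [e, h1]
        simp
      exact ha0m0 (hRT ha0R m0 hm0M)
  have yodd : Odd (orderOf y) := E4_odd_order s k1 hs hs2 y hk1
  have aodd : ∀ a ∈ R, Odd (orderOf a) := by
    intro a ha
    obtain ⟨k, hk⟩ := hpow a ha
    exact E4_odd_order r k hr hr2 a hk
  have basic : ∀ n ∈ R, n ∉ C →
      3 * Module.finrank (ZMod p) ↥(M ⊓ fix (ρ n)) = Module.finrank (ZMod p) M := by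
    intro n hnR hnC
    exact (pair n y (hRD hnR) hyD (hgen n hnR hnC)
      (Subgroup.subset_closure (by simp)) (aodd n hnR) yodd).1
  by_cases hcase : ∃ c ∈ C, ∃ m ∈ M, ρ c m ≠ m
  · obtain ⟨c, hcC, m1, hm1, hcm1⟩ := hcase
    have hcR : c ∈ R := hCR hcC
    have hyc : y * c = c * y := (hCmem c hcR).1 hcC
    have hDcen : R ⊔ Subgroup.zpowers y ≤ Subgroup.centralizer {c} := by
      refine sup_le ?_ ?_
      · intro a ha
        rw [Subgroup.mem_centralizer_singleton_iff]
        exact (hCcen c hcC a ha).symm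
      · rw [Subgroup.zpowers_le, Subgroup.mem_centralizer_singleton_iff]
        exact hyc
    have hW : M ⊓ fix (ρ c) = ⊥ := by
      rcases hMirr (M ⊓ fix (ρ c)) inf_le_left (by
        intro d hd m hm
        rw [Submodule.mem_inf, mem_fix] at hm ⊢
        refine ⟨hMD d hd m hm.1, ?_⟩
        have hdc : d * c = c * d := Subgroup.mem_centralizer_singleton_iff.1 (hDcen hd)
        calc ρ c (ρ d m) = ρ (c * d) m := by rw [map_mul]; rfl
          _ = ρ (d * c) m := by rw [hdc]
          _ = ρ d (ρ c m) := by rw [map_mul]; rfl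
          _ = ρ d m := by rw [hm.2]) with h | h
      · exact h
      · exfalso
        apply hcm1
        have : m1 ∈ M ⊓ fix (ρ c) := by rw [h]; exact hm1
        exact (mem_fix _ _).1 this.2
    obtain ⟨k2, hk2⟩ := hpow c hcR
    have hcomm : Commute y c := hyc
    have hcz : c ∈ Subgroup.zpowers (y * c) := by
      have hcp : Nat.Coprime (s ^ k1) (r ^ k2) :=
        Nat.Coprime.pow _ _ ((Nat.coprime_primes hs hr).2 (Ne.symm hrs))
      have e1 : (y * c) ^ (s ^ k1) = c ^ (s ^ k1) := by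
        rw [hcomm.mul_pow, hk1, one_mul]
      have hb := Nat.gcd_eq_gcd_ab (s ^ k1) (r ^ k2)
      rw [hcp.gcd_eq_one] at hb
      refine ⟨((s ^ k1 : ℕ) : ℤ) * Nat.gcdA (s ^ k1) (r ^ k2), ?_⟩
      show (y * c) ^ (((s ^ k1 : ℕ) : ℤ) * Nat.gcdA (s ^ k1) (r ^ k2)) = c
      rw [zpow_mul, zpow_natCast, e1, ← zpow_natCast, ← zpow_mul]
      have e2 : c ^ (((r ^ k2 : ℕ) : ℤ) * Nat.gcdB (s ^ k1) (r ^ k2)) = 1 := by
        rw [zpow_mul, zpow_natCast, hk2, one_zpow]
      calc c ^ (((s ^ k1 : ℕ) : ℤ) * Nat.gcdA (s ^ k1) (r ^ k2))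
          = c ^ (((s ^ k1 : ℕ) : ℤ) * Nat.gcdA (s ^ k1) (r ^ k2)) *
            c ^ (((r ^ k2 : ℕ) : ℤ) * Nat.gcdB (s ^ k1) (r ^ k2)) := by rw [e2, mul_one]
        _ = c ^ (1 : ℤ) := by rw [← zpow_add, ← hb]; simp
        _ = c := zpow_one c
    have hzle : Subgroup.zpowers (y * c) ≤ Subgroup.closure {n0, y * c} := by
      rw [Subgroup.zpowers_le]
      exact Subgroup.subset_closure (by simp)
    have hyz : y ∈ Subgroup.zpowers (y * c) := by
      have := Subgroup.mul_mem _ (Subgroup.mem_zpowers (y * c)) (Subgroup.inv_mem _ hcz)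
      simpa using this
    have hRle : R ≤ Subgroup.closure {n0, y * c} := by
      refine (hgen n0 hn0R hn0C).trans ?_
      rw [Subgroup.closure_le]
      rintro z (rfl | rfl)
      · exact Subgroup.subset_closure (by simp)
      · exact hzle hyz
    have hyco : Odd (orderOf (y * c)) := by
      have h1 : (y * c) ^ (s ^ k1 * r ^ k2) = 1 := by
        rw [hcomm.mul_pow, pow_mul, hk1, one_pow, mul_comm, pow_mul, hk2, one_pow, one_mul]
      have h2 : Odd (s ^ k1 * r ^ k2) :=
        ((hs.odd_of_ne_two hs2).pow).mul ((hr.odd_of_ne_two hr2).pow)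
      exact h2.of_dvd_nat (orderOf_dvd_of_pow_eq_one h1)
    have hfin := (pair n0 (y * c) (hRD hn0R) (Subgroup.mul_mem _ hyD (hRD hcR)) hRle (hzle hyz)
      (aodd n0 hn0R) hyco).2
    have hbot : M ⊓ fix (ρ (y * c)) = ⊥ := by
      rw [eq_bot_iff, ← hW]
      intro u hu
      rw [Submodule.mem_inf, mem_fix] at hu ⊢
      refine ⟨hu.1, ?_⟩
      have hsub : Subgroup.zpowers (y * c) ≤ E4_triv ρ (Submodule.span (ZMod p) {u}) := by
        rw [Subgroup.zpowers_le]
        intro m hm
        obtain ⟨a, rfl⟩ := Submodule.mem_span_singleton.1 hm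
        rw [map_smul, hu.2]
      exact hsub hcz u (Submodule.mem_span_singleton_self u)
    rw [hbot, finrank_bot] at hfin
    omega
  · have hctriv : ∀ c ∈ C, ∀ m ∈ M, ρ c m = m := by
      intro c hc m hm
      by_contra h'
      exact hcase ⟨c, hc, m, hm, h'⟩
    letI : Fintype ↥R := Fintype.ofFinite _
    let ρR : Representation (ZMod p) ↥R ↥M :=
      { toFun := fun a => (ρ (a : K)).restrict (fun m hm => hMD a (hRD a.2) m hm)
        map_one' := by
          ext m
          simp [LinearMap.restrict_apply]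
        map_mul' := by
          intro a b
          ext m
          simp [LinearMap.restrict_apply] }
    have hρR : ∀ (a : ↥R) (m : ↥M), ((ρR a m : ↥M) : V) = ρ (a : K) (m : V) := by
      intro a m
      rfl
    have hcopR : (Nat.card ↥R).Coprime p :=
      Nat.Coprime.coprime_dvd_left (Subgroup.card_subgroup_dvd_card R) hcop
    have hyinv : ∀ a ∈ R, y⁻¹ * a * y ∈ R := by
      intro a ha
      have : ∀ j : ℕ, y ^ j * a * (y ^ j)⁻¹ ∈ R := by
        intro j
        induction j with
        | zero => simpa using ha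
        | succ j ih =>
          have e : y ^ (j + 1) * a * (y ^ (j + 1))⁻¹ = y * (y ^ j * a * (y ^ j)⁻¹) * y⁻¹ := by
            rw [pow_succ']; group
          rw [e]
          exact hyR _ ih
      have h1 := this (orderOf y - 1)
      rw [← E4_inv_pow, inv_inv] at h1
      exact h1
    have hfixbot : ∀ m ∈ M, (∀ a ∈ R, ρ a m = m) → m = 0 := by
      let F : Submodule (ZMod p) V :=
        { carrier := {m | m ∈ M ∧ ∀ a ∈ R, ρ a m = m}
          add_mem' := by
            rintro u v ⟨hu1, hu2⟩ ⟨hv1, hv2⟩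
            refine ⟨M.add_mem hu1 hv1, fun a ha => ?_⟩
            rw [map_add, hu2 a ha, hv2 a ha]
          zero_mem' := ⟨M.zero_mem, fun a _ => map_zero _⟩
          smul_mem' := by
            rintro t u ⟨hu1, hu2⟩
            refine ⟨M.smul_mem t hu1, fun a ha => ?_⟩
            rw [map_smul, hu2 a ha] }
      have hFM : F ≤ M := fun m hm => hm.1
      have hFst : R ⊔ Subgroup.zpowers y ≤ E4_stab ρ F := by
        refine sup_le ?_ ?_
        · rintro a ha m ⟨hm1, hm2⟩
          rw [hm2 a ha]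
          exact ⟨hm1, hm2⟩
        · rw [Subgroup.zpowers_le]
          rintro m ⟨hm1, hm2⟩
          refine ⟨hMD y hyD m hm1, fun a ha => ?_⟩
          have e : ρ a (ρ y m) = ρ y (ρ (y⁻¹ * a * y) m) := by
            have : a * y = y * (y⁻¹ * a * y) := by group
            calc ρ a (ρ y m) = ρ (a * y) m := by rw [map_mul]; rfl
              _ = ρ (y * (y⁻¹ * a * y)) m := by rw [← this]
              _ = ρ y (ρ (y⁻¹ * a * y) m) := by rw [map_mul ρ y]; rfl
          rw [e, hm2 _ (hyinv a ha)]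
      rcases hMirr F hFM (fun d hd => hFst hd) with h | h
      · intro m hm hm2
        have : m ∈ F := ⟨hm, hm2⟩
        rw [h, Submodule.mem_bot] at this
        exact this
      · exfalso
        have : m0 ∈ F := by rw [h]; exact hm0M
        exact ha0m0 (this.2 a0 ha0R)
    have hE3 := E3 hr ρR hcopR (by
        intro a b
        ext m
        rw [hρR, hρR]
        have hc : (a * b * a⁻¹ * b⁻¹ : K) ∈ C := hcomC a a.2 b b.2
        have e : ((a * b : ↥R) : K) = (a * b * a⁻¹ * b⁻¹ : K) * ((b * a : ↥R) : K) := by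
          push_cast; group
        rw [e, map_mul]
        show ρ _ (ρ ((b * a : ↥R) : K) (m : V)) = _
        exact hctriv _ hc _ (hMD _ (hRD (b * a).2) _ m.2)) (by
        intro a
        rw [← map_pow]
        ext m
        rw [hρR]
        show ρ ((a ^ r : ↥R) : K) (m : V) = (m : V)
        push_cast
        exact hctriv _ (hpowC a a.2) _ m.2) (by
        intro m hm
        apply Subtype.ext
        refine hfixbot m m.2 ?_
        intro a ha
        have := congrArg Subtype.val (hm ⟨a, ha⟩)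
        rwa [hρR] at this)
    have hrank : ∀ a : ↥R, Module.finrank (ZMod p) (fix (ρR a)) =
        Module.finrank (ZMod p) ↥(M ⊓ fix (ρ (a : K))) := by
      intro a
      have e : Submodule.map M.subtype (fix (ρR a)) = M ⊓ fix (ρ (a : K)) := by
        ext v
        rw [Submodule.mem_map, Submodule.mem_inf, mem_fix]
        constructor
        · rintro ⟨m, hm, rfl⟩
          rw [mem_fix] at hm
          refine ⟨m.2, ?_⟩
          have := congrArg Subtype.val hm
          rwa [hρR] at this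
        · rintro ⟨h1, h2⟩
          refine ⟨⟨v, h1⟩, ?_, rfl⟩
          rw [mem_fix]
          apply Subtype.ext
          rw [hρR]
          exact h2
      rw [← e, Submodule.finrank_map_subtype_eq]
    have hge : ∀ a : ↥R, Module.finrank (ZMod p) M ≤ 3 * Module.finrank (ZMod p) (fix (ρR a)) := by
      intro a
      rw [hrank a]
      by_cases ha : (a : K) ∈ C
      · have e : M ⊓ fix (ρ (a : K)) = M := by
          rw [inf_eq_left]
          intro m hm
          rw [mem_fix]
          exact hctriv _ ha m hm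
        rw [e]; omega
      · rw [basic a a.2 ha]
    have hlt : ∑ _a : ↥R, Module.finrank (ZMod p) M <
        ∑ a : ↥R, 3 * Module.finrank (ZMod p) (fix (ρR a)) := by
      refine Finset.sum_lt_sum (fun a _ => hge a) ⟨1, Finset.mem_univ _, ?_⟩
      rw [hrank 1]
      have e : M ⊓ fix (ρ ((1 : ↥R) : K)) = M := by
        rw [inf_eq_left]
        intro m hm
        rw [mem_fix]
        exact hctriv _ C.one_mem m hm
      rw [e]; omega
    rw [Finset.sum_const, Finset.card_univ, smul_eq_mul, ← Finset.mul_sum] at hlt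
    have hr3 : 3 ≤ r := by
      have := hr.two_le
      omega
    have h5 : r * (Fintype.card ↥R * Module.finrank (ZMod p) M) <
        r * (3 * ∑ a : ↥R, Module.finrank (ZMod p) (fix (ρR a))) :=
      Nat.mul_lt_mul_of_pos_left hlt (by omega)
    have h6 : r * (3 * ∑ a : ↥R, Module.finrank (ZMod p) (fix (ρR a))) =
        3 * (Fintype.card ↥R * Module.finrank (ZMod p) M) := by
      rw [← hE3]; ring
    rw [h6] at h5
    have h7 : 3 * (Fintype.card ↥R * Module.finrank (ZMod p) M) ≤
        r * (Fintype.card ↥R * Module.finrank (ZMod p) M) := Nat.mul_le_mul_right _ hr3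
    omega

end Pool.Agent.Helper453.SR.NE4
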