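import Pool.Agent.Helper453.SR.Defs

set_option autoImplicit false
open CategoryTheory MonoidalCategory

namespace Pool.Agent.Helper453.SR.NF1

open Pool.Agent.Helper453.SR 




theorem cen_sub {K : Type} [Group K] (h : CEN K) (K' : Subgroup K) : CEN K' := by
  intro r s hr hs hr2 hs2 hrs S hS y hy hyS a ha
  have h1 := h r s hr hs hr2 hs2 hrs (S.map K'.subtype) (hS.map K'.subtype) (y : K) (by
    obtain ⟨n, hn⟩ := hy
    exact ⟨n, by rw [← Subgroup.coe_pow, hn, Subgroup.coe_one]⟩) (by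
    rintro _ ⟨b, hb, rfl⟩
    exact ⟨y * b * y⁻¹, hyS b hb, by simp⟩) (a : K) ⟨a, ha, rfl⟩
  exact Subtype.ext h1

theorem F1_normal {K L : Type} [Group K] [Group L] [Finite K] (f : K →* L)
    (hf : Function.Surjective f) (h : CEN K) (r s : ℕ) (hr : r.Prime) (hs : s.Prime) (hr2 : r ≠ 2)
    (hs2 : s ≠ 2) (hrs : r ≠ s) (S : Subgroup L) [S.Normal] (hS : IsPGroup r S) (x : L)
    (hx : ∃ n, x ^ (s ^ n) = 1) : ∀ a ∈ S, x * a = a * x := by
  haveI : Fact r.Prime := ⟨hr⟩
  obtain ⟨n0, hn0⟩ := hx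
  set N : Subgroup K := S.comap f with hN
  haveI : N.Normal := Subgroup.Normal.comap inferInstance f
  obtain ⟨P⟩ : Nonempty (Sylow r N) := inferInstance
  have hfr := Sylow.normalizer_sup_eq_top P
  obtain ⟨xh, hxh⟩ := hf x
  have hmem : xh ∈ ((Subgroup.normalizer ((P : Subgroup N).map N.subtype : Set K) ⊔ N :
      Subgroup K) : Set K) := by
    rw [hfr]; trivial
  rw [Subgroup.mul_normal] at hmem
  obtain ⟨n, hn, u, hu, hnu⟩ := Set.mem_mul.1 hmem
  set Q : Subgroup K := (P : Subgroup N).map N.subtype with hQ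
  have hg : Function.Surjective (f.subgroupComap S) :=
    MonoidHom.subgroupComap_surjective_of_surjective f S hf
  have hQS : ∀ a ∈ S, ∃ b ∈ Q, f b = a := by
    intro a ha
    have htop : (⊤ : Subgroup S) = (P.mapSurjective hg : Subgroup S) :=
      (P.mapSurjective hg).is_maximal' (hS.to_subgroup ⊤) le_top
    have h1 : (⟨a, ha⟩ : S) ∈ (P.mapSurjective hg : Subgroup S) := by
      rw [← htop]; trivial
    rw [Sylow.coe_mapSurjective] at h1
    obtain ⟨b, hb, hba⟩ := h1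
    refine ⟨b, ⟨b, hb, rfl⟩, ?_⟩
    exact congrArg Subtype.val hba
  -- the exponent
  have ho : orderOf n ≠ 0 := (orderOf_pos n).ne'
  obtain ⟨c, m, hm, hom⟩ := Nat.exists_eq_pow_mul_and_not_dvd ho s hs.ne_one
  set A := max c n0 with hA
  have hco : Nat.Coprime (s ^ A) m := Nat.Coprime.pow_left A ((Nat.Prime.coprime_iff_not_dvd hs).2 hm)
  obtain ⟨j, hj1, hj2⟩ := Nat.chineseRemainder hco 1 0
  have hmj : m ∣ j := (Nat.modEq_zero_iff_dvd).1 hj2
  have hyc : (n ^ j) ^ (s ^ c) = 1 := by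
    rw [← pow_mul]
    apply orderOf_dvd_iff_pow_eq_one.1
    rw [hom, mul_comm j]
    exact Nat.mul_dvd_mul_left _ hmj
  have hyA : (n ^ j) ^ (s ^ A) = 1 := by
    obtain ⟨k, hk⟩ : s ^ c ∣ s ^ A := pow_dvd_pow s (le_max_left _ _)
    rw [hk, pow_mul, hyc, one_pow]
  have hxA : x ^ (s ^ A) = 1 := by
    obtain ⟨k, hk⟩ : s ^ n0 ∣ s ^ A := pow_dvd_pow s (le_max_right _ _)
    rw [hk, pow_mul, hn0, one_pow]
  have hxj : x ^ j = x := by
    have h1 : x ^ j = x ^ 1 := by
      rw [pow_eq_pow_iff_modEq]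
      exact hj1.of_dvd (orderOf_dvd_iff_pow_eq_one.2 hxA)
    rw [h1, pow_one]
  have hnj : n ^ j ∈ Subgroup.normalizer (Q : Set K) := pow_mem hn j
  have hcomm : ∀ b ∈ Q, n ^ j * b = b * n ^ j := by
    refine h r s hr hs hr2 hs2 hrs Q ?_ (n ^ j) ⟨c, hyc⟩ ?_
    · exact P.isPGroup'.map N.subtype
    · intro a ha
      exact (Subgroup.mem_normalizer_iff.1 hnj a).1 ha
  set w := f (n ^ j) with hw
  have hwS : ∀ a ∈ S, w * a = a * w := by
    intro a ha
    obtain ⟨b, hb, rfl⟩ := hQS a ha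
    rw [hw, ← map_mul, ← map_mul, hcomm b hb]
  have hfu : f u ∈ S := hu
  have hquot : (QuotientGroup.mk x : L ⧸ S) = QuotientGroup.mk w := by
    have h1 : (QuotientGroup.mk (f n) : L ⧸ S) = QuotientGroup.mk x := by
      rw [QuotientGroup.eq, ← hxh, ← hnu, map_mul]
      simpa using hfu
    rw [hw, map_pow, QuotientGroup.mk_pow, h1, ← QuotientGroup.mk_pow, hxj]
  rw [QuotientGroup.eq] at hquot
  set t := x⁻¹ * w with ht
  have hxw : x = w * t⁻¹ := by rw [ht]; group
  have hct : Commute w t := hwS t hquot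
  have htA : t ^ (s ^ A) = 1 := by
    have h1 : x ^ (s ^ A) = w ^ (s ^ A) * (t⁻¹) ^ (s ^ A) := by
      rw [← (hct.inv_right).mul_pow, ← hxw]
    have h2 : w ^ (s ^ A) = 1 := by rw [hw, ← map_pow, hyA, map_one]
    rw [hxA, h2, one_mul, inv_pow] at h1
    exact inv_eq_one.1 h1.symm
  obtain ⟨k, hk⟩ := hS ⟨t, hquot⟩
  have htk : t ^ (r ^ k) = 1 := congrArg Subtype.val hk
  have ht1 : t = 1 := by
    rw [← orderOf_eq_one_iff]
    exact Nat.eq_one_of_dvd_coprimes
      (Nat.Coprime.pow A k ((Nat.coprime_primes hs hr).2 (Ne.symm hrs)))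
      (orderOf_dvd_iff_pow_eq_one.2 htA) (orderOf_dvd_iff_pow_eq_one.2 htk)
  have hxw' : x = w := by rw [hxw, ht1]; simp
  rw [hxw']
  exact hwS



theorem F1 {K L : Type} [Group K] [Group L] [Finite K] (f : K →* L) (hf : Function.Surjective f)
    (h : CEN K) : CEN L := by
  haveI : Finite L := Finite.of_surjective f hf
  intro r s hr hs hr2 hs2 hrs S hS x hx hxS a ha
  set M : Subgroup L := Subgroup.normalizer (S : Set L) with hM
  have hSM : S ≤ M := Subgroup.le_normalizer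
  have hxM : x ∈ M := Subgroup.mem_normalizer_fintype hxS
  have hf' : Function.Surjective (f.subgroupComap M) :=
    MonoidHom.subgroupComap_surjective_of_surjective f M hf
  haveI : (S.subgroupOf M).Normal := Subgroup.normal_in_normalizer
  have hS' : IsPGroup r (S.subgroupOf M) := hS.comap_subtype
  have key := F1_normal (f.subgroupComap M) hf' (cen_sub h (M.comap f)) r s hr hs hr2 hs2 hrs
    (S.subgroupOf M) hS' ⟨x, hxM⟩ (by
      obtain ⟨n, hn⟩ := hx
      exact ⟨n, Subtype.ext hn⟩) ⟨a, hSM ha⟩ ha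
  exact congrArg Subtype.val key

end Pool.Agent.Helper453.SR.NF1
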