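import Pool.Agent.Helper453.SR.Defs

set_option autoImplicit false
open CategoryTheory MonoidalCategory

namespace Pool.Agent.Helper453.SR.NG6

open Pool.Agent.Helper453.SR 






theorem G6_aux {G H : Type} [Group G] [Group H] (π : G →* H) (A B : Subgroup H)
    (hA : A.Normal) (hA' : (A.comap π).Normal)
    (h : Group.IsNilpotent (↥B ⧸ A.subgroupOf B)) :
    Group.IsNilpotent (↥(B.comap π) ⧸ (A.comap π).subgroupOf (B.comap π)) := by
  have hle : (A.comap π).subgroupOf (B.comap π) ≤ (A.subgroupOf B).comap (π.subgroupComap B) := by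
    intro x hx
    exact hx
  refine Subgroup.isNilpotent_of_ker_le_center
    (QuotientGroup.map ((A.comap π).subgroupOf (B.comap π)) (A.subgroupOf B)
      (π.subgroupComap B) hle) ?_
  have hker : (QuotientGroup.map ((A.comap π).subgroupOf (B.comap π)) (A.subgroupOf B)
      (π.subgroupComap B) hle).ker = ⊥ := by
    rw [MonoidHom.ker_eq_bot_iff, injective_iff_map_eq_one]
    intro a ha
    obtain ⟨x, rfl⟩ := QuotientGroup.mk_surjective a
    rw [QuotientGroup.map_mk, QuotientGroup.eq_one_iff] at ha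
    rw [QuotientGroup.eq_one_iff]
    exact ha
  rw [hker]
  exact bot_le

/-- the shifted chain -/
def G6_chain {G : Type} [Group G] (N₁ : Subgroup G) [N₁.Normal] (Q : ℕ → Subgroup (G ⧸ N₁)) :
    ℕ → Subgroup G
  | 0 => ⊥
  | i + 1 => (Q i).comap (QuotientGroup.mk' N₁)

theorem G6 (n : ℕ) {G : Type} [Group G] (h : NilLen n G) :
    ∃ (N : ℕ → Subgroup G) (_ : ∀ i, (N i).Normal), N 0 = ⊥ ∧ N n = ⊤ ∧
      ∀ i, N i ≤ N (i + 1) ∧ Group.IsNilpotent (↥(N (i + 1)) ⧸ (N i).subgroupOf (N (i + 1))) := by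
  induction n generalizing G with
  | zero =>
    have hs : Subsingleton G := h
    refine ⟨fun _ => ⊤, fun _ => inferInstance, Subsingleton.elim _ _, rfl, fun i => ⟨le_rfl, ?_⟩⟩
    exact Group.isNilpotent_of_subsingleton
  | succ n ih =>
    obtain ⟨N₁, hN₁, hnil, hl⟩ := h
    obtain ⟨Q, hQ, hQ0, hQn, hQs⟩ := ih hl
    have hnor : ∀ i, (G6_chain N₁ Q i).Normal := by
      intro i
      cases i with
      | zero => exact (inferInstance : (⊥ : Subgroup G).Normal)
      | succ i =>
        have := hQ i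
        exact (inferInstance : ((Q i).comap (QuotientGroup.mk' N₁)).Normal)
    refine ⟨G6_chain N₁ Q, hnor, rfl, ?_, ?_⟩
    · show (Q n).comap (QuotientGroup.mk' N₁) = ⊤
      rw [hQn, Subgroup.comap_top]
    · intro i
      cases i with
      | zero =>
        refine ⟨bot_le, ?_⟩
        have h1 : G6_chain N₁ Q (0 + 1) = N₁ := by
          show (Q 0).comap (QuotientGroup.mk' N₁) = N₁
          rw [hQ0, MonoidHom.comap_bot, QuotientGroup.ker_mk']
        have h2 : Group.IsNilpotent ↥(G6_chain N₁ Q (0 + 1)) := by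
          rw [h1]; exact hnil
        have h3 := hnor 0
        infer_instance
      | succ i =>
        refine ⟨Subgroup.comap_mono (hQs i).1, ?_⟩
        exact G6_aux (QuotientGroup.mk' N₁) (Q i) (Q (i + 1)) (hQ i) (hnor (i + 1)) (hQs i).2

end Pool.Agent.Helper453.SR.NG6
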