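import Pool.Agent.Helper453.SR.Defs

set_option autoImplicit false
open CategoryTheory MonoidalCategory

namespace Pool.Agent.Helper453.SR.NG1

open Pool.Agent.Helper453.SR 






theorem G1 (n : ℕ) {G H : Type} [Group G] [Group H] (f : G →* H) (hf : Function.Surjective f)
    (h : NilLen n G) : NilLen n H := by
  induction n generalizing G H with
  | zero =>
    have h' : Subsingleton G := h
    exact hf.subsingleton
  | succ n ih =>
    obtain ⟨N, hN, hnil, hq⟩ := h
    haveI := hN
    haveI hN' : (N.map f).Normal := hN.map f hf
    refine ⟨N.map f, hN', ?_, ?_⟩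
    · haveI := hnil
      exact Group.nilpotent_of_surjective (f.subgroupMap N) (f.subgroupMap_surjective N)
    · refine ih (QuotientGroup.map N (N.map f) f (Subgroup.le_comap_map f N)) ?_ hq
      intro y
      obtain ⟨y, rfl⟩ := QuotientGroup.mk_surjective y
      obtain ⟨x, rfl⟩ := hf y
      exact ⟨QuotientGroup.mk x, rfl⟩

end Pool.Agent.Helper453.SR.NG1
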