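import Pool.Agent.Helper453.SR.Defs

set_option autoImplicit false
open CategoryTheory MonoidalCategory

namespace Pool.Agent.Helper453.SR.NG2

open Pool.Agent.Helper453.SR 






theorem G2 (n : ℕ) {G H : Type} [Group G] [Group H] (f : H →* G) (hf : Function.Injective f)
    (h : NilLen n G) : NilLen n H := by
  induction n generalizing G H with
  | zero =>
    have : Subsingleton G := h
    exact hf.subsingleton
  | succ n ih =>
    obtain ⟨N, hN, hnil, hq⟩ := h
    refine ⟨N.comap f, hN.comap f, ?_, ?_⟩
    · have hinj : Function.Injective (f.subgroupComap N) := by
        intro a b hab
        apply Subtype.ext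
        apply hf
        exact congrArg Subtype.val hab
      have hr : Group.IsNilpotent (f.subgroupComap N).range := inferInstance
      exact (Group.isNilpotent_congr (MonoidHom.ofInjective hinj)).2 hr
    · refine ih (QuotientGroup.map (N.comap f) N f le_rfl) ?_ hq
      intro a b hab
      induction a using QuotientGroup.induction_on with
      | H a =>
      induction b using QuotientGroup.induction_on with
      | H b =>
      rw [QuotientGroup.map_mk, QuotientGroup.map_mk, QuotientGroup.eq] at hab
      rw [QuotientGroup.eq, Subgroup.mem_comap, map_mul, map_inv]
      exact hab

end Pool.Agent.Helper453.SR.NG2
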