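import Pool.Agent.Helper453.SR.Defs
import Pool.Agent.Helper453.SR.G2

set_option autoImplicit false
open CategoryTheory MonoidalCategory

namespace Pool.Agent.Helper453.SR.NG3

open Pool.Agent.Helper453.SR Pool.Agent.Helper453.SR.NG2











theorem G3 (n : ℕ) {G H : Type} [Group G] [Group H] (hG : NilLen n G) (hH : NilLen n H) : NilLen n (G × H) := by
  induction n generalizing G H with
  | zero =>
    have h1 : Subsingleton G := hG
    have h2 : Subsingleton H := hH
    show Subsingleton (G × H)
    infer_instance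
  | succ n ih =>
    obtain ⟨N, hN, hNn, hNl⟩ := hG
    obtain ⟨M, hM, hMn, hMl⟩ := hH
    have hq : NilLen n ((G ⧸ N) × (H ⧸ M)) := ih hNl hMl
    let φ : G × H →* (G ⧸ N) × (H ⧸ M) := (QuotientGroup.mk' N).prodMap (QuotientGroup.mk' M)
    have hk : φ.ker = N.prod M := by
      ext ⟨a, b⟩
      simp [φ, MonoidHom.mem_ker, Subgroup.mem_prod, Prod.ext_iff]
    refine ⟨φ.ker, inferInstance, ?_, ?_⟩
    · rw [hk]
      haveI := hNn
      haveI := hMn
      exact Group.nilpotent_of_mulEquiv (Subgroup.prodEquiv N M).symm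
    · exact G2 n (QuotientGroup.kerLift φ) (QuotientGroup.kerLift_injective φ) hq

end Pool.Agent.Helper453.SR.NG3
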