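import Pool.Agent.Helper453.SR.Defs

set_option autoImplicit false
open CategoryTheory MonoidalCategory

namespace Pool.Agent.Helper453.SR.NG4

open Pool.Agent.Helper453.SR 






theorem G4_aux (n : ℕ) : ∀ (G : Type) [Group G], NilLen n G → NilLen (n + 1) G := by
  induction n with
  | zero =>
    intro G _ h
    have hs : Subsingleton G := h
    refine ⟨⊤, inferInstance, ?_, ?_⟩
    · infer_instance
    · show Subsingleton (G ⧸ (⊤ : Subgroup G))
      infer_instance
  | succ n ih =>
    intro G _ h
    obtain ⟨N, hN, hnil, hq⟩ := h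
    exact ⟨N, hN, hnil, ih (G ⧸ N) hq⟩

theorem G4 (n : ℕ) {G : Type} [Group G] (h : NilLen n G) : NilLen (n + 1) G :=
  G4_aux n G h

end Pool.Agent.Helper453.SR.NG4
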