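import Pool.Agent.Helper453.SR.Defs
import Pool.Agent.Helper453.SR.G2
import Pool.Agent.Helper453.SR.G3
import Pool.Agent.Helper453.SR.G4

set_option autoImplicit false
open CategoryTheory MonoidalCategory

namespace Pool.Agent.Helper453.SR.NG5

open Pool.Agent.Helper453.SR Pool.Agent.Helper453.SR.NG2 Pool.Agent.Helper453.SR.NG3 Pool.Agent.Helper453.SR.NG4















theorem G5_inf (n : ℕ) {G : Type} [Group G] (C D : Subgroup G)
    (hC : ∃ _ : C.Normal, NilLen n (G ⧸ C)) (hD : ∃ _ : D.Normal, NilLen n (G ⧸ D)) :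
    ∃ _ : (C ⊓ D).Normal, NilLen n (G ⧸ (C ⊓ D)) := by
  obtain ⟨hCn, hC⟩ := hC
  obtain ⟨hDn, hD⟩ := hD
  refine ⟨inferInstance, ?_⟩
  have hk : ∀ x ∈ C ⊓ D, ((QuotientGroup.mk' C).prod (QuotientGroup.mk' D)) x = 1 := by
    intro x hx
    rw [Subgroup.mem_inf] at hx
    ext
    · exact (QuotientGroup.eq_one_iff x).2 hx.1
    · exact (QuotientGroup.eq_one_iff x).2 hx.2
  refine G2 n (QuotientGroup.lift (C ⊓ D) ((QuotientGroup.mk' C).prod (QuotientGroup.mk' D)) hk)
    ?_ (G3 n hC hD)
  rw [injective_iff_map_eq_one]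
  intro a ha
  induction a using QuotientGroup.induction_on with
  | H x =>
    have ha' : (((QuotientGroup.mk' C).prod (QuotientGroup.mk' D)) x) = 1 := ha
    have h1 : (QuotientGroup.mk x : G ⧸ C) = 1 := congrArg Prod.fst ha'
    have h2 : (QuotientGroup.mk x : G ⧸ D) = 1 := congrArg Prod.snd ha'
    rw [QuotientGroup.eq_one_iff] at h1 h2 ⊢
    exact ⟨h1, h2⟩

theorem G5_sub (n : ℕ) {G : Type} [Group G] (h : Subsingleton G) : NilLen n G := by
  induction n with
  | zero => exact h
  | succ n ih => exact G4 n ih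

theorem G5 (n : ℕ) {G : Type} [Group G] [Finite G] (S : Set (Subgroup G))
    (h : ∀ C ∈ S, ∃ _ : C.Normal, NilLen n (G ⧸ C)) : ∃ _ : (sInf S).Normal, NilLen n (G ⧸ sInf S) := by
  have hfin : S.Finite := Set.toFinite S
  revert h
  induction S, hfin using Set.Finite.induction_on with
  | empty =>
    intro _
    rw [sInf_empty]
    refine ⟨inferInstance, G5_sub n ?_⟩
    exact QuotientGroup.subsingleton_quotient_top
  | @insert C S hC hS ih =>
    intro h
    rw [sInf_insert]
    exact G5_inf n C (sInf S) (h C (Set.mem_insert _ _))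
      (ih fun D hD => h D (Set.mem_insert_of_mem _ hD))
end Pool.Agent.Helper453.SR.NG5
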