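import Pool.Agent.Helper453.SR.Defs

set_option autoImplicit false
open CategoryTheory MonoidalCategory

namespace Pool.Agent.Helper453.SR.NH1

open Pool.Agent.Helper453.SR 






open scoped Pointwise in
/-- the structure of a primitive soluble group -/
theorem H1_aux {P : Type} [Group P] [Finite P] [Group.IsSolvable P] (L : Subgroup P)
    (hL : IsCoatom L) (hcore : ∀ N : Subgroup P, N.Normal → N ≤ L → N = ⊥) :
    ∃ s k : ℕ, s.Prime ∧ 1 ≤ k ∧ L.index = s ^ k ∧ PrimData s P := by
  classical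
  -- `⊤ ≠ ⊥`
  have htop : (⊤ : Subgroup P) ≠ ⊥ := by
    intro h
    apply hL.1
    rw [eq_top_iff, h]
    exact bot_le
  -- a minimal normal subgroup
  obtain ⟨V, ⟨hVn, hVb⟩, hVmin⟩ : ∃ V : Subgroup P, (V.Normal ∧ V ≠ ⊥) ∧
      ∀ W : Subgroup P, W.Normal → W ≠ ⊥ → W ≤ V → W = V := by
    have hwf : WellFounded ((· < ·) : Subgroup P → Subgroup P → Prop) := wellFounded_lt
    have hne : ({V : Subgroup P | V.Normal ∧ V ≠ ⊥} : Set (Subgroup P)).Nonempty :=
      ⟨⊤, Subgroup.normal_top, htop⟩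
    refine ⟨hwf.min _ hne, hwf.min_mem _ hne, ?_⟩
    intro W hW1 hW2 hW3
    by_contra hcon
    have hmem : W ∈ {V : Subgroup P | V.Normal ∧ V ≠ ⊥} := ⟨hW1, hW2⟩
    exact hwf.not_lt_min _ hmem (lt_of_le_of_ne hW3 hcon)
  haveI := hVn
  -- `V` is abelian
  have hcomm : ⁅V, V⁆ = ⊥ := by
    by_contra hcon
    have h1 : ⁅V, V⁆ < V := Group.IsSolvable.commutator_lt_of_ne_bot hVb
    have h2 := hVmin ⁅V, V⁆ (Subgroup.commutator_normal V V) hcon h1.le
    exact h1.ne h2
  have hab : ∀ a ∈ V, ∀ b ∈ V, a * b = b * a := by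
    intro a ha b hb
    have h1 : V ≤ Subgroup.centralizer (V : Set P) :=
      Subgroup.commutator_eq_bot_iff_le_centralizer.mp hcomm
    have h2 := Subgroup.mem_centralizer_iff.mp (h1 hb) a ha
    exact h2
  -- a prime dividing the order of `V`
  have hcard : Nat.card V ≠ 1 := by
    intro h
    exact hVb (Subgroup.card_eq_one.mp h)
  obtain ⟨s, hs, hsV⟩ := Nat.exists_prime_and_dvd hcard
  haveI : Fact s.Prime := ⟨hs⟩
  let W : Subgroup P :=
    { carrier := {a | a ∈ V ∧ a ^ s = 1}
      one_mem' := ⟨V.one_mem, one_pow s⟩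
      mul_mem' := by
        rintro a b ⟨ha, ha'⟩ ⟨hb, hb'⟩
        refine ⟨V.mul_mem ha hb, ?_⟩
        have hc : Commute a b := hab a ha b hb
        rw [hc.mul_pow, ha', hb', one_mul]
      inv_mem' := by
        rintro a ⟨ha, ha'⟩
        exact ⟨V.inv_mem ha, by rw [inv_pow, ha', inv_one]⟩ }
  have hWn : W.Normal := by
    constructor
    rintro a ⟨ha, ha'⟩ g
    refine ⟨hVn.conj_mem a ha g, ?_⟩
    rw [conj_pow, ha', mul_one, mul_inv_cancel]
  have hWb : W ≠ ⊥ := by
    obtain ⟨x, hx⟩ := exists_prime_orderOf_dvd_card' s hsV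
    intro h
    have hxs : (x : P) ∈ W := by
      refine ⟨x.2, ?_⟩
      have h1 : x ^ s = 1 := by rw [← hx]; exact pow_orderOf_eq_one x
      have h2 := congrArg (fun z : V => (z : P)) h1
      simpa using h2
    rw [h, Subgroup.mem_bot] at hxs
    have hx1 : x = 1 := Subtype.ext hxs
    rw [hx1, orderOf_one] at hx
    exact hs.one_lt.ne hx
  have hWV : W = V := hVmin W hWn hWb (fun a ha => ha.1)
  have hexp : ∀ a ∈ V, a ^ s = 1 := by
    intro a ha
    rw [← hWV] at ha
    exact ha.2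
  -- `V` and `L`
  have hVL : ¬ V ≤ L := fun h => hVb (hcore V hVn h)
  have hsup : V ⊔ L = ⊤ := by
    apply hL.2
    refine lt_of_le_of_ne le_sup_right ?_
    intro h
    apply hVL
    rw [h]
    exact le_sup_left
  have hmul : ((V : Set P) * (L : Set P)) = Set.univ := by
    rw [← Subgroup.normal_mul, hsup]
    rfl
  have hdec : ∀ g : P, ∃ v ∈ V, ∃ m ∈ L, v * m = g := by
    intro g
    have : g ∈ ((V : Set P) * (L : Set P)) := by rw [hmul]; trivial
    obtain ⟨v, hv, m, hm, h⟩ := Set.mem_mul.mp this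
    exact ⟨v, hv, m, hm, h⟩
  have hinf : V ⊓ L = ⊥ := by
    apply hcore _ _ inf_le_right
    constructor
    rintro x ⟨hxV, hxL⟩ g
    obtain ⟨v, hv, m, hm, rfl⟩ := hdec g
    have h1 : m * x * m⁻¹ ∈ V := hVn.conj_mem x hxV m
    have h2 : m * x * m⁻¹ ∈ L := L.mul_mem (L.mul_mem hm hxL) (L.inv_mem hm)
    have h3 : v * m * x * (v * m)⁻¹ = m * x * m⁻¹ := by
      have h4 := hab v hv _ h1
      calc v * m * x * (v * m)⁻¹ = (v * (m * x * m⁻¹)) * v⁻¹ := by group
        _ = (m * x * m⁻¹ * v) * v⁻¹ := by rw [h4]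
        _ = m * x * m⁻¹ := by group
    rw [h3]
    exact ⟨h1, h2⟩
  have hcompl : V.IsComplement' L := by
    apply Subgroup.isComplement'_of_disjoint_and_mul_eq_univ _ hmul
    rw [disjoint_iff]
    exact hinf
  -- the centralizer
  let C : Subgroup P :=
    { carrier := {x | x ∈ L ∧ ∀ a ∈ V, x * a = a * x}
      one_mem' := ⟨L.one_mem, fun a _ => by rw [one_mul, mul_one]⟩
      mul_mem' := by
        rintro x y ⟨hx, hx'⟩ ⟨hy, hy'⟩
        refine ⟨L.mul_mem hx hy, fun a ha => ?_⟩
        rw [mul_assoc, hy' a ha, ← mul_assoc, hx' a ha, mul_assoc]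
      inv_mem' := by
        rintro x ⟨hx, hx'⟩
        refine ⟨L.inv_mem hx, fun a ha => ?_⟩
        have h := hx' a ha
        calc x⁻¹ * a = x⁻¹ * (a * x) * x⁻¹ := by group
          _ = x⁻¹ * (x * a) * x⁻¹ := by rw [h]
          _ = a * x⁻¹ := by group }
  have hCb : C = ⊥ := by
    apply hcore C _ (show C ≤ L from fun x hx => hx.1)
    constructor
    rintro x ⟨hxL, hxV⟩ g
    obtain ⟨v, hv, m, hm, rfl⟩ := hdec g
    have h2 : m * x * m⁻¹ ∈ L := L.mul_mem (L.mul_mem hm hxL) (L.inv_mem hm)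
    have h1 : ∀ a ∈ V, m * x * m⁻¹ * a = a * (m * x * m⁻¹) := by
      intro a ha
      have h5 : m⁻¹ * a * m ∈ V := by
        have := hVn.conj_mem a ha m⁻¹
        rwa [inv_inv] at this
      have h6 := hxV _ h5
      calc m * x * m⁻¹ * a = m * (x * (m⁻¹ * a * m)) * m⁻¹ := by group
        _ = m * ((m⁻¹ * a * m) * x) * m⁻¹ := by rw [h6]
        _ = a * (m * x * m⁻¹) := by group
    have h3 : v * m * x * (v * m)⁻¹ = m * x * m⁻¹ := by
      have h4 := h1 v hv
      calc v * m * x * (v * m)⁻¹ = (v * (m * x * m⁻¹)) * v⁻¹ := by group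
        _ = (m * x * m⁻¹ * v) * v⁻¹ := by rw [h4]
        _ = m * x * m⁻¹ := by group
    rw [h3]
    exact ⟨h2, h1⟩
  have hcent : ∀ g : P, (∀ a ∈ V, g * a = a * g) → g ∈ V := by
    intro g hg
    obtain ⟨v, hv, m, hm, rfl⟩ := hdec g
    have hmC : m ∈ C := by
      refine ⟨hm, fun a ha => ?_⟩
      have h1 := hg a ha
      have h2 := hab v hv a ha
      calc m * a = v⁻¹ * (v * m * a) := by group
        _ = v⁻¹ * (a * (v * m)) := by rw [h1]
        _ = v⁻¹ * (a * v) * m := by group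
        _ = v⁻¹ * (v * a) * m := by rw [h2]
        _ = a * m := by group
    rw [hCb, Subgroup.mem_bot] at hmC
    rw [hmC, mul_one]
    exact hv
  -- the index
  have hidx : L.index = Nat.card V := hcompl.index_eq_card
  have hpg : IsPGroup s V := by
    intro x
    refine ⟨1, ?_⟩
    apply Subtype.ext
    rw [pow_one]
    have := hexp x x.2
    simpa using this
  obtain ⟨k, hk⟩ := IsPGroup.iff_card.mp hpg
  refine ⟨s, k, hs, ?_, hidx.trans hk, V, L, hVn, hab, hexp, hcompl, hcent⟩
  rcases Nat.eq_zero_or_pos k with h0 | h0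
  · rw [h0, pow_zero] at hk
    exact absurd hk hcard
  · exact h0

theorem H1 {K : Type} [Group K] [Finite K] [Group.IsSolvable K] (M : Subgroup K) (hM : IsCoatom M) :
    ∃ s k : ℕ, s.Prime ∧ 1 ≤ k ∧ M.index = s ^ k ∧ PrimData s (K ⧸ M.normalCore) := by
  have hsurj : Function.Surjective (QuotientGroup.mk' M.normalCore) :=
    QuotientGroup.mk'_surjective _
  have hcm : (M.map (QuotientGroup.mk' M.normalCore)).comap (QuotientGroup.mk' M.normalCore) = M := by
    rw [Subgroup.comap_map_eq, QuotientGroup.ker_mk', sup_eq_left]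
    exact M.normalCore_le
  have hsolv : Group.IsSolvable (K ⧸ M.normalCore) := inferInstance
  have h := H1_aux (M.map (QuotientGroup.mk' M.normalCore)) ?_ ?_
  · obtain ⟨s, k, h1, h2, h3, h4⟩ := h
    refine ⟨s, k, h1, h2, ?_, h4⟩
    rw [← h3, ← Subgroup.index_comap_of_surjective _ hsurj, hcm]
  · constructor
    · intro h
      apply hM.1
      have h5 := hcm
      rw [h, Subgroup.comap_top] at h5
      exact h5.symm
    · intro H hH
      have h1 : M < H.comap (QuotientGroup.mk' M.normalCore) := by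
        refine lt_of_le_of_ne ?_ ?_
        · exact hcm.symm.le.trans (Subgroup.comap_mono hH.le)
        · intro h2
          apply hH.ne
          have h5 := hcm.trans h2
          exact Subgroup.comap_injective hsurj h5
      have h3 := hM.2 _ h1
      rw [eq_top_iff]
      intro x _
      obtain ⟨y, rfl⟩ := hsurj x
      have : y ∈ H.comap (QuotientGroup.mk' M.normalCore) := by rw [h3]; trivial
      exact this
  · intro N hN hNL
    have h1 : N.comap (QuotientGroup.mk' M.normalCore) ≤ M :=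
      (Subgroup.comap_mono hNL).trans hcm.le
    haveI : (N.comap (QuotientGroup.mk' M.normalCore)).Normal := hN.comap _
    have h2 : N.comap (QuotientGroup.mk' M.normalCore) ≤ M.normalCore :=
      Subgroup.normal_le_normalCore.mpr h1
    rw [eq_bot_iff]
    intro x hx
    obtain ⟨y, rfl⟩ := hsurj x
    have hy : y ∈ N.comap (QuotientGroup.mk' M.normalCore) := hx
    rw [Subgroup.mem_bot]
    exact (QuotientGroup.eq_one_iff y).mpr (h2 hy)

end Pool.Agent.Helper453.SR.NH1
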