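import Pool.Agent.Helper453.SR.Defs

set_option autoImplicit false
open CategoryTheory MonoidalCategory

namespace Pool.Agent.Helper453.SR.NH2

open Pool.Agent.Helper453.SR 






theorem H2 {G : Type} [Group G] [Finite G] (F : Subgroup G) (hFn : F.Normal) (hF : frattini G ≤ F)
    (h : Group.IsNilpotent ↥(F.map (QuotientGroup.mk' (frattini G)))) : Group.IsNilpotent F := by
  have q := (Group.isNilpotent_of_finite_tfae (G := F)).out 0 3
  rw [q]; clear q
  intro p p_prime P
  have hQn : (F.map (QuotientGroup.mk' (frattini G))).Normal :=
    hFn.map _ (QuotientGroup.mk'_surjective _)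
  have hsurj := (QuotientGroup.mk' (frattini G)).subgroupMap_surjective F
  set Pb := P.mapSurjective hsurj with hPb
  have hPbn : (Pb : Subgroup (F.map (QuotientGroup.mk' (frattini G)))).Normal := inferInstance
  have hPbc : (Pb : Subgroup (F.map (QuotientGroup.mk' (frattini G)))).Characteristic :=
    Pb.characteristic_of_normal hPbn
  have hn1 : ((Pb : Subgroup (F.map (QuotientGroup.mk' (frattini G)))).map
      (F.map (QuotientGroup.mk' (frattini G))).subtype).Normal := inferInstance
  have hmap : (Pb : Subgroup (F.map (QuotientGroup.mk' (frattini G)))).map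
      (F.map (QuotientGroup.mk' (frattini G))).subtype =
      ((P : Subgroup F).map F.subtype).map (QuotientGroup.mk' (frattini G)) := by
    rw [hPb, Sylow.coe_mapSurjective, Subgroup.map_map, Subgroup.map_map]
    rfl
  set P' : Subgroup G := (P : Subgroup F).map F.subtype with hP'
  have hn2 : (P' ⊔ frattini G).Normal := by
    have h1 : (P'.map (QuotientGroup.mk' (frattini G))).Normal := by rw [← hmap]; exact hn1
    have h2 := h1.comap (QuotientGroup.mk' (frattini G))
    rwa [Subgroup.comap_map_eq, QuotientGroup.ker_mk'] at h2
  set N : Subgroup G := P' ⊔ frattini G with hN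
  have hP'F : P' ≤ F := Subgroup.map_subtype_le _
  have hP'N : P' ≤ N := le_sup_left
  have hNF : N ≤ F := sup_le hP'F hF
  have hpg : IsPGroup p (P'.subgroupOf N) := by
    have h1 : IsPGroup p P' := P.isPGroup'.map F.subtype
    exact h1.comap_of_injective N.subtype N.subtype_injective
  have hidx : ¬ p ∣ (P'.subgroupOf N).index := by
    intro hd
    have h1 : P'.relIndex F = (P : Subgroup F).index := by
      have : P'.subgroupOf F = (P : Subgroup F) :=
        Subgroup.comap_map_eq_self_of_injective F.subtype_injective _
      rw [Subgroup.relIndex, this]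
    have h2 := Subgroup.relIndex_mul_relIndex P' N F hP'N hNF
    have h3 : p ∣ (P : Subgroup F).index := by
      rw [← h1, ← h2]
      exact Dvd.dvd.mul_right hd _
    exact P.not_dvd_index h3
  have harg := Sylow.normalizer_sup_eq_top (hpg.toSylow hidx)
  rw [IsPGroup.toSylow_coe, Subgroup.subgroupOf_map_subtype, inf_of_le_left hP'N] at harg
  have harg2 : Subgroup.normalizer (P' : Set G) ⊔ frattini G = ⊤ := by
    rw [hN, ← sup_assoc, sup_of_le_left Subgroup.le_normalizer] at harg
    exact harg
  have hnorm := frattini_nongenerating harg2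
  have hP'n : P'.Normal := Subgroup.normalizer_eq_top_iff.mp hnorm
  exact hP'n.of_map_subtype

end Pool.Agent.Helper453.SR.NH2
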