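import Pool.Agent.Helper453.SR.Defs
import Pool.Agent.Helper453.SR.H2

set_option autoImplicit false
open CategoryTheory MonoidalCategory

namespace Pool.Agent.Helper453.SR.NH3

open Pool.Agent.Helper453.SR Pool.Agent.Helper453.SR.NH2











theorem H3_index {K : Type} [Group K] [Finite K] (N M : Subgroup K) (hN : N.Normal)
    (h : M ⊔ N = ⊤) : M.index ∣ Nat.card N := by
  have h1 : N.relIndex M = N.index := by
    have e := Subgroup.relIndex_sup_right (H := M) (K := N)
    rw [h] at e
    rw [← e, Subgroup.relIndex_top_right]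
  have h2 := N.card_mul_index
  have h3 := M.card_mul_index
  have h4 := (N.subgroupOf M).card_mul_index
  have h5 : (N.subgroupOf M).index = N.index := h1
  rw [h5] at h4
  have h6 : N.index ≠ 0 := Subgroup.index_ne_zero_of_finite
  refine ⟨Nat.card (N.subgroupOf M), ?_⟩
  have h7 : N.index * Nat.card N = N.index * (M.index * Nat.card (N.subgroupOf M)) := by
    calc N.index * Nat.card N = Nat.card N * N.index := by ring
      _ = Nat.card K := h2
      _ = Nat.card M * M.index := h3.symm
      _ = Nat.card (N.subgroupOf M) * N.index * M.index := by rw [h4]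
      _ = _ := by ring
  exact Nat.eq_of_mul_eq_mul_left (Nat.pos_of_ne_zero h6) h7

theorem H3_odd {K : Type} [Group K] [Finite K]
    (h2 : ∀ W : Subgroup K, W.Normal → IsPGroup 2 W → W = ⊥) (N : Subgroup K) (hN : N.Normal)
    (hnil : Group.IsNilpotent N) : Odd (Nat.card N) := by
  have : Fact (Nat.Prime 2) := ⟨Nat.prime_two⟩
  rw [← Nat.not_even_iff_odd, even_iff_two_dvd]
  intro hdvd
  obtain ⟨P⟩ : Nonempty (Sylow 2 N) := inferInstance
  have hPne := P.ne_bot_of_dvd_card hdvd
  have hPn : (P : Subgroup N).Normal := inferInstance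
  have hPc : (P : Subgroup N).Characteristic := P.characteristic_of_normal hPn
  have h3 : ((P : Subgroup N).map N.subtype).Normal := inferInstance
  have h4 := h2 _ h3 (P.2.map N.subtype)
  rw [Subgroup.map_eq_bot_iff, Subgroup.ker_subtype, le_bot_iff] at h4
  exact hPne h4

theorem H3 {K : Type} [Group K] [Finite K] [Group.IsSolvable K]
    (h2 : ∀ W : Subgroup K, W.Normal → IsPGroup 2 W → W = ⊥) :
    sInf {C : Subgroup K | ∃ M : Subgroup K, IsCoatom M ∧ Odd M.index ∧ C = M.normalCore} ≤ frattini K := by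
  classical
  by_contra hR
  set R := sInf {C : Subgroup K | ∃ M : Subgroup K, IsCoatom M ∧ Odd M.index ∧ C = M.normalCore}
    with hRdef
  have hRn : R.Normal := by
    constructor
    intro n hn g
    rw [hRdef, Subgroup.mem_sInf] at hn ⊢
    intro C hC
    have h1 := hn C hC
    obtain ⟨M, -, -, rfl⟩ := hC
    exact (M.normalCore_normal).conj_mem n h1 g
  set π := QuotientGroup.mk' (frattini K) with hπ
  have hπs : Function.Surjective π := QuotientGroup.mk'_surjective _
  have hRb : (R.map π).Normal := hRn.map π hπs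
  have hRne : R.map π ≠ ⊥ := by
    intro h1
    rw [Subgroup.map_eq_bot_iff, hπ, QuotientGroup.ker_mk'] at h1
    exact hR h1
  obtain ⟨A, hA⟩ := (Set.toFinite {A : Subgroup (K ⧸ frattini K) | A.Normal ∧ A ≠ ⊥ ∧
    A ≤ R.map π}).exists_minimal ⟨R.map π, hRb, hRne, le_rfl⟩
  obtain ⟨hAn, hAne, hAle⟩ := hA.prop
  have hlt : ⁅A, A⁆ < A := Group.IsSolvable.commutator_lt_of_ne_bot hAne
  have hcb : ⁅A, A⁆ = ⊥ := by
    by_contra hne
    have h1 : ⁅A, A⁆ ∈ {A : Subgroup (K ⧸ frattini K) | A.Normal ∧ A ≠ ⊥ ∧ A ≤ R.map π} :=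
      ⟨Subgroup.commutator_normal A A, hne, hlt.le.trans hAle⟩
    exact absurd (hA.le_of_le h1 hlt.le) (not_le_of_gt hlt)
  have hcomm : ∀ a b : A, a * b = b * a := by
    intro a b
    rw [Subgroup.commutator_eq_bot_iff_le_centralizer] at hcb
    have h1 := hcb a.2
    rw [Subgroup.mem_centralizer_iff] at h1
    exact Subtype.ext (h1 b.1 b.2).symm
  have hAnil : Group.IsNilpotent A := by
    let _ : CommGroup A := { (inferInstance : Group A) with mul_comm := hcomm }
    exact CommGroup.isNilpotent
  have hNn : (A.comap π).Normal := hAn.comap π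
  have hker : frattini K ≤ A.comap π := by
    intro k hk
    rw [Subgroup.mem_comap]
    have h1 : π k = 1 := (QuotientGroup.eq_one_iff k).2 hk
    rw [h1]
    exact one_mem _
  have hNnil : Group.IsNilpotent (A.comap π) := by
    apply H2 _ hNn hker
    rw [← hπ, Subgroup.map_comap_eq_self_of_surjective hπs]
    exact hAnil
  have hodd := H3_odd h2 _ hNn hNnil
  have hNnot : ¬ A.comap π ≤ frattini K := by
    intro h1
    apply hAne
    rw [← Subgroup.map_comap_eq_self_of_surjective hπs A, Subgroup.map_eq_bot_iff, hπ,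
      QuotientGroup.ker_mk']
    exact h1
  have hM : ∃ M : Subgroup K, IsCoatom M ∧ ¬ A.comap π ≤ M := by
    by_contra hcon
    push Not at hcon
    apply hNnot
    unfold frattini Order.radical
    exact le_iInf₂ fun M hM => hcon M hM
  obtain ⟨M, hMc, hMn⟩ := hM
  have htop : M ⊔ A.comap π = ⊤ := hMc.2 _ (left_lt_sup.2 hMn)
  have hMi : Odd M.index := hodd.of_dvd_nat (H3_index _ M hNn htop)
  have hRM : R ≤ M := (sInf_le ⟨M, hMc, hMi, rfl⟩ : R ≤ M.normalCore).trans M.normalCore_le
  apply hMn
  calc A.comap π ≤ (R.map π).comap π := Subgroup.comap_mono hAle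
    _ = R ⊔ π.ker := Subgroup.comap_map_eq π R
    _ ≤ M := by
      rw [hπ, QuotientGroup.ker_mk']
      exact sup_le hRM (frattini_le_coatom hMc)

end Pool.Agent.Helper453.SR.NH3
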