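import Pool.Agent.Helper453.SR.Defs
import Pool.Agent.Helper453.SR.H1
import Pool.Agent.Helper453.SR.H2
import Pool.Agent.Helper453.SR.H3
import Pool.Agent.Helper453.SR.G1
import Pool.Agent.Helper453.SR.G5

set_option autoImplicit false
open CategoryTheory MonoidalCategory

namespace Pool.Agent.Helper453.SR.NH4

open Pool.Agent.Helper453.SR Pool.Agent.Helper453.SR.NH1 Pool.Agent.Helper453.SR.NH2 Pool.Agent.Helper453.SR.NH3 Pool.Agent.Helper453.SR.NG1 Pool.Agent.Helper453.SR.NG5



















theorem H4 (n : ℕ) {K : Type} [Group K] [Finite K] [Group.IsSolvable K]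
    (h2 : ∀ W : Subgroup K, W.Normal → IsPGroup 2 W → W = ⊥)
    (h : ∀ (C : Subgroup K) [C.Normal] (s : ℕ), s.Prime → s ≠ 2 → PrimData s (K ⧸ C) → NilLen (n + 1) (K ⧸ C)) :
    NilLen (n + 1) K := by
  classical
  set S : Set (Subgroup K) :=
    {C : Subgroup K | ∃ M : Subgroup K, IsCoatom M ∧ Odd M.index ∧ C = M.normalCore} with hS
  have h3 : sInf S ≤ frattini K := H3 h2
  obtain ⟨hn, h5⟩ := G5 (n + 1) S (by
    rintro C ⟨M, hM, hodd, rfl⟩
    obtain ⟨s, k, hs, hk, hidx, hP⟩ := H1 M hM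
    refine ⟨inferInstance, h M.normalCore s hs ?_ hP⟩
    rintro rfl
    rw [hidx] at hodd
    exact (Nat.not_odd_iff_even.2 (Nat.even_pow.2 ⟨even_two, by omega⟩)) hodd)
  have h6 : NilLen (n + 1) (K ⧸ frattini K) := by
    refine G1 (n + 1) (QuotientGroup.map (sInf S) (frattini K) (MonoidHom.id K) h3) ?_ h5
    intro y
    obtain ⟨k, rfl⟩ := QuotientGroup.mk_surjective y
    exact ⟨(k : K ⧸ sInf S), rfl⟩
  obtain ⟨N, hN, hnil, hlen⟩ := h6
  have hFn : (N.comap (QuotientGroup.mk' (frattini K))).Normal := hN.comap _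
  have hF : frattini K ≤ N.comap (QuotientGroup.mk' (frattini K)) := by
    intro x hx
    rw [Subgroup.mem_comap]
    have : QuotientGroup.mk' (frattini K) x = 1 := (QuotientGroup.eq_one_iff x).2 hx
    rw [this]
    exact N.one_mem
  refine ⟨N.comap (QuotientGroup.mk' (frattini K)), hFn, H2 _ hFn hF ?_, ?_⟩
  · rw [Subgroup.map_comap_eq_self_of_surjective (QuotientGroup.mk'_surjective _)]
    exact hnil
  · let g : K ⧸ frattini K →* K ⧸ (N.comap (QuotientGroup.mk' (frattini K))) :=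
      QuotientGroup.map (frattini K) _ (MonoidHom.id K) hF
    have hker : ∀ x ∈ N, g x = 1 := by
      intro x hx
      obtain ⟨k, rfl⟩ := QuotientGroup.mk_surjective x
      show ((k : K) : K ⧸ (N.comap (QuotientGroup.mk' (frattini K)))) = 1
      rw [QuotientGroup.eq_one_iff]
      exact hx
    refine G1 n (QuotientGroup.lift N g hker) ?_ hlen
    intro y
    obtain ⟨k, rfl⟩ := QuotientGroup.mk_surjective y
    exact ⟨((k : K ⧸ frattini K) : (K ⧸ frattini K) ⧸ N), rfl⟩

end Pool.Agent.Helper453.SR.NH4
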