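import Pool.Agent.Helper453.SR.Defs

set_option autoImplicit false
open CategoryTheory MonoidalCategory

namespace Pool.Agent.Helper453.SR.NH5

open Pool.Agent.Helper453.SR 






theorem H5 (G : Type) [Group G] [Finite G] : ∃ (N : Subgroup G) (_ : N.Normal), IsPGroup 2 N ∧
    ∀ W : Subgroup (G ⧸ N), W.Normal → IsPGroup 2 W → W = ⊥ := by
  obtain ⟨N, ⟨hN, hNp⟩, hmax⟩ := (Set.toFinite
    {N : Subgroup G | N.Normal ∧ IsPGroup 2 N}).exists_maximal
    ⟨⊥, inferInstance, IsPGroup.of_bot⟩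
  refine ⟨N, hN, hNp, fun W hW hWp => ?_⟩
  have hker : IsPGroup 2 (QuotientGroup.mk' N).ker := by
    rw [QuotientGroup.ker_mk']; exact hNp
  have h1 : IsPGroup 2 (W.comap (QuotientGroup.mk' N)) := hWp.comap_of_ker_isPGroup _ hker
  have h2 : (W.comap (QuotientGroup.mk' N)).Normal := hW.comap _
  have h3 : N ≤ W.comap (QuotientGroup.mk' N) := by
    intro x hx
    rw [Subgroup.mem_comap]
    have : QuotientGroup.mk' N x = 1 := (QuotientGroup.eq_one_iff x).2 hx
    rw [this]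
    exact W.one_mem
  have h4 : W.comap (QuotientGroup.mk' N) ≤ N := hmax ⟨h2, h1⟩ h3
  rw [eq_bot_iff]
  intro w hw
  obtain ⟨g, rfl⟩ := QuotientGroup.mk'_surjective N w
  have : g ∈ N := h4 hw
  exact (QuotientGroup.eq_one_iff g).2 this

end Pool.Agent.Helper453.SR.NH5
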