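import Pool.Agent.Helper453.SR.Defs

set_option autoImplicit false
open CategoryTheory MonoidalCategory

namespace Pool.Agent.Helper453.SR.NI1

open Pool.Agent.Helper453.SR 






theorem I1_aux {P : Type} [Group P] (V L : Subgroup P) (hVn : V.Normal) (hc : V.IsComplement' L)
    (x : P) (hx : x ∈ L) (v : P) (hv : v ∈ V) (u : P) (hu : u ∈ V) (k : P) (hk : k ∈ L)
    (h : (u * k) * (v * x) * (u * k)⁻¹ = (v * x)⁻¹) :
    k * x * k⁻¹ = x⁻¹ ∧ u * (k * v * k⁻¹) * (x⁻¹ * u⁻¹ * x) = x⁻¹ * v⁻¹ * x := by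
  have hkx : k * x * k⁻¹ ∈ L := L.mul_mem (L.mul_mem hk hx) (L.inv_mem hk)
  have hA : u * (k * v * k⁻¹) * ((k * x * k⁻¹) * u⁻¹ * (k * x * k⁻¹)⁻¹) ∈ V :=
    V.mul_mem (V.mul_mem hu (hVn.conj_mem v hv k)) (hVn.conj_mem u⁻¹ (V.inv_mem hu) _)
  have hB : x⁻¹ * v⁻¹ * x ∈ V := by
    have := hVn.conj_mem v⁻¹ (V.inv_mem hv) x⁻¹
    rwa [inv_inv] at this
  have heq : (u * (k * v * k⁻¹) * ((k * x * k⁻¹) * u⁻¹ * (k * x * k⁻¹)⁻¹)) * (k * x * k⁻¹) =
      (x⁻¹ * v⁻¹ * x) * x⁻¹ := by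
    have e1 : (u * (k * v * k⁻¹) * ((k * x * k⁻¹) * u⁻¹ * (k * x * k⁻¹)⁻¹)) * (k * x * k⁻¹) =
      (u * k) * (v * x) * (u * k)⁻¹ := by group
    rw [e1, h]
    group
  have hinj := hc.1 (a₁ := (⟨_, hA⟩, ⟨_, hkx⟩)) (a₂ := (⟨_, hB⟩, ⟨_, L.inv_mem hx⟩)) heq
  have h1 : k * x * k⁻¹ = x⁻¹ := congrArg Subtype.val (congrArg Prod.snd hinj)
  have h2 : u * (k * v * k⁻¹) * ((k * x * k⁻¹) * u⁻¹ * (k * x * k⁻¹)⁻¹) = x⁻¹ * v⁻¹ * x :=
    congrArg Subtype.val (congrArg Prod.fst hinj)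
  refine ⟨h1, ?_⟩
  rw [h1, inv_inv] at h2
  exact h2

theorem I1_core {s : ℕ} {P : Type} [Group P] (hP : PairInv P) (V L : Subgroup P)
    (hVn : V.Normal) (hc : V.IsComplement' L) {W : Type} [AddCommGroup W] [Module (ZMod s) W]
    (e : W → P) (heV : ∀ w, e w ∈ V) (heI : Function.Injective e) (heS : ∀ a ∈ V, ∃ w, e w = a)
    (hadd : ∀ a b, e (a + b) = e a * e b) :
    ∃ (ρ : Representation (ZMod s) L W),
      PairInvLin ρ ∧ ∀ l : L, ρ l = 1 ↔ ∀ a ∈ V, (l : P) * a = a * (l : P) := by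
  have hzero : e 0 = 1 := by
    have := hadd 0 0
    rw [add_zero] at this
    exact (mul_eq_left.mp this.symm)
  have hneg : ∀ a, e (-a) = (e a)⁻¹ := by
    intro a
    have := hadd (-a) a
    rw [neg_add_cancel, hzero] at this
    exact eq_inv_of_mul_eq_one_left this.symm
  choose f hf using heS
  have hmem : ∀ (l : L) (w : W), (l : P) * e w * (l : P)⁻¹ ∈ V := fun l w => hVn.conj_mem _ (heV w) _
  let r : L → (W →+ W) := fun l =>
    AddMonoidHom.mk' (fun w => f ((l : P) * e w * (l : P)⁻¹) (hmem l w)) (by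
      intro a b
      apply heI
      rw [hf, hadd, hadd, hf, hf]
      group)
  have hr : ∀ (l : L) (w : W), e (r l w) = l * e w * (l : P)⁻¹ := by
    intro l w
    exact hf _ (hmem l w)
  let ρ : Representation (ZMod s) L W :=
    { toFun := fun l => (r l).toZModLinearMap s
      map_one' := by
        refine LinearMap.ext fun w => ?_
        apply heI
        refine (hr 1 w).trans ?_
        simp
      map_mul' := by
        intro a b
        refine LinearMap.ext fun w => ?_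
        apply heI
        refine (hr (a * b) w).trans ?_
        refine Eq.trans ?_ (hr a (r b w)).symm
        rw [hr b w]
        push_cast
        group }
  have hρ : ∀ (l : L) (w : W), e (ρ l w) = l * e w * (l : P)⁻¹ := hr
  refine ⟨ρ, ?_, ?_⟩
  · intro x y v w
    obtain ⟨g, h1, h2⟩ := hP (e v * x) (e w * y)
    obtain ⟨⟨⟨u, hu⟩, ⟨k, hk⟩⟩, huk⟩ := hc.2 g
    have huk' : u * k = g := huk
    rw [← huk'] at h1 h2
    obtain ⟨a1, a2⟩ := I1_aux V L hVn hc x x.2 _ (heV v) u hu k hk h1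
    obtain ⟨b1, b2⟩ := I1_aux V L hVn hc y y.2 _ (heV w) u hu k hk h2
    have key : ∀ (z : L) (t : W),
        u * (k * e t * k⁻¹) * ((z : P)⁻¹ * u⁻¹ * z) = (z : P)⁻¹ * (e t)⁻¹ * z →
        f u hu + ρ ⟨k, hk⟩ t - ρ z⁻¹ (f u hu) = - ρ z⁻¹ t := by
      intro z t ht
      apply heI
      rw [sub_eq_add_neg, hadd, hadd, hneg, hneg, hρ, hρ, hρ, hf]
      have e4 : ((z⁻¹ : L) : P) = (z : P)⁻¹ := rfl
      rw [e4, inv_inv]
      have e6 : u * (k * e t * k⁻¹) * ((z : P)⁻¹ * u * z)⁻¹ =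
        u * (k * e t * k⁻¹) * ((z : P)⁻¹ * u⁻¹ * z) := by group
      have e7 : ((z : P)⁻¹ * e t * z)⁻¹ = (z : P)⁻¹ * (e t)⁻¹ * z := by group
      rw [e7, ← ht]
      exact e6
    exact ⟨⟨k, hk⟩, f u hu, Subtype.ext a1, Subtype.ext b1, key x v a2, key y w b2⟩
  · intro l
    constructor
    · intro h a ha
      have h1 := hρ l (f a ha)
      rw [h, Module.End.one_apply, hf] at h1
      calc (l : P) * a = ((l : P) * a * (l : P)⁻¹) * l := by group
        _ = a * l := by rw [← h1]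
    · intro h
      refine LinearMap.ext fun w => ?_
      apply heI
      refine (hρ l w).trans ?_
      rw [h _ (heV w), Module.End.one_apply]
      group

theorem I1 {s : ℕ} [Fact s.Prime] {P : Type} [Group P] [Finite P] (hP : PairInv P) (V L : Subgroup P)
    (hVn : V.Normal) (hcomm : ∀ a ∈ V, ∀ b ∈ V, a * b = b * a) (hexp : ∀ a ∈ V, a ^ s = 1)
    (hc : V.IsComplement' L) :
    ∃ (W : Type) (_ : AddCommGroup W) (_ : Module (ZMod s) W) (_ : Finite W)
      (ρ : Representation (ZMod s) L W),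
      PairInvLin ρ ∧ ∀ l : L, ρ l = 1 ↔ ∀ a ∈ V, (l : P) * a = a * (l : P) := by
  let iC : CommGroup V :=
    { (inferInstance : Group V) with mul_comm := fun a b => Subtype.ext (hcomm a a.2 b b.2) }
  let iA : AddCommGroup (Additive V) := Additive.addCommGroup
  have hs : ∀ w : Additive V, s • w = 0 := by
    intro w
    apply Additive.toMul.injective
    apply Subtype.ext
    have := hexp (Additive.toMul w : V) (Additive.toMul w : V).2
    simpa using this
  let iM : Module (ZMod s) (Additive V) := AddCommGroup.zmodModule hs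
  have iF : Finite (Additive V) := inferInstanceAs (Finite V)
  refine ⟨Additive V, iA, iM, iF, ?_⟩
  exact @I1_core s P _ hP V L hVn hc (Additive V) iA iM (fun w => ((Additive.toMul w : V) : P))
    (fun w => (Additive.toMul w : V).2)
    (fun a b h => Additive.toMul.injective (Subtype.ext h))
    (fun a ha => ⟨Additive.ofMul ⟨a, ha⟩, rfl⟩) (fun a b => rfl)

end Pool.Agent.Helper453.SR.NI1
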