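import Pool.Agent.Helper453.SR.Defs

set_option autoImplicit false
open CategoryTheory MonoidalCategory

namespace Pool.Agent.Helper453.SR.NJ1

open Pool.Agent.Helper453.SR 






theorem J1_star {p : ℕ} [Fact p.Prime] {K V : Type} [Group K] [Finite K] [AddCommGroup V]
    [Module (ZMod p) V] (ρ : Representation (ZMod p) K V) (hcop : (Nat.card K).Coprime p)
    (x : K) (a c : V) (h1 : c = ρ x a - a) (h2 : ρ x c = c) : c = 0 := by
  have h3 : ∀ i : ℕ, ρ (x ^ i) a = a + i • c := by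
    intro i
    induction i with
    | zero => simp
    | succ i ih =>
      rw [pow_succ', map_mul, Module.End.mul_apply, ih, map_add, map_nsmul, h2, succ_nsmul]
      rw [h1]
      abel
  have h4 := h3 (orderOf x)
  rw [pow_orderOf_eq_one, map_one, Module.End.one_apply] at h4
  have h5 : (orderOf x) • c = 0 := by
    have : a + orderOf x • c = a + 0 := by rw [add_zero]; exact h4.symm
    exact add_left_cancel this
  have h6 : ((orderOf x : ℕ) : ZMod p) • c = 0 := by rw [Nat.cast_smul_eq_nsmul]; exact h5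
  rcases smul_eq_zero.1 h6 with h7 | h7
  · exfalso
    have h8 : p ∣ orderOf x := (ZMod.natCast_eq_zero_iff _ _).1 h7
    have h9 : p ∣ Nat.card K := h8.trans (orderOf_dvd_natCard x)
    have h10 : p ∣ 1 := by
      have h11 := Nat.dvd_gcd h9 (dvd_refl p)
      rwa [hcop] at h11
    exact (Fact.out : p.Prime).one_lt.ne' (Nat.dvd_one.1 h10)
  · exact h7

theorem J1_inv {p : ℕ} {K V : Type} [Group K] [AddCommGroup V]
    [Module (ZMod p) V] (ρ : Representation (ZMod p) K V) (x : K) (v : V) :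
    ρ x⁻¹ v = v ↔ ρ x v = v := by
  constructor
  · intro h
    have h1 : ρ x (ρ x⁻¹ v) = v := by
      rw [← Module.End.mul_apply, ← map_mul, mul_inv_cancel, map_one, Module.End.one_apply]
    rwa [h] at h1
  · intro h
    have h1 : ρ x⁻¹ (ρ x v) = v := by
      rw [← Module.End.mul_apply, ← map_mul, inv_mul_cancel, map_one, Module.End.one_apply]
    rwa [h] at h1

theorem J1_comm {p : ℕ} {K V : Type} [Group K] [AddCommGroup V]
    [Module (ZMod p) V] (ρ : Representation (ZMod p) K V) (x k : K) (h : k * x * k⁻¹ = x⁻¹) (v : V) :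
    ρ x⁻¹ (ρ k v) = ρ k (ρ x v) := by
  rw [← Module.End.mul_apply, ← Module.End.mul_apply, ← map_mul, ← map_mul, ← h,
    inv_mul_cancel_right]

theorem J1 {p : ℕ} [Fact p.Prime] {K V : Type} [Group K] [Finite K] [AddCommGroup V] [Module (ZMod p) V]
    (ρ : Representation (ZMod p) K V) (hcop : (Nat.card K).Coprime p) (hI : PairInvLin ρ) : JProp ρ := by
  intro x y v w z hv hw
  obtain ⟨k, u, hkx, hky, ha, hb⟩ := hI x y v (z + w - ρ y z)
  have hv' : ρ x⁻¹ v = v := (J1_inv ρ x v).2 hv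
  have hw' : ρ y⁻¹ w = w := (J1_inv ρ y w).2 hw
  have hyz : ρ y⁻¹ (ρ y z) = z := by
    rw [← Module.End.mul_apply, ← map_mul, inv_mul_cancel, map_one, Module.End.one_apply]
  -- part a
  rw [hv'] at ha
  have ha1 : ρ k v + v = ρ x⁻¹ u - u := by
    have : u + ρ k v - ρ x⁻¹ u + v = 0 := by rw [ha]; abel
    have h2 : ρ k v + v - (ρ x⁻¹ u - u) = u + ρ k v - ρ x⁻¹ u + v := by abel
    rw [← sub_eq_zero, h2, this]
  have ha2 : ρ x⁻¹ (ρ k v + v) = ρ k v + v := by
    rw [map_add, J1_comm ρ x k hkx, hv, hv']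
  have ha3 := J1_star ρ hcop x⁻¹ u _ ha1 ha2
  have ha4 : ρ x⁻¹ u = u := by
    rw [ha3] at ha1
    exact (sub_eq_zero.1 ha1.symm)
  -- part b
  set q : V := u + ρ k z - z with hq
  have hb1 : ρ k w + w = ρ y⁻¹ q - q := by
    rw [map_sub, map_add, map_sub, map_add, hw', hyz, ← J1_comm ρ y k hky] at hb
    rw [hq, map_sub, map_add]
    have h2 : ρ k w + w - (ρ y⁻¹ u + ρ y⁻¹ (ρ k z) - ρ y⁻¹ z - (u + ρ k z - z)) =
      (u + (ρ k z + ρ k w - ρ y⁻¹ (ρ k z)) - ρ y⁻¹ u) - (-(ρ y⁻¹ z + w - z)) := by abel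
    rw [← sub_eq_zero, h2, hb, sub_self]
  have hb2 : ρ y⁻¹ (ρ k w + w) = ρ k w + w := by
    rw [map_add, J1_comm ρ y k hky, hw, hw']
  have hb3 := J1_star ρ hcop y⁻¹ q _ hb1 hb2
  have hb4 : ρ y⁻¹ q = q := by
    rw [hb3] at hb1
    exact (sub_eq_zero.1 hb1.symm)
  refine ⟨k, hkx, hky, eq_neg_of_add_eq_zero_left ha3, eq_neg_of_add_eq_zero_left hb3, -u, q, ?_,
    (J1_inv ρ y q).1 hb4, ?_⟩
  · rw [map_neg, (J1_inv ρ x u).1 ha4]
  · rw [hq]; abel

end Pool.Agent.Helper453.SR.NJ1
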