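import Pool.Agent.Helper453.SR.Defs
import Pool.Agent.Helper453.SR.B1
import Pool.Agent.Helper453.SR.J1
import Pool.Agent.Helper453.SR.E4
import Pool.Agent.Helper453.SR.F1
import Pool.Agent.Helper453.SR.I1

set_option autoImplicit false
open CategoryTheory MonoidalCategory

namespace Pool.Agent.Helper453.SR.NI2

open Pool.Agent.Helper453.SR Pool.Agent.Helper453.SR.NB1 Pool.Agent.Helper453.SR.NJ1 Pool.Agent.Helper453.SR.NE4 Pool.Agent.Helper453.SR.NF1 Pool.Agent.Helper453.SR.NI1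



















theorem I2 {s : ℕ} (hs : s.Prime) (hs2 : s ≠ 2) {P : Type} [Group P] [Finite P] (hP : PairInv P)
    (V L : Subgroup P) (hVn : V.Normal) (hcomm : ∀ a ∈ V, ∀ b ∈ V, a * b = b * a) (hexp : ∀ a ∈ V, a ^ s = 1)
    (hc : V.IsComplement' L) (hself : ∀ g : P, (∀ a ∈ V, g * a = a * g) → g ∈ V) :
    (∀ t : P, (∃ n, t ^ (s ^ n) = 1) → t ∈ V) ∧ CEN L ∧ CEN (P ⧸ V) := by
  haveI : Fact s.Prime := ⟨hs⟩
  obtain ⟨W, i1, i2, i3, ρ, hI, hker⟩ := I1 hP V L hVn hcomm hexp hc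
  have hdisj : ∀ x : P, x ∈ V → x ∈ L → x = 1 := by
    intro x hV hL
    have h : x ∈ V ⊓ L := ⟨hV, hL⟩
    rw [hc.disjoint.eq_bot] at h
    exact (Subgroup.mem_bot).1 h
  have h1 : ∀ l : L, ρ l = 1 → l = 1 := by
    intro l hl
    have h2 := (hker l).1 hl
    have h3 := hself l h2
    exact Subtype.ext (hdisj _ h3 l.2)
  have hL : ∀ (l : L) (n : ℕ), l ^ (s ^ n) = 1 → l = 1 := fun l n h => h1 l (B1 hs2 ρ hI l n h)
  have hinj : Function.Injective ρ := (injective_iff_map_eq_one ρ).2 h1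
  have hcop : (Nat.card L).Coprime s := by
    refine Nat.Coprime.symm ((Nat.Prime.coprime_iff_not_dvd hs).2 ?_)
    intro hd
    obtain ⟨x, hx⟩ := exists_prime_orderOf_dvd_card' s hd
    have hx1 : x = 1 := hL x 1 (by rw [pow_one, ← hx]; exact pow_orderOf_eq_one x)
    rw [hx1, orderOf_one] at hx
    exact hs.one_lt.ne hx
  have hCL : CEN L := E4 hs2 ρ hinj hcop (J1 ρ hcop hI)
  refine ⟨?_, hCL, ?_⟩
  · rintro t ⟨n, ht⟩
    obtain ⟨⟨v, l⟩, hvl⟩ := hc.2 t
    have hvl' : (v : P) * (l : P) = t := hvl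
    have hq : (QuotientGroup.mk' V) t = (QuotientGroup.mk' V) (l : P) := by
      rw [← hvl', map_mul]
      have : (QuotientGroup.mk' V) (v : P) = 1 := by
        rw [QuotientGroup.mk'_apply, QuotientGroup.eq_one_iff]
        exact v.2
      rw [this, one_mul]
    have hq2 : (QuotientGroup.mk' V) ((l : P) ^ (s ^ n)) = 1 := by
      rw [map_pow, ← hq, ← map_pow, ht, map_one]
    have hq3 : (l : P) ^ (s ^ n) ∈ V := by
      rw [QuotientGroup.mk'_apply, QuotientGroup.eq_one_iff] at hq2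
      exact hq2
    have hl1 : (⟨l, l.2⟩ : L) = 1 := by
      apply hL _ n
      apply Subtype.ext
      exact hdisj _ hq3 (L.pow_mem l.2 _)
    have hl2 : (l : P) = 1 := congrArg Subtype.val hl1
    rw [← hvl', hl2, mul_one]
    exact v.2
  · refine F1 ((QuotientGroup.mk' V).comp L.subtype) ?_ hCL
    intro q
    obtain ⟨t, rfl⟩ := QuotientGroup.mk'_surjective V q
    obtain ⟨⟨v, l⟩, hvl⟩ := hc.2 t
    have hvl' : (v : P) * (l : P) = t := hvl
    refine ⟨⟨l, l.2⟩, ?_⟩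
    rw [← hvl', map_mul]
    have : (QuotientGroup.mk' V) (v : P) = 1 := by
      rw [QuotientGroup.mk'_apply, QuotientGroup.eq_one_iff]
      exact v.2
    rw [this, one_mul]
    rfl


end Pool.Agent.Helper453.SR.NI2
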