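import Pool.Agent.Helper453.SR.Defs
import Pool.Agent.Helper453.SR.H4
import Pool.Agent.Helper453.SR.I2
import Pool.Agent.Helper453.SR.F1

set_option autoImplicit false
open CategoryTheory MonoidalCategory

namespace Pool.Agent.Helper453.SR.NI3

open Pool.Agent.Helper453.SR Pool.Agent.Helper453.SR.NH4 Pool.Agent.Helper453.SR.NI2 Pool.Agent.Helper453.SR.NF1















theorem I3_aux {Q : Type} [Group Q] [Finite Q] (V : Subgroup Q) [V.Normal]
    (h : ∀ (r : ℕ), r.Prime → r ≠ 2 → ∀ t : Q, (∃ n, t ^ (r ^ n) = 1) → t ∈ V) :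
    IsPGroup 2 (Q ⧸ V) := by
  intro x
  obtain ⟨g, rfl⟩ := QuotientGroup.mk_surjective x
  have hN : orderOf g ≠ 0 := (orderOf_pos g).ne'
  obtain ⟨a, m, hm, hNm⟩ := Nat.exists_eq_pow_mul_and_not_dvd hN 2 (by norm_num)
  have hm0 : m ≠ 0 := by
    rintro rfl
    exact hm (dvd_zero 2)
  have htm : (g ^ (2 ^ a)) ^ m = 1 := by
    rw [← pow_mul, ← hNm, pow_orderOf_eq_one]
  refine ⟨a, ?_⟩
  rw [← QuotientGroup.mk_pow]
  generalize g ^ (2 ^ a) = t at htm
  have hd : orderOf (t : Q ⧸ V) ∣ m := by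
    apply orderOf_dvd_of_pow_eq_one
    rw [← QuotientGroup.mk_pow, htm, QuotientGroup.mk_one]
  rw [← orderOf_eq_one_iff]
  by_contra hne
  obtain ⟨r, hr, hrd⟩ := Nat.exists_prime_and_dvd hne
  have hr2 : r ≠ 2 := by
    rintro rfl
    exact hm (hrd.trans hd)
  obtain ⟨b, m2, hm2, hmm⟩ := Nat.exists_eq_pow_mul_and_not_dvd hm0 r hr.ne_one
  have h1 : (t ^ m2) ^ (r ^ b) = 1 := by
    rw [← pow_mul, mul_comm, ← hmm, htm]
  have h2 := h r hr hr2 (t ^ m2) ⟨b, h1⟩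
  have h3 : (t : Q ⧸ V) ^ m2 = 1 := by
    rw [← QuotientGroup.mk_pow]
    exact (QuotientGroup.eq_one_iff _).2 h2
  exact hm2 (hrd.trans (orderOf_dvd_of_pow_eq_one h3))

theorem I3 {X : Type} [Group X] [Finite X] [Group.IsSolvable X] (hX : PairInv X) (hC : CEN X)
    (h2 : ∀ W : Subgroup X, W.Normal → IsPGroup 2 W → W = ⊥) : NilLen 2 X := by
  apply H4 1 h2
  intro C _ s hs hs2 hPD
  obtain ⟨V, L, hVn, hcomm, hexp, hc, hself⟩ := hPD
  have hQ : PairInv (X ⧸ C) := by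
    intro x y
    obtain ⟨a, rfl⟩ := QuotientGroup.mk_surjective x
    obtain ⟨b, rfl⟩ := QuotientGroup.mk_surjective y
    obtain ⟨g, hg1, hg2⟩ := hX a b
    refine ⟨(g : X ⧸ C), ?_, ?_⟩
    · have := congrArg (QuotientGroup.mk' C) hg1
      rw [map_mul, map_mul, map_inv, map_inv] at this
      exact this
    · have := congrArg (QuotientGroup.mk' C) hg2
      rw [map_mul, map_mul, map_inv, map_inv] at this
      exact this
  have hCQ : CEN (X ⧸ C) := F1 (QuotientGroup.mk' C) (QuotientGroup.mk'_surjective C) hC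
  have hI2 := I2 hs hs2 hQ V L hVn hcomm hexp hc hself
  have hVp : IsPGroup s V := by
    intro a
    refine ⟨1, ?_⟩
    apply Subtype.ext
    rw [pow_one]
    exact hexp a.1 a.2
  have key : ∀ (r : ℕ), r.Prime → r ≠ 2 → ∀ t : X ⧸ C, (∃ n, t ^ (r ^ n) = 1) → t ∈ V := by
    intro r hr hr2 t ht
    by_cases hrs : r = s
    · subst hrs
      exact hI2.1 t ht
    · exact hself t (hCQ s r hs hr hs2 hr2 (fun h => hrs h.symm) V hVp t ht
        (fun a ha => hVn.conj_mem a ha t))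
  haveI := hVn
  have h2g : IsPGroup 2 ((X ⧸ C) ⧸ V) := I3_aux V key
  haveI : Fact s.Prime := ⟨hs⟩
  haveI : Fact (Nat.Prime 2) := ⟨Nat.prime_two⟩
  refine ⟨V, hVn, hVp.isNilpotent, ⊤, inferInstance, ?_, ?_⟩
  · exact (h2g.to_subgroup ⊤).isNilpotent
  · exact QuotientGroup.subsingleton_quotient_top

end Pool.Agent.Helper453.SR.NI3
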