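import Pool.Agent.Helper453.SR.Defs
import Pool.Agent.Helper453.SR.I2
import Pool.Agent.Helper453.SR.I3
import Pool.Agent.Helper453.SR.F1
import Pool.Agent.Helper453.SR.H5

set_option autoImplicit false
open CategoryTheory MonoidalCategory

namespace Pool.Agent.Helper453.SR.NI4

open Pool.Agent.Helper453.SR Pool.Agent.Helper453.SR.NI2 Pool.Agent.Helper453.SR.NI3 Pool.Agent.Helper453.SR.NF1 Pool.Agent.Helper453.SR.NH5















theorem j14235_pi {G H : Type} [Group G] [Group H] (f : G →* H) (hf : Function.Surjective f)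
    (h : PairInv G) : PairInv H := by
  intro x y
  obtain ⟨a, rfl⟩ := hf x
  obtain ⟨b, rfl⟩ := hf y
  obtain ⟨g, h1, h2⟩ := h a b
  refine ⟨f g, ?_, ?_⟩
  · rw [← map_inv, ← map_mul, ← map_mul, h1, map_inv]
  · rw [← map_inv, ← map_mul, ← map_mul, h2, map_inv]



theorem I4 {P : Type} [Group P] [Finite P] [Group.IsSolvable P] (hP : PairInv P) (s : ℕ) (hs : s.Prime) (hs2 : s ≠ 2)
    (hd : PrimData s P) : NilLen 4 P := by
  obtain ⟨V, L, hVn, hcomm, hexp, hc, hself⟩ := hd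
  obtain ⟨-, -, hC⟩ := I2 hs hs2 hP V L hVn hcomm hexp hc hself
  have hY : PairInv (P ⧸ V) := j14235_pi (QuotientGroup.mk' V) (QuotientGroup.mk'_surjective V) hP
  obtain ⟨N, hN, hN2, hW⟩ := H5 (P ⧸ V)
  have hX : PairInv ((P ⧸ V) ⧸ N) :=
    j14235_pi (QuotientGroup.mk' N) (QuotientGroup.mk'_surjective N) hY
  have hCX : CEN ((P ⧸ V) ⧸ N) :=
    F1 (QuotientGroup.mk' N) (QuotientGroup.mk'_surjective N) hC
  have h2 : NilLen 2 ((P ⧸ V) ⧸ N) := I3 hX hCX hW
  have hNn : Group.IsNilpotent N := by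
    have : Fact (Nat.Prime 2) := ⟨Nat.prime_two⟩
    exact hN2.isNilpotent
  have h3 : NilLen 3 (P ⧸ V) := ⟨N, hN, hNn, h2⟩
  have hVnil : Group.IsNilpotent V := by
    let _ : CommGroup V := { (inferInstance : Group V) with
      mul_comm := fun a b => Subtype.ext (hcomm a a.2 b b.2) }
    exact (CommGroup.isNilpotent : Group.IsNilpotent V)
  exact ⟨V, hVn, hVnil, h3⟩

end Pool.Agent.Helper453.SR.NI4
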