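import Pool.Agent.Helper453.SR.Defs
import Pool.Agent.Helper453.SR.H4
import Pool.Agent.Helper453.SR.H5
import Pool.Agent.Helper453.SR.I4

set_option autoImplicit false
open CategoryTheory MonoidalCategory

namespace Pool.Agent.Helper453.SR.NI5

open Pool.Agent.Helper453.SR Pool.Agent.Helper453.SR.NH4 Pool.Agent.Helper453.SR.NH5 Pool.Agent.Helper453.SR.NI4















theorem I5_quot {G : Type} [Group G] (hG : PairInv G) (N : Subgroup G) [N.Normal] :
    PairInv (G ⧸ N) := by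
  intro x y
  obtain ⟨x, rfl⟩ := QuotientGroup.mk_surjective x
  obtain ⟨y, rfl⟩ := QuotientGroup.mk_surjective y
  obtain ⟨g, h1, h2⟩ := hG x y
  refine ⟨(g : G ⧸ N), ?_, ?_⟩
  · rw [← QuotientGroup.mk_mul, ← QuotientGroup.mk_inv, ← QuotientGroup.mk_mul, h1,
      QuotientGroup.mk_inv]
  · rw [← QuotientGroup.mk_mul, ← QuotientGroup.mk_inv, ← QuotientGroup.mk_mul, h2,
      QuotientGroup.mk_inv]

theorem I5 {G : Type} [Group G] [Finite G] [Group.IsSolvable G] (hG : PairInv G) : NilLen 5 G := by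
  obtain ⟨N, hN, h2, hW⟩ := H5 G
  have : Fact (Nat.Prime 2) := ⟨Nat.prime_two⟩
  refine ⟨N, hN, h2.isNilpotent, ?_⟩
  exact H4 3 (K := G ⧸ N) hW fun C hC s hs hs2 hd =>
    I4 (I5_quot (I5_quot hG N) C) s hs hs2 hd

end Pool.Agent.Helper453.SR.NI5
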