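import Pool.Agent.Helper453.SR.Defs
import Pool.Agent.Helper453.SR.A5
import Pool.Agent.Helper453.SR.I5
import Pool.Agent.Helper453.SR.G6

set_option autoImplicit false
open CategoryTheory MonoidalCategory

namespace Pool.Agent.Helper453.SR.NFinal

open Pool.Agent.Helper453.SR Pool.Agent.Helper453.SR.NA5 Pool.Agent.Helper453.SR.NI5 Pool.Agent.Helper453.SR.NG6















theorem Final : ∀ (G : Type) [Group G] [Fintype G], Group.IsSolvable G →
      (∀ g : G, IsConj g g⁻¹) →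
      (∀ U V W : FDRep ℂ G, CategoryTheory.Simple U → CategoryTheory.Simple V →
        CategoryTheory.Simple W → Module.finrank ℂ (U ⟶ V ⊗ W) ≤ 1) →
      ∃ (N : Fin 6 → Subgroup G) (_ : ∀ i, (N i).Normal), N 0 = ⊥ ∧ N 5 = ⊤ ∧
        ∀ i : Fin 5, N i.castSucc ≤ N i.succ ∧
          Group.IsNilpotent (↥(N i.succ) ⧸ (N i.castSucc).subgroupOf (N i.succ)) := by
  intro G _ _ hs hreal hmf
  have hP : PairInv G := A5 hreal hmf
  obtain ⟨N, hN, h0, h5, h⟩ := G6 5 (I5 hP)
  exact ⟨fun i : Fin 6 => N (i : ℕ), fun i => hN _, h0, h5, fun i => h (i : ℕ)⟩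

end Pool.Agent.Helper453.SR.NFinal
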